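import Pool.Agent.Lib.MP_ecd12e_nt.DH.Defs

/-!
The algebra behind the core estimate.
-/

set_option autoImplicit false

namespace Pool.Agent.Lib.MP_ecd12e_nt.DH

open Finset Real MeasureTheory
open Pool.Agent.Lib.MP_ecd12e_nt.Bar (ei)
open Pool.Agent.Lib.MP_ecd12e_nt.Sch

theorem core_alg {K J N R V lam Δ T0 Y y : ℝ} (hK : 1 ≤ K) (hJ : 0 ≤ J) (hN : 0 < N) (hR : 0 ≤ R)
    (hV : 0 < V) (hl : 0 < lam) (hΔ : 0 ≤ Δ) (hY : 0 ≤ Y) (hy : 0 ≤ y) (hyT : y ^ 3 = T0 ^ 2)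
    (h1 : V ^ 2 ≤ K * N * lam) (h2 : lam ^ 2 ≤ K * T0) (h3 : Δ * lam ^ 8 ≤ K * N ^ 4 * Y)
    (h4 : V ^ 4 * R ^ 2 ≤ K * J * N * lam *
      (N * min (N * R) (√Δ * (N * √R)) + N * √R * √(N * (Δ ^ 2 + Δ * y)))) :
    R ^ 9 * V ^ 36 ≤ 512 * K ^ 27 * (J ^ 8 * Y * T0 * N ^ 30) ∨
    R ^ 3 * V ^ 36 ≤ 512 * K ^ 27 * (J ^ 2 * Y ^ 2 * N ^ 27) ∨
    R ^ 9 * V ^ 60 ≤ 512 * K ^ 27 * (J ^ 6 * Y ^ 3 * T0 ^ 2 * N ^ 45) := by
  have hK0 : 0 < K := by linarith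
  have hT : 0 < T0 := (mul_pos_iff_of_pos_left hK0).1 ((pow_pos hl 2).trans_le h2)
  rcases hR.eq_or_lt with rfl | hR0
  · left
    rw [zero_pow (by norm_num), zero_mul]
    positivity
  have hc : 0 ≤ K * J * N * lam := by positivity
  have hRR : √R ^ 2 = R := Real.sq_sqrt hR
  have hpw : ∀ {a : ℕ}, a ≤ 27 → K ^ a ≤ K ^ 27 := fun h => pow_le_pow_right₀ hK h
  rcases le_total (N * √R * √(N * (Δ ^ 2 + Δ * y))) (N * min (N * R) (√Δ * (N * √R))) with h | h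
  · left
    have h5 : V ^ 4 * R ^ 2 ≤ K * J * N * lam * (2 * (N * min (N * R) (√Δ * (N * √R)))) :=
      h4.trans (mul_le_mul_of_nonneg_left (by linarith) hc)
    have h6 : V ^ 4 * R ≤ 2 * K * J * N ^ 3 * lam := by
      refine le_of_mul_le_mul_right ?_ hR0
      calc V ^ 4 * R * R = V ^ 4 * R ^ 2 := by ring
        _ ≤ K * J * N * lam * (2 * (N * (N * R))) := h5.trans (by gcongr; exact min_le_left _ _)
        _ = _ := by ring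
    have h7 : V ^ 8 * R ^ 3 ≤ (2 * K * J * N ^ 3 * lam) ^ 2 * Δ := by
      refine le_of_mul_le_mul_right ?_ hR0
      have h8 : V ^ 4 * R ^ 2 ≤ K * J * N * lam * (2 * (N * (√Δ * (N * √R)))) :=
        h5.trans (by gcongr; exact min_le_right _ _)
      calc V ^ 8 * R ^ 3 * R = (V ^ 4 * R ^ 2) ^ 2 := by ring
        _ ≤ (K * J * N * lam * (2 * (N * (√Δ * (N * √R))))) ^ 2 := by gcongr
        _ = (2 * K * J * N ^ 3 * lam) ^ 2 * √Δ ^ 2 * √R ^ 2 := by ring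
        _ = _ := by rw [hRR, Real.sq_sqrt hΔ]
    calc R ^ 9 * V ^ 36 = (V ^ 4 * R) ^ 6 * (V ^ 8 * R ^ 3) * (V ^ 2) ^ 2 := by ring
      _ ≤ (2 * K * J * N ^ 3 * lam) ^ 6 * ((2 * K * J * N ^ 3 * lam) ^ 2 * Δ) *
          (K * N * lam) ^ 2 := by gcongr
      _ = 256 * K ^ 10 * J ^ 8 * N ^ 26 * (Δ * lam ^ 8) * lam ^ 2 := by ring
      _ ≤ 256 * K ^ 10 * J ^ 8 * N ^ 26 * (K * N ^ 4 * Y) * (K * T0) := by gcongr
      _ = 256 * K ^ 12 * (J ^ 8 * Y * T0 * N ^ 30) := by ring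
      _ ≤ _ := by
        have := hpw (a := 12) (by norm_num)
        gcongr
        norm_num
  · right
    have h5 : V ^ 4 * R ^ 2 ≤ K * J * N * lam * (2 * (N * √R * √(N * (Δ ^ 2 + Δ * y)))) :=
      h4.trans (mul_le_mul_of_nonneg_left (by linarith) hc)
    have h6 : V ^ 8 * R ^ 3 ≤ 4 * K ^ 2 * J ^ 2 * N ^ 5 * lam ^ 2 * (Δ ^ 2 + Δ * y) := by
      refine le_of_mul_le_mul_right ?_ hR0
      calc V ^ 8 * R ^ 3 * R = (V ^ 4 * R ^ 2) ^ 2 := by ring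
        _ ≤ (K * J * N * lam * (2 * (N * √R * √(N * (Δ ^ 2 + Δ * y))))) ^ 2 := by gcongr
        _ = 4 * K ^ 2 * J ^ 2 * N ^ 4 * lam ^ 2 * √(N * (Δ ^ 2 + Δ * y)) ^ 2 * √R ^ 2 := by ring
        _ = _ := by
          rw [hRR, Real.sq_sqrt (by positivity)]
          ring
    rcases le_total y Δ with h7 | h7
    · left
      have h8 : Δ ^ 2 + Δ * y ≤ 2 * Δ ^ 2 := by nlinarith [mul_le_mul_of_nonneg_left h7 hΔ]
      calc R ^ 3 * V ^ 36 = V ^ 8 * R ^ 3 * (V ^ 2) ^ 14 := by ring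
        _ ≤ 4 * K ^ 2 * J ^ 2 * N ^ 5 * lam ^ 2 * (2 * Δ ^ 2) * (K * N * lam) ^ 14 := by
          gcongr ?_ * ?_ ^ 14
          exact h6.trans (by gcongr)
        _ = 8 * K ^ 16 * J ^ 2 * N ^ 19 * (Δ * lam ^ 8) ^ 2 := by ring
        _ ≤ 8 * K ^ 16 * J ^ 2 * N ^ 19 * (K * N ^ 4 * Y) ^ 2 := by gcongr
        _ = 8 * K ^ 18 * (J ^ 2 * Y ^ 2 * N ^ 27) := by ring
        _ ≤ _ := by
          have := hpw (a := 18) (by norm_num)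
          gcongr
          norm_num
    · right
      have h8 : Δ ^ 2 + Δ * y ≤ 2 * (Δ * y) := by nlinarith [mul_le_mul_of_nonneg_left h7 hΔ]
      have h9 : V ^ 20 * R ^ 3 ≤ 8 * K ^ 9 * J ^ 2 * N ^ 15 * Y * y :=
        calc V ^ 20 * R ^ 3 = V ^ 8 * R ^ 3 * (V ^ 2) ^ 6 := by ring
          _ ≤ 4 * K ^ 2 * J ^ 2 * N ^ 5 * lam ^ 2 * (2 * (Δ * y)) * (K * N * lam) ^ 6 := by
            gcongr ?_ * ?_ ^ 6
            exact h6.trans (by gcongr)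
          _ = 8 * K ^ 8 * J ^ 2 * N ^ 11 * (Δ * lam ^ 8) * y := by ring
          _ ≤ 8 * K ^ 8 * J ^ 2 * N ^ 11 * (K * N ^ 4 * Y) * y := by gcongr
          _ = _ := by ring
      calc R ^ 9 * V ^ 60 = (V ^ 20 * R ^ 3) ^ 3 := by ring
        _ ≤ (8 * K ^ 9 * J ^ 2 * N ^ 15 * Y * y) ^ 3 := by gcongr
        _ = 512 * K ^ 27 * (J ^ 6 * Y ^ 3 * y ^ 3 * N ^ 45) := by ring
        _ = _ := by rw [hyT]

end Pool.Agent.Lib.MP_ecd12e_nt.DH
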