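import Pool.Agent.Lib.MP_ecd12e_nt.DH.Weak

/-!
The bound for short polynomials.
-/

set_option autoImplicit false

namespace Pool.Agent.Lib.MP_ecd12e_nt.DH

open Finset Real MeasureTheory
open Pool.Agent.Lib.MP_ecd12e_nt.Bar (ei)
open Pool.Agent.Lib.MP_ecd12e_nt.Sch

/-- Dyadic blocks of a polynomial on `[M, 2 ^ k M]`. -/
lemma big_blocks {M k : ℕ} (hM : 1 ≤ M) {J : Finset ℕ} (hJ : InI J (M : ℝ) (2 ^ k)) {c : ℕ → ℂ}
    {B : ℝ} (hB : 0 < B) (hc : ∀ n, ‖c n‖ ≤ B) :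
    ∃ b : ℕ → ℕ → ℂ, (∀ i n, ‖b i n‖ ≤ 1) ∧ ∀ t : ℝ, ‖dp J c t‖ ≤
      ∑ i ∈ range (k + 1), B * ‖∑ n ∈ Icc (2 ^ i * M) (2 * (2 ^ i * M)),
        b i n * ei (t * Real.log n)‖ := by
  classical
  have hJ' : ∀ n ∈ J, M ≤ n ∧ n ≤ 2 ^ k * M := fun n hn =>
    ⟨by exact_mod_cast (hJ n hn).1, by exact_mod_cast (hJ n hn).2⟩
  refine ⟨fun i n => if n ∈ J.filter (fun n => Nat.log 2 (n / M) = i) then c n / (B : ℂ) else 0,
    fun i n => ?_, fun t => ?_⟩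
  · dsimp only
    split_ifs
    · rw [norm_div, Complex.norm_real, Real.norm_eq_abs, abs_of_pos hB, div_le_one hB]
      exact hc n
    · simp
  · have hmap : ∀ n ∈ J, Nat.log 2 (n / M) ∈ range (k + 1) := fun n hn => by
      rw [mem_range, Nat.lt_succ_iff]
      have h1 : n / M ≤ 2 ^ k := Nat.div_le_of_le_mul (by rw [mul_comm]; exact (hJ' n hn).2)
      calc Nat.log 2 (n / M) ≤ Nat.log 2 (2 ^ k) := Nat.log_mono_right h1
        _ = k := Nat.log_pow (by norm_num) k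
    unfold dp
    rw [← sum_fiberwise_of_maps_to hmap]
    refine (norm_sum_le _ _).trans (sum_le_sum fun i _ => le_of_eq ?_)
    have hsub : J.filter (fun n => Nat.log 2 (n / M) = i) ⊆ Icc (2 ^ i * M) (2 * (2 ^ i * M)) := by
      intro n hn
      obtain ⟨hn, hi⟩ := mem_filter.1 hn
      have h0 : n / M ≠ 0 := (Nat.div_pos (hJ' n hn).1 hM).ne'
      have h1 : 2 ^ i ≤ n / M := hi ▸ Nat.pow_log_le_self 2 h0
      have h2 : n / M < 2 ^ (i + 1) := hi ▸ Nat.lt_pow_succ_log_self (by norm_num) _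
      rw [Nat.le_div_iff_mul_le hM] at h1
      rw [Nat.div_lt_iff_lt_mul hM] at h2
      rw [mem_Icc]
      refine ⟨h1, h2.le.trans (le_of_eq (by ring))⟩
    rw [← sum_subset hsub (fun n _ hn => by dsimp only; rw [if_neg hn, zero_mul])]
    have hB' : (B : ℂ) ≠ 0 := by exact_mod_cast hB.ne'
    have e : ∑ n ∈ J.filter (fun n => Nat.log 2 (n / M) = i), c n * ei (t * Real.log n) =
        (B : ℂ) * ∑ n ∈ J.filter (fun n => Nat.log 2 (n / M) = i),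
          (if n ∈ J.filter (fun n => Nat.log 2 (n / M) = i) then c n / (B : ℂ) else 0) *
            ei (t * Real.log n) := by
      rw [mul_sum]
      refine sum_congr rfl fun n hn => ?_
      rw [if_pos hn]
      field_simp
    rw [e, norm_mul, Complex.norm_real, Real.norm_eq_abs, abs_of_pos hB]

lemma big_k (k : ℕ) {ε : ℝ} (hε : 0 < ε) :
    ∃ C : ℝ, 0 ≤ C ∧ ∀ (σ : ℝ) (N : ℕ) (T κ V : ℝ) (b : ℕ → ℂ) (W : Finset ℤ), 2 ≤ k →
      7 / 9 ≤ σ → σ ≤ 1 → 1 ≤ N → (N : ℝ) ^ k ≤ T → T ≤ (N : ℝ) ^ (k + 1) → 1 ≤ κ →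
      (N : ℝ) ^ σ ≤ κ * V → LV N T V b W →
      (W.card : ℝ) ≤ C * κ ^ (100 * k) * T ^ (2 - 2 * σ + ε) := by
  classical
  obtain ⟨C1, hC1, H1⟩ := weak1 (half_pos hε)
  obtain ⟨j, hj⟩ := exists_nat_ge (200 * k / ε)
  rw [div_le_iff₀ hε] at hj
  have h2k : (1 : ℝ) ≤ 2 ^ k := one_le_pow₀ (by norm_num)
  obtain ⟨Ct, hCt, Ht⟩ := exists_tauLe (k := j + 1) j.succ_pos (A := 2 ^ k) h2k
  refine ⟨(k + 1) * (C1 * (2 ^ k * (k + 1) * Ct ^ k) ^ 100 * (2 ^ k) ^ (1 + ε)), by positivity, ?_⟩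
  intro σ N T κ V b W hk hσ hσ1 hN hT1 hT2 hκ hV hLV
  have hN' : (1 : ℝ) ≤ N := by exact_mod_cast hN
  have hk' : (2 : ℝ) ≤ k := by exact_mod_cast hk
  have hT : 1 ≤ T := (one_le_pow₀ hN').trans hT1
  have hT0 : 0 < T := by linarith
  have hV0 : 0 < V := by
    have : 0 < κ * V := lt_of_lt_of_le (Real.rpow_pos_of_pos (by linarith) _) hV
    exact (mul_pos_iff_of_pos_left (by linarith)).1 this
  obtain ⟨Y, hYd⟩ : ∃ Y : ℝ, Y = T ^ (ε / (200 * k)) := ⟨_, rfl⟩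
  have hY : 1 ≤ Y := hYd ▸ Real.one_le_rpow hT (by positivity)
  have hYj : T ≤ Y ^ (j + 1) := by
    rw [hYd, ← Real.rpow_natCast, ← Real.rpow_mul hT0.le]
    refine (Real.rpow_one T).symm.le.trans (Real.rpow_le_rpow_of_exponent_le hT ?_)
    rw [div_mul_eq_mul_div, le_div_iff₀ (by positivity)]
    push_cast
    nlinarith
  have hYk : (Y ^ k) ^ 100 = T ^ (ε / 2) := by
    rw [hYd, ← pow_mul, ← Real.rpow_natCast, ← Real.rpow_mul hT0.le]
    congr 1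
    push_cast
    field_simp
    ring
  have hP : 1 ≤ Ct * Y := one_le_mul_of_one_le_of_one_le hCt hY
  have hτ : TauLe ((2 * (N : ℝ)) ^ k) (Ct * Y) := (Ht Y hY).mono (by
    rw [mul_pow]
    exact mul_le_mul_of_nonneg_left (hT1.trans hYj) (by positivity))
  have hI : InI (Icc N (2 * N)) (N : ℝ) 2 := fun n hn => by
    rw [mem_Icc] at hn
    exact ⟨by exact_mod_cast hn.1, by exact_mod_cast hn.2⟩
  obtain ⟨J, c, hJ, hc, hpow⟩ := dp_pow (by linarith) hP hI hLV.hb (by omega : 1 ≤ k) hτ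
  obtain ⟨B, hBd⟩ : ∃ B : ℝ, B = (Ct * Y) ^ k := ⟨_, rfl⟩
  have hB : 1 ≤ B := hBd ▸ one_le_pow₀ hP
  have hB0 : 0 < B := by linarith
  rw [← hBd] at hc
  have hM : 1 ≤ N ^ k := Nat.one_le_pow _ _ hN
  obtain ⟨bb, hbb, hsum⟩ := big_blocks (M := N ^ k) (k := k) hM (by push_cast; exact hJ) hB0 hc
  obtain ⟨V', hV'⟩ : ∃ V' : ℝ, V' = V ^ k / ((k + 1) * B) := ⟨_, rfl⟩
  have hVV : (k + 1) * B * V' = V ^ k := by
    rw [hV']
    field_simp
  let Wi : ℕ → Finset ℤ := fun i => W.filter fun t => V' ≤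
    ‖∑ n ∈ Icc (2 ^ i * N ^ k) (2 * (2 ^ i * N ^ k)), bb i n * ei (t * Real.log n)‖
  have hcov : W ⊆ (range (k + 1)).biUnion Wi := by
    intro t ht
    by_contra hn
    have hlt : ∀ i ∈ range (k + 1), B * ‖∑ n ∈ Icc (2 ^ i * N ^ k) (2 * (2 ^ i * N ^ k)),
        bb i n * ei (t * Real.log n)‖ < B * V' := fun i hi => by
      refine mul_lt_mul_of_pos_left (not_le.1 fun h => hn ?_) hB0
      exact mem_biUnion.2 ⟨i, hi, mem_filter.2 ⟨ht, h⟩⟩
    have h1 := (hsum t).trans_lt (sum_lt_sum_of_nonempty nonempty_range_add_one hlt)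
    rw [← hpow, norm_pow, sum_const, card_range, nsmul_eq_mul] at h1
    have h2 : V ^ k ≤ ‖dp (Icc N (2 * N)) b t‖ ^ k := pow_le_pow_left₀ hV0.le (hLV.big t ht) k
    push_cast at h1
    nlinarith
  have hone : ∀ i ∈ range (k + 1), ((Wi i).card : ℝ) ≤
      C1 * (2 ^ k * (k + 1) * Ct ^ k) ^ 100 * (2 ^ k) ^ (1 + ε) * κ ^ (100 * k) *
        T ^ (2 - 2 * σ + ε) := by
    intro i hi
    have hik : i ≤ k := Nat.lt_succ_iff.1 (mem_range.1 hi)
    have h2i : (1 : ℝ) ≤ 2 ^ i := one_le_pow₀ (by norm_num)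
    have h2ik : (2 : ℝ) ^ i ≤ 2 ^ k := pow_le_pow_right₀ (by norm_num) hik
    obtain ⟨M, hMd⟩ : ∃ M : ℕ, M = 2 ^ i * N ^ k := ⟨_, rfl⟩
    have hMr : (M : ℝ) = 2 ^ i * (N : ℝ) ^ k := by rw [hMd]; push_cast; rfl
    have hNk : (1 : ℝ) ≤ (N : ℝ) ^ k := one_le_pow₀ hN'
    have hM1 : (N : ℝ) ^ k ≤ M := by rw [hMr]; nlinarith
    have hM2 : (M : ℝ) ≤ 2 ^ k * T := by rw [hMr]; gcongr
    have hM0 : (1 : ℝ) ≤ M := hNk.trans hM1
    have hsq : max T (M : ℝ) ^ 2 ≤ (M : ℝ) ^ 3 := by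
      rcases le_total T M with h | h
      · rw [max_eq_right h]
        exact pow_le_pow_right₀ hM0 (by norm_num)
      · rw [max_eq_left h]
        calc T ^ 2 ≤ ((N : ℝ) ^ (k + 1)) ^ 2 := pow_le_pow_left₀ hT0.le hT2 2
          _ ≤ ((N : ℝ) ^ k) ^ 3 := by
            rw [← pow_mul, ← pow_mul]
            exact pow_le_pow_right₀ hN' (by omega)
          _ ≤ _ := pow_le_pow_left₀ (by positivity) hM1 3
    have hκk : 1 ≤ κ ^ k := one_le_pow₀ hκ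
    have hκ' : 1 ≤ 2 ^ k * κ ^ k * ((k + 1) * B) :=
      one_le_mul_of_one_le_of_one_le (one_le_mul_of_one_le_of_one_le h2k hκk)
        (one_le_mul_of_one_le_of_one_le (by linarith) hB)
    have hMV : (M : ℝ) ^ σ ≤ 2 ^ k * κ ^ k * ((k + 1) * B) * V' := by
      rw [mul_assoc, hVV, hMr, Real.mul_rpow (by positivity) (by positivity), mul_assoc,
        ← mul_pow]
      have e : ((N : ℝ) ^ k) ^ σ = ((N : ℝ) ^ σ) ^ k := by
        rw [← Real.rpow_natCast, ← Real.rpow_natCast, ← Real.rpow_mul (by positivity),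
          ← Real.rpow_mul (by positivity), mul_comm]
      rw [e]
      refine mul_le_mul ?_ (pow_le_pow_left₀ (by positivity) hV k) (by positivity) (by positivity)
      calc ((2 : ℝ) ^ i) ^ σ ≤ ((2 : ℝ) ^ i) ^ (1 : ℝ) :=
            Real.rpow_le_rpow_of_exponent_le h2i hσ1
        _ = 2 ^ i := Real.rpow_one _
        _ ≤ _ := h2ik
    have hL : LV M (max T M) V' (bb i) (Wi i) :=
      ⟨hbb i, fun t ht => ⟨(hLV.inr t (mem_filter.1 ht).1).1,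
        (hLV.inr t (mem_filter.1 ht).1).2.trans (le_max_left _ _)⟩,
        fun t ht => hMd ▸ (mem_filter.1 ht).2⟩
    refine (H1 σ M (max T M) _ V' (bb i) (Wi i) hσ hσ1 (by exact_mod_cast hM0) (le_max_right _ _)
      hsq hκ' hMV hL).trans ?_
    have hmax : max T (M : ℝ) ≤ 2 ^ k * T := max_le (by nlinarith) hM2
    have h3 : max T (M : ℝ) ^ (2 - 2 * σ + ε / 2) ≤
        (2 ^ k) ^ (1 + ε) * T ^ (2 - 2 * σ + ε / 2) := by
      refine (Real.rpow_le_rpow (hT0.le.trans (le_max_left _ _)) hmax (by linarith)).trans ?_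
      rw [Real.mul_rpow (by positivity) hT0.le]
      exact mul_le_mul_of_nonneg_right (Real.rpow_le_rpow_of_exponent_le h2k (by linarith))
        (by positivity)
    have h4 : (2 ^ k * κ ^ k * ((k + 1) * B)) ^ 100 =
        (2 ^ k * (k + 1) * Ct ^ k) ^ 100 * κ ^ (100 * k) * T ^ (ε / 2) := by
      have e : 2 ^ k * κ ^ k * ((k + 1) * B) = 2 ^ k * (k + 1) * Ct ^ k * κ ^ k * Y ^ k := by
        rw [hBd, mul_pow]
        ring
      rw [← hYk, e, mul_comm 100 k, pow_mul κ, ← mul_pow, ← mul_pow]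
    have h5 : T ^ (2 - 2 * σ + ε) = T ^ (ε / 2) * T ^ (2 - 2 * σ + ε / 2) := by
      rw [← Real.rpow_add hT0]
      congr 1
      ring
    rw [h4, h5]
    refine (mul_le_mul_of_nonneg_left h3 (by positivity)).trans (le_of_eq ?_)
    generalize (2 ^ k * ((k : ℝ) + 1) * Ct ^ k) ^ 100 = x
    generalize κ ^ (100 * k) = y
    ring
  calc (W.card : ℝ) ≤ ((range (k + 1)).biUnion Wi).card := by exact_mod_cast card_le_card hcov
    _ ≤ ∑ i ∈ range (k + 1), ((Wi i).card : ℝ) := by exact_mod_cast card_biUnion_le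
    _ ≤ _ := by
      refine (sum_le_sum hone).trans (le_of_eq ?_)
      rw [sum_const, card_range, nsmul_eq_mul]
      push_cast
      generalize (2 ^ k * ((k : ℝ) + 1) * Ct ^ k) ^ 100 = x
      generalize κ ^ (100 * k) = y
      ring

theorem weak2 (A : ℝ) {ε : ℝ} (hε : 0 < ε) :
    ∃ (C : ℝ) (a : ℕ), 0 ≤ C ∧ ∀ (σ : ℝ) (N : ℕ) (T κ V : ℝ) (b : ℕ → ℂ) (W : Finset ℤ),
      7 / 9 ≤ σ → σ ≤ 1 → 1 ≤ N → (N : ℝ) ^ 2 ≤ T → T ≤ (N : ℝ) ^ A → 1 ≤ κ →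
      (N : ℝ) ^ σ ≤ κ * V → LV N T V b W →
      (W.card : ℝ) ≤ C * κ ^ a * T ^ (2 - 2 * σ + ε) := by
  choose C hC H using fun k => big_k k hε
  refine ⟨∑ k ∈ range (⌈A⌉₊ + 3), C k, 100 * (⌈A⌉₊ + 2), sum_nonneg fun k _ => hC k, ?_⟩
  intro σ N T κ V b W hσ hσ1 hN hT1 hT2 hκ hV hLV
  have hN' : (1 : ℝ) ≤ N := by exact_mod_cast hN
  have hT : 1 ≤ T := (one_le_pow₀ hN').trans hT1
  obtain ⟨k, hk, hkA, h1, h2⟩ : ∃ k : ℕ, 2 ≤ k ∧ k ≤ ⌈A⌉₊ + 2 ∧ (N : ℝ) ^ k ≤ T ∧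
      T ≤ (N : ℝ) ^ (k + 1) := by
    rcases hN'.eq_or_lt with h | h
    · refine ⟨2, le_rfl, by omega, hT1, ?_⟩
      rw [← h] at hT2 ⊢
      simpa using hT2
    · obtain ⟨k, h1, h2⟩ := exists_nat_pow_near hT h
      refine ⟨k, ?_, ?_, h1, h2.le⟩
      · have := (pow_lt_pow_iff_right₀ h).1 (hT1.trans_lt h2)
        omega
      · have h3 : (N : ℝ) ^ k ≤ (N : ℝ) ^ ⌈A⌉₊ := by
          refine (h1.trans hT2).trans ?_
          rw [← Real.rpow_natCast]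
          exact Real.rpow_le_rpow_of_exponent_le hN' (Nat.le_ceil A)
        have := (pow_le_pow_iff_right₀ h).1 h3
        omega
  refine (H k σ N T κ V b W hk hσ hσ1 hN h1 h2 hκ hV hLV).trans ?_
  refine mul_le_mul_of_nonneg_right ?_ (Real.rpow_nonneg (by linarith) _)
  exact mul_le_mul (single_le_sum (f := C) (fun k _ => hC k) (mem_range.2 (by omega)))
    (pow_le_pow_right₀ hκ (by omega)) (by positivity) (sum_nonneg fun k _ => hC k)

end Pool.Agent.Lib.MP_ecd12e_nt.DH
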