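import Pool.Agent.Lib.MP_ecd12e_nt.DH.Pow
import Pool.Agent.Lib.MP_ecd12e_nt.Sch.Frac
import Pool.Agent.Lib.MP_ecd12e_nt.Sch.Swap

/-!
The double zeta sum over a set of integers, by a bootstrap.
-/

set_option autoImplicit false

namespace Pool.Agent.Lib.MP_ecd12e_nt.DH

open Finset Real
open Pool.Agent.Lib.MP_ecd12e_nt.Bar (ei)
open Pool.Agent.Lib.MP_ecd12e_nt.Sch

/-- The fourth moment in terms of double sums of the squared length. -/
theorem boot_four {T P A G : ℝ} (h : Loss T P) (hA : 0 < A) (hAT : A ≤ T ^ 2) {I : Finset ℕ}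
    (hI : InI I A 4) {W : Finset ℤ} (hG : ∀ L, L = A ^ 2 ∨ L = 4 * A ^ 2 → ∀ J, InI J L 4 →
      ∑ n ∈ J, ∑ n' ∈ J, ‖rr W (Real.log n - Real.log n')‖ ^ 2 ≤ G * L) :
    s4 W I ≤ 10 * P ^ 2 * G * A ^ 2 := by
  have hpos : ∀ m ∈ I, 0 < m := fun m hm => by exact_mod_cast hA.trans_le (hI m hm).1
  obtain ⟨K, hK⟩ : ∃ K, K = (I ×ˢ I).image fun p => p.1 * p.2 := ⟨_, rfl⟩
  obtain ⟨r, hr⟩ : ∃ r : ℕ → ℂ, r = fun n => (((I ×ˢ I).filter fun p => p.1 * p.2 = n).card : ℂ) :=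
    ⟨_, rfl⟩
  have hJ : InI K (A ^ 2) 16 := fun n hn => by
    obtain ⟨p, hp, rfl⟩ := mem_image.1 (hK ▸ hn)
    obtain ⟨a1, a2⟩ := hI _ (mem_product.1 hp).1
    obtain ⟨b1, b2⟩ := hI _ (mem_product.1 hp).2
    push_cast
    exact ⟨by linarith [mul_le_mul a1 b1 hA.le (hA.le.trans a1)],
      by linarith [mul_le_mul a2 b2 (hA.le.trans b1) (by positivity)]⟩
  have hA2 : A ^ 2 ≤ T ^ 4 := (pow_le_pow_left₀ hA.le hAT 2).trans_eq (by ring)
  have hrP : ∀ n ∈ K, ‖r n‖ ≤ P := fun n hn => by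
    have h2 := hJ n hn
    have h3 : n ≠ 0 := by exact_mod_cast ((pow_pos hA 2).trans_le h2.1).ne'
    rw [hr, Complex.norm_natCast]
    refine le_trans ?_ (h.tau n h3 (by linarith [h2.2]))
    refine Nat.cast_le.2 (card_le_card_of_injOn (fun p => p.1) (fun p hp => ?_)
      fun p hp q hq e => ?_)
    · exact mem_coe.2 (Nat.mem_divisors.2 ⟨Dvd.intro _ (mem_filter.1 hp).2, h3⟩)
    · refine Prod.ext e (Nat.eq_of_mul_eq_mul_left
        (hpos _ (mem_product.1 (mem_filter.1 hp).1).1) ?_)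
      rw [(mem_filter.1 hp).2, show p.1 = q.1 from e, (mem_filter.1 hq).2]
  have h2 : ∀ t : ℤ, zz I t ^ 2 = ∑ n ∈ K, r n * ei (t * Real.log n) := fun t => by
    simp only [hK, hr, ← nsmul_eq_mul]
    rw [← sum_comp (fun n : ℕ => ei (t * Real.log n)) fun p : ℕ × ℕ => p.1 * p.2, sq, zz,
      sum_mul_sum, sum_product]
    refine sum_congr rfl fun a ha => sum_congr rfl fun b hb => ?_
    rw [Nat.cast_mul, Real.log_mul (Nat.cast_ne_zero.2 (hpos a ha).ne')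
      (Nat.cast_ne_zero.2 (hpos b hb).ne'), mul_add, Bar.ei_add]
  have k1 := (swap_le W (K.filter fun n => (n : ℝ) ≤ 4 * A ^ 2) r (D := P)
    fun n hn => hrP n (mem_filter.1 hn).1).trans (mul_le_mul_of_nonneg_left
      (hG _ (Or.inl rfl) _ fun n hn => ⟨(hJ n (mem_filter.1 hn).1).1, (mem_filter.1 hn).2⟩)
      (sq_nonneg P))
  have k2 := (swap_le W (K.filter fun n => ¬(n : ℝ) ≤ 4 * A ^ 2) r (D := P)
    fun n hn => hrP n (mem_filter.1 hn).1).trans (mul_le_mul_of_nonneg_left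
      (hG _ (Or.inr rfl) _ fun n hn => ⟨(not_le.1 (mem_filter.1 hn).2).le,
        by linarith [(hJ n (mem_filter.1 hn).1).2]⟩) (sq_nonneg P))
  have k3 : s4 W I ≤ ∑ t ∈ W, ∑ t' ∈ W,
      (2 * ‖∑ n ∈ K.filter fun n : ℕ => (n : ℝ) ≤ 4 * A ^ 2,
        r n * ei (((t - t' : ℤ) : ℝ) * Real.log n)‖ ^ 2 +
      2 * ‖∑ n ∈ K.filter fun n : ℕ => ¬(n : ℝ) ≤ 4 * A ^ 2,
        r n * ei (((t - t' : ℤ) : ℝ) * Real.log n)‖ ^ 2) := by
    refine sum_le_sum fun t _ => sum_le_sum fun t' _ => ?_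
    rw [show 4 = 2 * 2 from rfl, pow_mul, ← norm_pow, h2,
      ← sum_filter_add_sum_filter_not K fun n : ℕ => (n : ℝ) ≤ 4 * A ^ 2]
    refine (pow_le_pow_left₀ (norm_nonneg _) (norm_add_le _ _) 2).trans ?_
    rw [← mul_add]
    exact add_sq_le
  simp only [sum_add_distrib, ← mul_sum] at k3
  linarith

/-- One step of the bootstrap. -/
theorem boot_step {T P H Y G : ℝ} (h : Loss T P) (hH : 1 ≤ H) (hY : H ^ 2 ≤ Y ^ 3)
    (hYT : Y ≤ T ^ 2) {W : Finset ℤ} (hW : InR W H) (hG0 : 0 ≤ G)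
    (hG : ∀ L, 0 < L → L ≤ Y → ∀ J, InI J L 4 →
      ∑ n ∈ J, ∑ n' ∈ J, ‖rr W (Real.log n - Real.log n')‖ ^ 2 ≤ G * L)
    {L : ℝ} (hL : 0 < L) (hLY : L ≤ Y) {J : Finset ℕ} (hJ : InI J L 4) :
    ∑ n ∈ J, ∑ n' ∈ J, ‖rr W (Real.log n - Real.log n')‖ ^ 2 ≤
      (336 * P * Y * W.card + 4 * P * W.card * √G) * P * L := by
  have hP := h.one_le
  have hT := h.hT
  have hY0 : 0 < Y := hL.trans_le hLY
  have hB : ∀ n ∈ J, 1 ≤ n ∧ n ≤ ⌊4 * L⌋₊ := fun n hn => by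
    have h3 : (0 : ℝ) < n := hL.trans_le (hJ n hn).1
    exact ⟨by exact_mod_cast h3, Nat.le_floor (hJ n hn).2⟩
  rw [frac_split hB (fun x => ‖rr W x‖ ^ 2)]
  have key : ∀ d ∈ Icc 1 ⌊4 * L⌋₊, ∑ p ∈ cop J d, ‖rr W (lg p)‖ ^ 2 ≤
      (336 * P * Y * W.card + 4 * P * W.card * √G) * (L / d) := by
    intro d hd
    have hd1 := (mem_Icc.1 hd).1
    have hd' : (1 : ℝ) ≤ d := by exact_mod_cast hd1
    have hx : 0 < L / d := by positivity
    have hxY : L / d ≤ Y := (div_le_self hL.le hd').trans hLY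
    rw [add_mul]
    rcases le_total Y (4 * (L / d) ^ 2) with h1 | h1
    · have h2 := cop_sieve h hL (hLY.trans hYT) hJ hd1 hH hW (fun _ => 1)
      simp only [← rr_eq, norm_one, one_pow, sum_const, nsmul_eq_mul, mul_one] at h2
      have h3 : H ≤ 2 * Y * (L / d) := by
        refine le_of_pow_le_pow_left₀ two_ne_zero (by positivity) (hY.trans ?_)
        calc Y ^ 3 = Y ^ 2 * Y := by ring
          _ ≤ Y ^ 2 * (4 * (L / d) ^ 2) := by gcongr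
          _ = _ := by ring
      have h4 : (L / d) ^ 2 ≤ Y * (L / d) := by rw [sq]; gcongr
      have h5 : 112 * P * (H + (L / d) ^ 2) * W.card ≤
          112 * P * (2 * Y * (L / d) + Y * (L / d)) * W.card := by gcongr
      have h6 : 0 ≤ 4 * P * W.card * √G * (L / d) := by positivity
      linarith
    · have h2 := boot_four h hx (hxY.trans hYT) (hJ.dv hd1) (W := W) (G := G) fun L' hL' =>
        hG L' (by rcases hL' with rfl | rfl <;> positivity)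
          (by rcases hL' with rfl | rfl <;> linarith [sq_nonneg (L / d)])
      have h3 := pair_le W (dv J d) fun _ => 1
      simp only [← rr_eq, norm_one, one_pow, sum_const, nsmul_eq_mul, mul_one] at h3
      have h4 : ∑ p ∈ cop J d, ‖rr W (lg p)‖ ^ 2 ≤
          ∑ a ∈ dv J d, ∑ q ∈ dv J d, ‖rr W (Real.log a - Real.log q)‖ ^ 2 := by
        rw [← sum_product']
        exact sum_le_sum_of_subset_of_nonneg (filter_subset _ _) fun _ _ _ => sq_nonneg _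
      have h5 : √(s4 W (dv J d)) ≤ 4 * P * √G * (L / d) := by
        refine Real.sqrt_le_iff.2 ⟨by positivity, h2.trans ?_⟩
        rw [mul_pow, mul_pow, mul_pow, Real.sq_sqrt hG0]
        gcongr
        norm_num
      have h6 := mul_le_mul_of_nonneg_left h5 (Nat.cast_nonneg (α := ℝ) W.card)
      have h7 : 0 ≤ 336 * P * Y * W.card * (L / d) := by positivity
      linarith
  refine (sum_le_sum key).trans ?_
  rw [← mul_sum, mul_assoc _ P L]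
  refine mul_le_mul_of_nonneg_left (sum_div_le h hL.le ?_) (by positivity)
  have h4 : T ^ 2 ≤ T ^ 4 := pow_le_pow_right₀ hT (by norm_num)
  have := Nat.floor_le (show 0 ≤ 4 * L by positivity)
  nlinarith [sq_nonneg T]

/-- The double zeta sum: for `W` in `[0, H]` and lengths `L ≤ Y` with `H ^ 2 ≤ Y ^ 3`. -/
theorem dsum_boot {T P H Y L : ℝ} (h : Loss T P) (hH : 1 ≤ H) (hY : H ^ 2 ≤ Y ^ 3)
    (hYT : Y ≤ T ^ 2) (hL : 0 < L) (hLY : L ≤ Y) {J : Finset ℕ} (hJ : InI J L 4) {W : Finset ℤ}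
    (hW : InR W H) :
    ∑ n ∈ J, ∑ n' ∈ J, ‖rr W (Real.log n - Real.log n')‖ ^ 2 ≤
      672 * P ^ 4 * L * ((W.card : ℝ) ^ 2 + W.card * Y) := by
  have hP := h.one_le
  have hY0 : 0 < Y := hL.trans_le hLY
  obtain ⟨S, hS⟩ : ∃ S : Set ℝ, ∀ G, G ∈ S ↔ 0 ≤ G ∧ ∀ L, 0 < L → L ≤ Y → ∀ J, InI J L 4 →
      ∑ n ∈ J, ∑ n' ∈ J, ‖rr W (Real.log n - Real.log n')‖ ^ 2 ≤ G * L := ⟨_, fun _ => Iff.rfl⟩
  have hne : S.Nonempty := ⟨16 * Y * (W.card : ℝ) ^ 2, (hS _).2 ⟨by positivity,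
    fun L hL hLY J hJ => by
    have h1 := hJ.card_le hL (by norm_num)
    calc _ ≤ ∑ _n ∈ J, ∑ _n' ∈ J, (W.card : ℝ) ^ 2 := sum_le_sum fun _ _ => sum_le_sum fun _ _ =>
          pow_le_pow_left₀ (norm_nonneg _) (norm_rr_le _ _) 2
      _ = J.card * (J.card * (W.card : ℝ) ^ 2) := by simp only [sum_const, nsmul_eq_mul]
      _ ≤ 4 * Y * (4 * L * (W.card : ℝ) ^ 2) := by gcongr; linarith
      _ = _ := by ring⟩⟩
  have h0 : 0 ≤ sInf S := le_csInf hne fun G hG => ((hS G).1 hG).1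
  have h1 : ∀ L, 0 < L → L ≤ Y → ∀ J, InI J L 4 →
      ∑ n ∈ J, ∑ n' ∈ J, ‖rr W (Real.log n - Real.log n')‖ ^ 2 ≤ sInf S * L :=
    fun L hL hLY J hJ => (div_le_iff₀ hL).1 (le_csInf hne fun G hG =>
      (div_le_iff₀ hL).2 (((hS G).1 hG).2 L hL hLY J hJ))
  have h2 : sInf S ≤ (336 * P * Y * W.card + 4 * P * W.card * √(sInf S)) * P :=
    csInf_le ⟨0, fun G hG => ((hS G).1 hG).1⟩ ((hS _).2 ⟨by positivity, fun L hL hLY J hJ =>
      boot_step h hH hY hYT hW h0 h1 hL hLY hJ⟩)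
  have h3 := Real.sq_sqrt h0
  have h4 : sInf S ≤ 672 * P ^ 2 * (W.card * Y) + 16 * P ^ 4 * (W.card : ℝ) ^ 2 := by
    nlinarith [sq_nonneg (√(sInf S) - 4 * P ^ 2 * W.card)]
  have h5 : P ^ 2 * (W.card * Y) ≤ P ^ 4 * (W.card * Y) :=
    mul_le_mul_of_nonneg_right (pow_le_pow_right₀ hP (by norm_num)) (by positivity)
  have h6 : 0 ≤ P ^ 4 * (W.card : ℝ) ^ 2 := by positivity
  refine (h1 L hL hLY J hJ).trans ?_
  rw [mul_right_comm]
  exact mul_le_mul_of_nonneg_right (by linarith) hL.le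

/-- The same bound for the sum over differences, with bounded coefficients. -/
theorem dsum_boot' {T P H Y L D : ℝ} (h : Loss T P) (hH : 1 ≤ H) (hY : H ^ 2 ≤ Y ^ 3)
    (hYT : Y ≤ T ^ 2) (hL : 0 < L) (hLY : L ≤ Y) {J : Finset ℕ} (hJ : InI J L 4) {W : Finset ℤ}
    (hW : InR W H) (a : ℕ → ℂ) (ha : ∀ n ∈ J, ‖a n‖ ≤ D) :
    ∑ t ∈ W, ∑ t' ∈ W, ‖∑ n ∈ J, a n * ei (((t - t' : ℤ) : ℝ) * Real.log n)‖ ^ 2 ≤
      672 * P ^ 4 * D ^ 2 * L * ((W.card : ℝ) ^ 2 + W.card * Y) :=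
  (swap_le W J a ha).trans ((mul_le_mul_of_nonneg_left (dsum_boot h hH hY hYT hL hLY hJ hW)
    (sq_nonneg D)).trans_eq (by ring))

theorem boot {T P H Y L : ℝ} (h : Loss T P) (hH : 1 ≤ H) (hHY : H ^ 2 ≤ Y ^ 3) (hY : 0 ≤ Y)
    (hYT : Y ≤ T) {D : Finset ℤ} (hD : InR D H) (hL : 0 < L) (hLY : L ≤ Y) {J : Finset ℕ}
    (hJ : InI J L 2) :
    ds D J ≤ 1000 * P ^ 6 * L * ((D.card : ℝ) ^ 2 + D.card * Y) := by
  have hT := h.hT
  have hP := h.one_le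
  refine (dsum_boot h hH hHY (by nlinarith) hL hLY (hJ.mono hL.le (by norm_num)) hD).trans ?_
  have h1 : P ^ 4 ≤ P ^ 6 := pow_le_pow_right₀ hP (by norm_num)
  gcongr
  norm_num

end Pool.Agent.Lib.MP_ecd12e_nt.DH
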