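import Pool.Agent.Lib.MP_ecd12e_nt.DH.Proj

/-!
The upper bound for the number of pairs.
-/

set_option autoImplicit false

namespace Pool.Agent.Lib.MP_ecd12e_nt.DH

open Finset Real MeasureTheory
open Pool.Agent.Lib.MP_ecd12e_nt.Bar (ei)
open Pool.Agent.Lib.MP_ecd12e_nt.Sch

lemma pairs_val {N : ℕ} (hN : 1 ≤ N) (b : ℕ → ℂ) (t l : ℤ) :
    ‖∑ n ∈ Icc N (2 * N), ei (l * Real.log (n / N)) * (b n * ei (t * Real.log n))‖ =
      ‖∑ n ∈ Icc N (2 * N), b n * ei (((t + l : ℤ) : ℝ) * Real.log n)‖ := by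
  rw [← gram_shift (Icc N (2 * N)) b (fun n => ((t + l : ℤ) : ℝ) * Real.log n) (l * Real.log N)]
  congr 1
  refine sum_congr rfl fun n hn => ?_
  have h1 : (0 : ℝ) < N := by exact_mod_cast hN
  have h2 : (0 : ℝ) < n := by exact_mod_cast hN.trans (mem_Icc.1 hn).1
  rw [Real.log_div h2.ne' h1.ne', mul_left_comm, ← Bar.ei_add]
  congr 2
  push_cast
  ring

lemma pairs_low_sum {N : ℕ} (hN : 1 ≤ N) {T V : ℝ} {b : ℕ → ℂ} {W : Finset ℤ} (hV : 0 ≤ V)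
    (h : LV N T V b W) (D : Finset ℤ) :
    V ^ 2 * prs W D ≤ ∑ t ∈ W, ∑ l ∈ D,
      ‖∑ n ∈ Icc N (2 * N), ei (l * Real.log (n / N)) * (b n * ei (t * Real.log n))‖ ^ 2 := by
  rw [← sum_product', prs, mul_comm, ← nsmul_eq_mul, ← sum_const]
  refine le_trans (sum_le_sum fun p hp => ?_)
    (sum_le_sum_of_subset_of_nonneg (filter_subset _ _) fun _ _ _ => by positivity)
  rw [pairs_val hN]
  exact pow_le_pow_left₀ hV (h.big _ (mem_filter.1 hp).2) 2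

lemma pairs_tr {N : ℕ} (hN : 1 ≤ N) {b : ℕ → ℂ} (hb : ∀ n, ‖b n‖ ≤ 1) (W : Finset ℤ) :
    ∑ t ∈ W, ∑ n ∈ Icc N (2 * N), ‖b n * ei (t * Real.log n)‖ ^ 2 ≤ (2 * N * W.card : ℝ) := by
  have h1 : ∀ t ∈ W, ∑ n ∈ Icc N (2 * N), ‖b n * ei (t * Real.log n)‖ ^ 2 ≤ (2 * N : ℝ) := by
    intro t _
    refine (sum_le_card_nsmul _ _ 1 fun n _ => ?_).trans ?_
    · rw [norm_mul, Bar.norm_ei, mul_one]
      exact pow_le_one₀ (norm_nonneg _) (hb n)
    · rw [Nat.card_Icc, nsmul_eq_mul, mul_one]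
      exact_mod_cast (by omega : 2 * N + 1 - N ≤ 2 * N)
  refine (sum_le_card_nsmul _ _ _ h1).trans (le_of_eq ?_)
  rw [nsmul_eq_mul, mul_comm]

lemma pairs_hs {b : ℕ → ℂ} (hb : ∀ n, ‖b n‖ ≤ 1) (W : Finset ℤ) (J : Finset ℕ) :
    ∑ n ∈ J, ∑ n' ∈ J, ‖∑ t ∈ W, b n * ei (t * Real.log n) *
      (starRingEnd ℂ) (b n' * ei (t * Real.log n'))‖ ^ 2 ≤ ds W J := by
  refine sum_le_sum fun n _ => sum_le_sum fun n' _ => ?_
  have e : ∑ t ∈ W, b n * ei (t * Real.log n) * (starRingEnd ℂ) (b n' * ei (t * Real.log n')) =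
      b n * (starRingEnd ℂ) (b n') * rr W (Real.log n - Real.log n') := by
    rw [rr, mul_sum]
    refine sum_congr rfl fun t _ => ?_
    rw [map_mul, Bar.conj_ei, mul_sub, sub_eq_add_neg, Bar.ei_add]
    ring
  rw [e, norm_mul, norm_mul, Complex.norm_conj]
  refine pow_le_pow_left₀ (by positivity) ?_ 2
  exact mul_le_of_le_one_left (norm_nonneg _) (mul_le_one₀ (hb n) (norm_nonneg _) (hb n'))

theorem pairs_up {w : ℝ → ℝ} (hw : Wt w) :
    ∃ C : ℝ, 0 ≤ C ∧ ∀ (N M : ℕ) (T T0 V e0 : ℝ) (b : ℕ → ℂ) (W D : Finset ℤ), 1 ≤ N → 0 ≤ e0 →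
      0 ≤ V → LV N T V b W → InR D T0 →
      (∀ t : ℤ, |(t : ℝ)| ≤ T0 → ‖gg w N t - N * ff w t 0 - kr w N M t‖ ≤ e0) →
      V ^ 2 * prs W D ≤
        (C * N + D.card * e0) *
          min (2 * N * W.card : ℝ) (√(D.card : ℝ) * √(ds W (Icc N (2 * N)))) +
        √(ds W (Icc N (2 * N))) * √(∑ t ∈ D, ∑ s ∈ D, ‖kr w N M (t - s)‖ ^ 2) := by
  obtain ⟨C, hC, hk⟩ := gram_key hw
  refine ⟨C, hC, fun N M T T0 V e0 b W D hN he hV h hD hap => ?_⟩
  have hN' : (0 : ℝ) < N := by exact_mod_cast hN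
  have hA : 0 ≤ C * N + D.card * e0 := by positivity
  have h1 := proj D (Icc N (2 * N)) W (fun l n => ei (l * Real.log (n / N)))
    (fun t n => b n * ei (t * Real.log n)) (fun l l' => kr w N M (l - l')) hA fun y => by
      refine le_trans ?_ (hk N M T0 e0 D hD hap y)
      refine le_trans (le_of_eq (sum_congr rfl fun n hn => ?_))
        (sum_le_sum_of_subset_of_nonneg (s := Icc N (2 * N)) (fun n hn => ?_)
          fun n _ _ => mul_nonneg (hw.nonneg _) (sq_nonneg _))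
      · have h2 : (N : ℝ) ≤ n := by exact_mod_cast (mem_Icc.1 hn).1
        have h3 : (n : ℝ) ≤ 2 * N := by exact_mod_cast (mem_Icc.1 hn).2
        rw [hw.one _ ((one_le_div hN').2 h2) ((div_le_iff₀ hN').2 h3), one_mul]
        simp only [Bar.conj_ei]
      · rw [mem_range]
        have := (mem_Icc.1 hn).2
        omega
  refine ((pairs_low_sum hN hV h D).trans h1).trans ?_
  have h2 := pairs_tr hN h.hb W
  have h3 := pairs_hs h.hb W (Icc N (2 * N))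
  gcongr

end Pool.Agent.Lib.MP_ecd12e_nt.DH
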