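import Pool.Agent.Lib.MP_ecd12e_nt.DH.Defs

/-!
The lower bound for the number of pairs, by the method of Halasz in windows.
-/

set_option autoImplicit false

namespace Pool.Agent.Lib.MP_ecd12e_nt.DH

open Finset Real MeasureTheory
open Pool.Agent.Lib.MP_ecd12e_nt.Bar (ei)
open Pool.Agent.Lib.MP_ecd12e_nt.Sch

lemma win_min (x : ℝ) {l : ℝ} (hl : 0 < l) (L : ℕ) :
    min x (2 ^ L * l) ≤ l + ∑ j ∈ range L, if 2 ^ j * l ≤ x then 2 ^ j * l else 0 := by
  induction L with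
  | zero => simp
  | succ L ih =>
    have h0 : 0 < 2 ^ L * l := by positivity
    rw [sum_range_succ, pow_succ]
    split_ifs with h
    · rw [min_eq_right h] at ih
      linarith [min_le_right x (2 ^ L * 2 * l)]
    · rw [min_eq_left (not_le.1 h).le] at ih
      linarith [min_le_left x (2 ^ L * 2 * l)]

/-- One dyadic level carries a fixed share of the sum. -/
lemma win_level {ι : Type} (A : Finset ι) (hA : A.Nonempty) (f : ι → ℝ) {l : ℝ} (hl : 0 < l)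
    (L : ℕ) (hf : ∀ p ∈ A, f p ≤ 2 ^ L * l) (h : 2 * l * A.card ≤ ∑ p ∈ A, f p) :
    ∃ j : ℕ, l * A.card ≤ L * (2 ^ j * l * (A.filter fun p => 2 ^ j * l ≤ f p).card) := by
  have h1 : ∑ p ∈ A, f p ≤ l * A.card +
      ∑ j ∈ range L, 2 ^ j * l * (A.filter fun p => 2 ^ j * l ≤ f p).card := by
    refine (sum_le_sum fun p hp => (min_eq_left (hf p hp)).ge.trans (win_min (f p) hl L)).trans
      (le_of_eq ?_)
    rw [sum_add_distrib, sum_const, nsmul_eq_mul, mul_comm, sum_comm]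
    refine congrArg _ (sum_congr rfl fun j _ => ?_)
    rw [← sum_filter, sum_const, nsmul_eq_mul, mul_comm]
  have h2 : (0 : ℝ) < A.card := by exact_mod_cast hA.card_pos
  rcases (range L).eq_empty_or_nonempty with e | e
  · rw [e, sum_empty] at h1
    nlinarith [mul_pos hl h2]
  obtain ⟨j, -, hj⟩ := exists_max_image (range L)
    (fun j => 2 ^ j * l * ((A.filter fun p => 2 ^ j * l ≤ f p).card : ℝ)) e
  have h3 := sum_le_card_nsmul _ _ _ hj
  rw [card_range, nsmul_eq_mul] at h3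
  exact ⟨j, by linarith⟩

lemma win_norm (w : ℝ → ℝ) (N M : ℕ) (t : ℤ) : ‖kr w N M (-t)‖ = ‖kr w N M t‖ := by
  rw [kr_neg, Complex.norm_conj]

/-- The lower bound in one window. -/
lemma win_one {w : ℝ → ℝ} (hw : Wt w) :
    ∃ C : ℝ, 0 ≤ C ∧ ∀ (N M : ℕ) (T T0 V e0 : ℝ) (b : ℕ → ℂ) (W : Finset ℤ) (a H : ℤ), 1 ≤ N →
      0 ≤ V → 0 ≤ e0 → (T0 + 1) * e0 ≤ N → LV N T V b W → 0 ≤ H → (H : ℝ) ≤ T0 →
      (∀ t ∈ W, a ≤ t ∧ t < a + H) →
      (∀ t : ℤ, |(t : ℝ)| ≤ T0 → ‖gg w N t - N * ff w t 0 - kr w N M t‖ ≤ e0) →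
      V ^ 2 / (2 * N) * (W.card : ℝ) ^ 2 - C * N * W.card ≤
        ∑ s ∈ W, ∑ s' ∈ W, ‖kr w N M (s - s')‖ := by
  obtain ⟨C, hC, h⟩ := gram_low hw
  refine ⟨C + 1, by positivity, fun N M T T0 V e0 b W a H hN hV he0 he hL hH hH' hW hk => ?_⟩
  have hi : Function.Injective fun t : ℤ => t - a := fun x y e => by simpa using e
  obtain ⟨η, h1, h2⟩ := h N M T0 V e0 (fun n => b n * ei (a * Real.log n))
    (W.image fun t => t - a) hN he0 hV ⟨fun n => by
      rw [norm_mul, Bar.norm_ei, mul_one]; exact hL.hb n, fun t ht => by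
      obtain ⟨s, hs, rfl⟩ := mem_image.1 ht
      have h3 := hW s hs
      exact ⟨by omega, le_trans (by exact_mod_cast (show s - a ≤ H by omega)) hH'⟩, fun t ht => by
      obtain ⟨s, hs, rfl⟩ := mem_image.1 ht
      refine (hL.big s hs).trans (le_of_eq (congrArg _ (sum_congr rfl fun n _ => ?_)))
      rw [mul_assoc, ← Bar.ei_add]
      push_cast
      ring_nf⟩ hk
  rw [card_image_of_injective _ hi] at h2
  have h3 : (W.card : ℝ) ≤ T0 + 1 := by
    have h4 := card_le_card (show W ⊆ Ico a (a + H) from fun t ht => mem_Ico.2 (hW t ht))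
    rw [Int.card_Ico, add_sub_cancel_left] at h4
    have h5 : ((W.card : ℤ) : ℝ) ≤ (H : ℝ) := by exact_mod_cast (show (W.card : ℤ) ≤ H by omega)
    push_cast at h5
    linarith
  have h4 : W.card * e0 ≤ N := (mul_le_mul_of_nonneg_right h3 he0).trans he
  have h5 : (∑ s ∈ W.image fun t => t - a, ∑ s' ∈ W.image fun t => t - a,
      (starRingEnd ℂ) (η s) * kr w N M (s - s') * η s').re ≤
        ∑ s ∈ W, ∑ s' ∈ W, ‖kr w N M (s - s')‖ := by
    refine (Complex.re_le_norm _).trans ?_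
    rw [sum_image hi.injOn]
    refine norm_sum_le_of_le _ fun s _ => ?_
    rw [sum_image hi.injOn]
    refine norm_sum_le_of_le _ fun s' _ => le_of_eq ?_
    rw [norm_mul, norm_mul, Complex.norm_conj, h1, h1, one_mul, mul_one, sub_sub_sub_cancel_right]
  have h6 : (0 : ℝ) ≤ W.card := Nat.cast_nonneg _
  have h7 : V ^ 2 / (2 * N) * (W.card : ℝ) ^ 2 = W.card * V ^ 2 / (2 * N) * W.card := by ring
  nlinarith [mul_le_mul_of_nonneg_right h4 h6]

/-- The pairs of points in the same window. -/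
def winA (W : Finset ℤ) (H : ℤ) : Finset (ℤ × ℤ) := (W ×ˢ W).filter fun p => p.1 / H = p.2 / H

lemma win_sum (W : Finset ℤ) (H : ℤ) {I : Finset ℤ} (hI : ∀ t ∈ W, t / H ∈ I) (f : ℤ → ℤ → ℝ) :
    ∑ p ∈ winA W H, f p.1 p.2 = ∑ i ∈ I, ∑ s ∈ W.filter fun t => t / H = i,
      ∑ s' ∈ W.filter fun t => t / H = i, f s s' := by
  rw [winA, sum_filter, sum_product, ← sum_fiberwise_of_maps_to hI]
  refine sum_congr rfl fun i _ => sum_congr rfl fun s hs => ?_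
  rw [sum_filter]
  simp only [(mem_filter.1 hs).2, eq_comm]

lemma win_mem {H t i : ℤ} (hH : 0 < H) (h : t / H = i) : H * i ≤ t ∧ t < H * i + H := by
  have h1 := Int.mul_ediv_add_emod t H
  have h2 := Int.emod_nonneg t hH.ne'
  have h3 := Int.emod_lt_of_pos t hH
  rw [h] at h1
  omega

lemma win_prs (W : Finset ℤ) {H : ℤ} (hH : 0 < H) (k : ℤ → ℝ) (hk : ∀ t, k (-t) = k t) (lam : ℝ) :
    ((winA W H).filter fun p => lam ≤ k (p.1 - p.2)).card ≤
      2 * prs W ((Icc 0 H).filter fun l => lam ≤ k l) := by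
  obtain ⟨B, hB⟩ : ∃ B, B = (W ×ˢ (Icc 0 H).filter fun l => lam ≤ k l).filter
    fun p => p.1 + p.2 ∈ W := ⟨_, rfl⟩
  rw [prs, ← hB, two_mul]
  refine (card_le_card (t := B.image (fun p => (p.1 + p.2, p.1)) ∪
    B.image fun p => (p.1, p.1 + p.2)) ?_).trans
      ((card_union_le _ _).trans (add_le_add card_image_le card_image_le))
  rintro ⟨s, s'⟩ hp
  simp only [winA, mem_filter, mem_product] at hp
  obtain ⟨⟨⟨h1, h2⟩, h3⟩, h4⟩ := hp
  have h5 := win_mem hH h3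
  have h6 := win_mem hH (rfl : s' / H = s' / H)
  rcases le_total s' s with h | h
  · refine mem_union_left _ (mem_image.2 ⟨(s', s - s'), ?_, by simp⟩)
    simp only [hB, mem_filter, mem_product, mem_Icc, add_sub_cancel]
    exact ⟨⟨h2, ⟨by omega, by omega⟩, h4⟩, h1⟩
  · refine mem_union_right _ (mem_image.2 ⟨(s, s' - s), ?_, by simp⟩)
    simp only [hB, mem_filter, mem_product, mem_Icc, add_sub_cancel]
    exact ⟨⟨h1, ⟨by omega, by omega⟩, by rwa [← hk, neg_sub]⟩, h2⟩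

lemma win_pow {T1 P : ℝ} (h : Loss T1 P) : 8 * T1 ^ 3 ≤ 2 ^ ⌊2 * P⌋₊ := by
  have h1 := h.hT
  have h2 := h.lg
  have h3 : (1 : ℝ) ≤ T1 ^ 3 := one_le_pow₀ h1
  have h4 : 8 * T1 ^ 3 ≤ 100 * T1 ^ 4 := by nlinarith
  have h5 := Nat.lt_floor_add_one (2 * P)
  have h6 := Real.log_nonneg (show 1 ≤ 100 * T1 ^ 4 by linarith)
  have h7 := Real.log_two_gt_d9
  refine h4.trans ((Real.log_le_log_iff (by positivity) (by positivity)).1 ?_)
  rw [Real.log_pow]
  nlinarith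

theorem pairs_low {w : ℝ → ℝ} (hw : Wt w) :
    ∃ C : ℝ, 0 ≤ C ∧ ∀ (N M : ℕ) (T T0 T1 P V e0 : ℝ) (b : ℕ → ℂ) (W : Finset ℤ), 1 ≤ N →
      (N : ℝ) ≤ T1 → 1 ≤ T0 → T0 ≤ T → Loss T1 P → 1 ≤ V → 0 ≤ e0 → (T0 + 1) * e0 ≤ N →
      LV N T V b W →
      (∀ t : ℤ, |(t : ℝ)| ≤ T0 → ‖gg w N t - N * ff w t 0 - kr w N M t‖ ≤ e0) →
      (∀ t : ℤ, ‖kr w N M t‖ ≤ T1 ^ 2) →
      W.card * V ^ 2 ≤ C * (T / T0) * (N : ℝ) ^ 2 ∨
      ∃ (lam : ℝ) (D : Finset ℤ), V ^ 2 ≤ 8 * N * lam ∧ InR D T0 ∧ D.Nonempty ∧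
        (∀ l ∈ D, lam ≤ ‖kr w N M l‖) ∧
        V ^ 2 * (W.card : ℝ) ^ 2 ≤ C * P * (T / T0) * N * lam * prs W D := by
  obtain ⟨C, hC, h⟩ := win_one hw
  refine ⟨12 * C + 96, by positivity,
    fun N M T T0 T1 P V e0 b W hN hN1 hT0 hT hP hV he0 he hL hk hk' => ?_⟩
  have hN0 : (0 : ℝ) < N := by exact_mod_cast hN
  have hJ : 1 ≤ T / T0 := (one_le_div (by linarith)).2 hT
  rcases W.eq_empty_or_nonempty with rfl | hW
  · left
    rw [card_empty, Nat.cast_zero, zero_mul]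
    positivity
  obtain ⟨H, hH⟩ : ∃ H : ℤ, H = ⌊T0⌋ := ⟨_, rfl⟩
  have hH1 : (H : ℝ) ≤ T0 := hH ▸ Int.floor_le T0
  have hH2 : T0 < H + 1 := hH ▸ Int.lt_floor_add_one T0
  have hH0 : 0 < H := hH ▸ Int.floor_pos.2 hT0
  have hH3 : (1 : ℝ) ≤ H := by exact_mod_cast hH0
  obtain ⟨I, hI⟩ : ∃ I : Finset ℤ, I = Icc 0 ⌊T / H⌋ := ⟨_, rfl⟩
  have hI1 : ∀ t ∈ W, t / H ∈ I := fun t ht => by
    rw [hI, mem_Icc, Int.le_floor, le_div_iff₀ (by linarith)]
    refine ⟨Int.ediv_nonneg (hL.inr t ht).1 hH0.le, le_trans ?_ (hL.inr t ht).2⟩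
    exact_mod_cast Int.ediv_mul_le t hH0.ne'
  have hI2 : (I.card : ℝ) ≤ 3 * (T / T0) := by
    have h1 : 0 ≤ T / H := div_nonneg (by linarith) (by linarith)
    have h2 : ((I.card : ℤ) : ℝ) = (⌊T / H⌋ + 1 : ℤ) := by
      rw [hI, Int.card_Icc, sub_zero, Int.toNat_of_nonneg (by linarith [Int.floor_nonneg.2 h1])]
    have h3 := Int.floor_le (T / H)
    have h4 : T / H ≤ 2 * (T / T0) := by
      rw [← mul_div_assoc, div_le_div_iff₀ (by linarith) (by linarith)]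
      nlinarith
    push_cast at h2
    linarith
  obtain ⟨A, hA⟩ : ∃ A, A = winA W H := ⟨_, rfl⟩
  have hA1 : (A.card : ℝ) = ∑ i ∈ I, ((W.filter fun t => t / H = i).card : ℝ) ^ 2 := by
    simpa [hA, sq] using win_sum W H hI1 fun _ _ => 1
  have hR : (W.card : ℝ) = ∑ i ∈ I, ((W.filter fun t => t / H = i).card : ℝ) := by
    rw [card_eq_sum_card_fiberwise hI1, Nat.cast_sum]
  have hA0 : (0 : ℝ) ≤ A.card := Nat.cast_nonneg _
  have hA2 : (W.card : ℝ) ^ 2 ≤ 3 * (T / T0) * A.card := by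
    refine le_trans ?_ (mul_le_mul_of_nonneg_right hI2 hA0)
    rw [hR, hA1]
    exact sq_sum_le_card_mul_sum_sq
  have hA3 : V ^ 2 / (2 * N) * A.card - C * N * W.card ≤ ∑ p ∈ A, ‖kr w N M (p.1 - p.2)‖ := by
    rw [hA1, hR, hA, win_sum W H hI1 fun s s' => ‖kr w N M (s - s')‖, mul_sum, mul_sum,
      ← sum_sub_distrib]
    refine sum_le_sum fun i _ => h N M T T0 V e0 b _ (H * i) H hN (by linarith) he0 he
      ⟨hL.hb, fun t ht => hL.inr t (mem_filter.1 ht).1, fun t ht => hL.big t (mem_filter.1 ht).1⟩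
      hH0.le hH1 (fun t ht => win_mem hH0 (mem_filter.1 ht).2) hk
  have hR0 : (0 : ℝ) < W.card := by exact_mod_cast hW.card_pos
  obtain ⟨l, hl⟩ : ∃ l : ℝ, l = V ^ 2 / (8 * N) := ⟨_, rfl⟩
  have hl1 : V ^ 2 = 8 * N * l := by rw [hl]; field_simp
  have hl0 : 0 < l := by rw [hl]; positivity
  have hl2 : V ^ 2 / (2 * N) = 4 * l := by rw [hl]; ring
  rw [hl2] at hA3
  have hA4 : V ^ 2 * (W.card : ℝ) ^ 2 ≤ 24 * (T / T0) * N * (l * A.card) :=
    (mul_le_mul_of_nonneg_left hA2 (sq_nonneg V)).trans (le_of_eq (by rw [hl1]; ring))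
  rcases le_total (2 * l * A.card) (C * N * W.card) with h1 | h1
  · left
    refine le_of_mul_le_mul_right ?_ hR0
    have h2 := mul_le_mul_of_nonneg_left h1
      (show 0 ≤ 12 * (T / T0) * N from mul_nonneg (by linarith) hN0.le)
    have h3 : 0 ≤ T / T0 * (N : ℝ) ^ 2 * W.card :=
      mul_nonneg (mul_nonneg (by linarith) (sq_nonneg _)) hR0.le
    linarith
  right
  have hA5 : A.Nonempty := by
    obtain ⟨t, ht⟩ := hW
    exact ⟨(t, t), by simp [hA, winA, ht]⟩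
  have hP1 := hP.one_le
  obtain ⟨j, hj⟩ := win_level A hA5 (fun p => ‖kr w N M (p.1 - p.2)‖) hl0 ⌊2 * P⌋₊
    (fun p _ => (hk' _).trans <| by
      have h2 : 1 ≤ 8 * T1 * l := by
        linarith [one_le_pow₀ (n := 2) hV, mul_le_mul_of_nonneg_right hN1 hl0.le]
      have h3 := mul_le_mul_of_nonneg_right (win_pow hP) hl0.le
      nlinarith [mul_le_mul_of_nonneg_left h2 (sq_nonneg T1)]) (by linarith)
  obtain ⟨lam, hlam⟩ : ∃ lam : ℝ, lam = 2 ^ j * l := ⟨_, rfl⟩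
  rw [← hlam] at hj
  have h2 : l ≤ lam := hlam ▸ le_mul_of_one_le_left hl0.le (one_le_pow₀ one_le_two)
  have h3 := win_prs W hH0 (fun t => ‖kr w N M t‖) (win_norm w N M) lam
  rw [← hA] at h3
  obtain ⟨D, hD⟩ : ∃ D, D = (Icc 0 H).filter fun l => lam ≤ ‖kr w N M l‖ := ⟨_, rfl⟩
  rw [← hD] at h3
  have h4 : l * A.card ≤ 2 * P * (lam * (2 * prs W D)) :=
    hj.trans (mul_le_mul (Nat.floor_le (by linarith))
      (mul_le_mul_of_nonneg_left (by exact_mod_cast h3) (by linarith))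
      (mul_nonneg (by linarith) (Nat.cast_nonneg _)) (by linarith))
  have hD1 : ∀ t ∈ D, t ∈ Icc 0 H ∧ lam ≤ ‖kr w N M t‖ := fun t ht => by
    rwa [hD, mem_filter] at ht
  refine ⟨lam, D, by linarith [mul_le_mul_of_nonneg_left h2 hN0.le], fun t ht => ?_, ?_,
    fun t ht => (hD1 t ht).2, ?_⟩
  · have h5 := mem_Icc.1 (hD1 t ht).1
    exact ⟨h5.1, le_trans (by exact_mod_cast h5.2) hH1⟩
  · by_contra h5
    have h6 : (0 : ℝ) < A.card := by exact_mod_cast hA5.card_pos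
    rw [not_nonempty_iff_eq_empty.1 h5] at h4
    simp only [prs, product_empty, filter_empty, card_empty, Nat.cast_zero, mul_zero] at h4
    nlinarith [mul_pos hl0 h6]
  · have h5 := mul_le_mul_of_nonneg_left h4 (show 0 ≤ 24 * (T / T0) * N by positivity)
    have h6 : 0 ≤ C * P * (T / T0) * N * lam * prs W D := by
      have : 0 ≤ lam := by linarith
      positivity
    nlinarith

end Pool.Agent.Lib.MP_ecd12e_nt.DH
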