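import Pool.Agent.Lib.MP_ecd12e_nt.DH.Kr
import Pool.Agent.Lib.MP_ecd12e_nt.DH.Pairs
import Pool.Agent.Lib.MP_ecd12e_nt.DH.Win
import Pool.Agent.Lib.MP_ecd12e_nt.DH.Alg

/-!
The core estimate.
-/

set_option autoImplicit false

namespace Pool.Agent.Lib.MP_ecd12e_nt.DH

open Finset Real MeasureTheory
open Pool.Agent.Lib.MP_ecd12e_nt.Bar (ei)
open Pool.Agent.Lib.MP_ecd12e_nt.Sch

lemma core_h4 {U N R Δ y A ds hs : ℝ} (hU : 100 ≤ U) (hN : 0 ≤ N) (hR : 0 ≤ R) (hA : A ≤ U * N)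
    (hds : ds ≤ U ^ 14 * (N ^ 2 * R)) (hhs : hs ≤ U ^ 20 * (N * (Δ ^ 2 + Δ * y))) :
    A * min (2 * N * R) (√Δ * √ds) + √ds * √hs ≤
      U ^ 17 * (N * min (N * R) (√Δ * (N * √R)) + N * √R * √(N * (Δ ^ 2 + Δ * y))) := by
  have hU0 : 0 ≤ U := by linarith
  have hU1 : 1 ≤ U := by linarith
  have k1 : √ds ≤ U ^ 7 * (N * √R) := by
    rw [Real.sqrt_le_iff]
    refine ⟨by positivity, hds.trans_eq ?_⟩
    rw [mul_pow, mul_pow, Real.sq_sqrt hR]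
    ring
  have k2 : √hs ≤ U ^ 10 * √(N * (Δ ^ 2 + Δ * y)) := by
    refine (Real.sqrt_le_sqrt hhs).trans_eq ?_
    rw [Real.sqrt_mul (by positivity), show U ^ 20 = (U ^ 10) ^ 2 by ring,
      Real.sqrt_sq (by positivity)]
  have h7 : (2 : ℝ) ≤ U ^ 7 := le_trans (by linarith) (le_self_pow₀ hU1 (by norm_num))
  have k3 : min (2 * N * R) (√Δ * √ds) ≤ U ^ 7 * min (N * R) (√Δ * (N * √R)) := by
    rw [mul_min_of_nonneg _ _ (by positivity)]
    refine min_le_min ?_ ?_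
    · rw [mul_assoc]
      exact mul_le_mul_of_nonneg_right h7 (by positivity)
    · exact (mul_le_mul_of_nonneg_left k1 (Real.sqrt_nonneg _)).trans_eq (by ring)
  have m0 : 0 ≤ min (2 * N * R) (√Δ * √ds) := le_min (by positivity) (by positivity)
  have m1 : 0 ≤ min (N * R) (√Δ * (N * √R)) := le_min (by positivity) (by positivity)
  have k4 := mul_le_mul hA k3 m0 (by positivity)
  have k5 := mul_le_mul k1 k2 (Real.sqrt_nonneg _) (by positivity)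
  have h8 : U ^ 8 ≤ U ^ 17 := pow_le_pow_right₀ hU1 (by norm_num)
  have k6 := mul_le_mul_of_nonneg_right h8 (mul_nonneg hN m1)
  generalize min (N * R) (√Δ * (N * √R)) = m at *
  generalize √(N * (Δ ^ 2 + Δ * y)) = z at *
  calc _ ≤ U * N * (U ^ 7 * m) + U ^ 7 * (N * √R) * (U ^ 10 * z) := add_le_add k4 k5
    _ = U ^ 8 * (N * m) + U ^ 17 * (N * √R * z) := by ring
    _ ≤ U ^ 17 * (N * m) + U ^ 17 * (N * √R * z) := by linarith
    _ = _ := by ring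

theorem core {η : ℝ} (hη : 0 < η) :
    ∃ N0 : ℕ, ∀ (N : ℕ) (T T0 V : ℝ) (b : ℕ → ℂ) (W : Finset ℤ), N0 ≤ N → (N : ℝ) ≤ T0 → T0 ≤ T →
      T ^ 2 ≤ (N : ℝ) ^ 3 → 1 ≤ V → LV N T V b W → W.card ≤ N →
      W.card * V ^ 2 ≤ (N : ℝ) ^ η * ((T / T0) * (N : ℝ) ^ 2) ∨
      (W.card : ℝ) ^ 9 * V ^ 36 ≤
        (N : ℝ) ^ η * ((T / T0) ^ 8 * (T0 + (T0 / N) ^ 4) * T0 * (N : ℝ) ^ 30) ∨
      (W.card : ℝ) ^ 3 * V ^ 36 ≤
        (N : ℝ) ^ η * ((T / T0) ^ 2 * (T0 + (T0 / N) ^ 4) ^ 2 * (N : ℝ) ^ 27) ∨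
      (W.card : ℝ) ^ 9 * V ^ 60 ≤
        (N : ℝ) ^ η * ((T / T0) ^ 6 * (T0 + (T0 / N) ^ 4) ^ 3 * T0 ^ 2 * (N : ℝ) ^ 45) := by
  obtain ⟨w, hw⟩ := exists_wt
  obtain ⟨j, a, hj, ha, hpar⟩ := main_param (η := η / 55) (by positivity)
  obtain ⟨CL, hCL1, hCL⟩ := exists_loss ha
  obtain ⟨Ca, hCa0, hCa⟩ := approx hw.toSm hj
  obtain ⟨Cs, hCs0, hCs⟩ := kr_sup hw.toSm
  obtain ⟨Ch, hCh0, hCh⟩ := kr_hs hw.toSm
  obtain ⟨Ce, hCe0, hCe⟩ := kr_eight hw.toSm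
  obtain ⟨Cp, hCp0, hCp⟩ := pairs_up hw
  obtain ⟨Cw, hCw0, hCw⟩ := pairs_low hw
  obtain ⟨N0, hN0⟩ := exists_absorb ha (100000 + CL + 2 * Ca + Cs + Ch + Ce + Cp + Cw)
  refine ⟨N0 + 1, fun N T T0 V b W hN hNT0 hT0T hTN hV h hRN => ?_⟩
  have hN1 : 1 ≤ N := by omega
  have hN1' : (1 : ℝ) ≤ N := by exact_mod_cast hN1
  have hN0' : (0 : ℝ) < N := by linarith
  have hT01 : 1 ≤ T0 := hN1'.trans hNT0
  have hT1 : 1 ≤ T := hT01.trans hT0T
  have hN2 : (1 : ℝ) ≤ (N : ℝ) ^ 2 := one_le_pow₀ hN1'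
  have hNN : (N : ℝ) ≤ (N : ℝ) ^ 2 := le_self_pow₀ hN1' (by norm_num)
  have hTN2 : T ≤ (N : ℝ) ^ 2 := by
    refine le_of_pow_le_pow_left₀ (n := 2) (by norm_num) (by positivity) ?_
    calc T ^ 2 ≤ (N : ℝ) ^ 3 := hTN
      _ ≤ (N : ℝ) ^ 4 := pow_le_pow_right₀ hN1' (by norm_num)
      _ = _ := by ring
  have hK := hN0 N (by omega)
  have hP := hCL N ((N : ℝ) ^ 2) hN2 hN1' le_rfl
  obtain ⟨hU2, hU20, hUj⟩ := hpar N hN1'
  have hη55 : ((N : ℝ) ^ (η / 55)) ^ 55 = (N : ℝ) ^ η := by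
    rw [← Real.rpow_natCast, ← Real.rpow_mul hN0'.le]
    congr 1
    push_cast
    ring
  generalize (N : ℝ) ^ a = U at hK hP hU2 hU20 hUj
  have hU : 100000 ≤ U := by linarith
  have hU0 : 0 < U := by linarith
  have hU1 : 1 ≤ U := by linarith
  have hfin : U ^ 1100 ≤ (N : ℝ) ^ η := by
    rw [← hη55, show U ^ 1100 = (U ^ 20) ^ 55 by rw [← pow_mul]]
    exact pow_le_pow_left₀ (by positivity) hU20 55
  have hUN : 100000 * U ≤ N := le_trans (by nlinarith only [hU]) hU2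
  have hP0 : 0 ≤ CL * U := by positivity
  have hPU : CL * U ≤ U ^ 2 := by
    rw [sq]
    exact mul_le_mul_of_nonneg_right (by linarith) hU0.le
  generalize CL * U = P at hP hP0 hPU
  obtain ⟨M, hM⟩ : ∃ M : ℕ, M = ⌈U * (1 + T0) / N⌉₊ := ⟨_, rfl⟩
  have hM0 : 0 < U * (1 + T0) / N := by positivity
  have hM1 : 1 ≤ M := by rw [hM]; exact Nat.ceil_pos.2 hM0
  have hM2 : U * (1 + T0) ≤ M * N := by
    rw [← div_le_iff₀ hN0', hM]
    exact Nat.le_ceil _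
  have hQ1 : 1 ≤ T0 / N := (one_le_div hN0').2 hNT0
  have hM3 : (M : ℝ) ≤ 3 * U * (T0 / N) := by
    have h1 : (M : ℝ) < U * (1 + T0) / N + 1 := by rw [hM]; exact Nat.ceil_lt_add_one hM0.le
    have h2 : U * (1 + T0) / N ≤ 2 * (U * (T0 / N)) := by
      rw [← mul_div_assoc, ← mul_div_assoc]
      exact div_le_div_of_nonneg_right (by nlinarith only [hT01, hU0]) hN0'.le
    have h3 : 1 ≤ U * (T0 / N) := one_le_mul_of_one_le_of_one_le (by linarith) hQ1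
    linarith
  have hM4 : (M : ℝ) ≤ T0 := by
    refine hM3.trans ?_
    rw [← mul_div_assoc, div_le_iff₀ hN0']
    nlinarith only [hUN, hU0, hT01]
  have hT02 : T0 ≤ (N : ℝ) ^ 2 := hT0T.trans hTN2
  have hM5 : (M : ℝ) ≤ (N : ℝ) ^ 2 := hM4.trans hT02
  have hMn : (0 : ℝ) ≤ M := Nat.cast_nonneg M
  have hUj0 : 0 < U ^ j := by positivity
  obtain ⟨e0, he0⟩ : ∃ e0 : ℝ, e0 = Ca * (N * M) / U ^ j := ⟨_, rfl⟩
  have he1 : 0 ≤ e0 := by rw [he0]; positivity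
  have he2 : (T0 + 1) * e0 ≤ N := by
    refine le_trans ?_ hN1'
    rw [he0, ← mul_div_assoc, div_le_one hUj0]
    refine le_trans ?_ hUj
    have h1 : T0 + 1 ≤ 2 * (N : ℝ) ^ 2 := by linarith
    calc (T0 + 1) * (Ca * (N * M)) ≤ 2 * (N : ℝ) ^ 2 * (Ca * (N * (N : ℝ) ^ 2)) := by gcongr
      _ = 2 * Ca * (N : ℝ) ^ 5 := by ring
      _ ≤ N * (N : ℝ) ^ 5 := mul_le_mul_of_nonneg_right (by linarith) (by positivity)
      _ = (N : ℝ) ^ 6 := by ring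
      _ ≤ _ := pow_le_pow_right₀ hN1' (by norm_num)
  have happ : ∀ t : ℤ, |(t : ℝ)| ≤ T0 → ‖gg w N t - N * ff w t 0 - kr w N M t‖ ≤ e0 := by
    intro t ht
    rw [he0]
    exact hCa N M U t hN1 hM1 hU0 (le_trans (by gcongr) hM2)
  have hsup : ∀ t : ℤ, ‖kr w N M t‖ ^ 2 ≤ U ^ 7 * T0 := by
    intro t
    refine (hCs N M _ P t hN1 hM1 hP hM5).trans ?_
    have h1 : (N : ℝ) * M ≤ 3 * U * T0 := by
      refine (mul_le_mul_of_nonneg_left hM3 hN0'.le).trans_eq ?_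
      field_simp
    calc Cs * P ^ 2 * (N * M) ≤ U * (U ^ 2) ^ 2 * (3 * U * T0) := by gcongr; linarith
      _ = 3 * (U ^ 6 * T0) := by ring
      _ ≤ U * (U ^ 6 * T0) := mul_le_mul_of_nonneg_right (by linarith) (by positivity)
      _ = _ := by ring
  have hsup' : ∀ t : ℤ, ‖kr w N M t‖ ≤ ((N : ℝ) ^ 2) ^ 2 := by
    intro t
    refine le_of_pow_le_pow_left₀ (n := 2) (by norm_num) (by positivity) ((hsup t).trans ?_)
    have h1 : U ^ 7 ≤ (U ^ 2) ^ 4 := by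
      rw [← pow_mul]
      exact pow_le_pow_right₀ hU1 (by norm_num)
    have h2 : (U ^ 2) ^ 4 ≤ (N : ℝ) ^ 4 := pow_le_pow_left₀ (by positivity) hU2 4
    calc U ^ 7 * T0 ≤ (N : ℝ) ^ 4 * (N : ℝ) ^ 2 := by gcongr; exact h1.trans h2
      _ = (N : ℝ) ^ 6 := by ring
      _ ≤ (N : ℝ) ^ 8 := pow_le_pow_right₀ hN1' (by norm_num)
      _ = _ := by ring
  have hJ0 : 0 ≤ T / T0 := by positivity
  rcases hCw N M T T0 _ P V e0 b W hN1 hNN hT01 hT0T hP hV he1 he2 h happ hsup' with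
    h1 | ⟨lam, D, hl1, hD, hDne, hl2, hl3⟩
  · left
    refine h1.trans ?_
    rw [mul_assoc]
    refine mul_le_mul_of_nonneg_right ?_ (by positivity)
    exact le_trans (by linarith) ((le_self_pow₀ hU1 (by norm_num)).trans hfin)
  right
  have hV0 : 0 < V := by linarith
  have hl0 : 0 < lam := by
    by_contra h1
    have h2 : 8 * N * lam ≤ 0 := mul_nonpos_of_nonneg_of_nonpos (by positivity) (not_lt.1 h1)
    have h3 : 0 < V ^ 2 := by positivity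
    linarith
  obtain ⟨y, hy0, hy3⟩ : ∃ y : ℝ, 0 ≤ y ∧ y ^ 3 = T0 ^ 2 :=
    ⟨(T0 ^ 2) ^ ((3 : ℕ) : ℝ)⁻¹, by positivity, Real.rpow_inv_natCast_pow (by positivity) (by norm_num)⟩
  have hy1 : T0 / N ≤ y := by
    refine le_of_pow_le_pow_left₀ (n := 3) (by norm_num) hy0 ?_
    rw [hy3, div_pow, div_le_iff₀ (by positivity)]
    have h1 : T0 ≤ (N : ℝ) ^ 3 := hT02.trans (pow_le_pow_right₀ hN1' (by norm_num))
    calc T0 ^ 3 = T0 ^ 2 * T0 := by ring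
      _ ≤ _ := mul_le_mul_of_nonneg_left h1 (by positivity)
  have hy2 : y ≤ N := by
    refine le_of_pow_le_pow_left₀ (n := 3) (by norm_num) hN0'.le ?_
    rw [hy3]
    exact (pow_le_pow_left₀ (by linarith) hT0T 2).trans hTN
  have hΔ0 : (0 : ℝ) ≤ D.card := Nat.cast_nonneg _
  have hR0 : (0 : ℝ) ≤ W.card := Nat.cast_nonneg _
  have hRN' : (W.card : ℝ) ≤ N := by exact_mod_cast hRN
  have hhs : ∑ t ∈ D, ∑ s ∈ D, ‖kr w N M (t - s)‖ ^ 2 ≤
      U ^ 20 * (N * ((D.card : ℝ) ^ 2 + D.card * y)) := by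
    have h1 : (M : ℝ) ≤ 3 * U * y := hM3.trans (by gcongr)
    have h2 : 3 * U * y ≤ (N : ℝ) ^ 2 := by
      rw [sq]
      exact mul_le_mul (by linarith) hy2 hy0 hN0'.le
    have h3 : T0 ^ 2 ≤ (3 * U * y) ^ 3 := by
      rw [mul_pow, hy3]
      exact le_mul_of_one_le_left (by positivity) (one_le_pow₀ (by linarith))
    refine (hCh N M _ P T0 _ D hN1 hM1 hP h1 h2 hT01 h3 hD).trans ?_
    have h4 : (D.card : ℝ) ^ 2 + D.card * (3 * U * y) ≤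
        3 * U * ((D.card : ℝ) ^ 2 + D.card * y) := by
      have h5 : (D.card : ℝ) ^ 2 ≤ 3 * U * (D.card : ℝ) ^ 2 :=
        le_mul_of_one_le_left (by positivity) (by linarith)
      linarith
    have h6 : 3 * U ^ 18 ≤ U ^ 20 := by
      calc 3 * U ^ 18 ≤ U * U ^ 18 := mul_le_mul_of_nonneg_right (by linarith) (by positivity)
        _ = U ^ 19 := by ring
        _ ≤ _ := pow_le_pow_right₀ hU1 (by norm_num)
    calc _ ≤ U * (U ^ 2) ^ 8 * (N * (3 * U * ((D.card : ℝ) ^ 2 + D.card * y))) := by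
          gcongr; linarith
      _ = 3 * U ^ 18 * (N * ((D.card : ℝ) ^ 2 + D.card * y)) := by ring
      _ ≤ _ := mul_le_mul_of_nonneg_right h6 (by positivity)
  have hds : ds W (Icc N (2 * N)) ≤ U ^ 14 * ((N : ℝ) ^ 2 * W.card) := by
    refine (boot hP hT1 hTN hN0'.le hNN h.inr hN0' le_rfl (inI_Icc N)).trans ?_
    have h1 : (W.card : ℝ) ^ 2 + W.card * N ≤ 2 * (W.card * N) := by
      have := mul_le_mul_of_nonneg_left hRN' hR0
      linarith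
    have h6 : 2000 * U ^ 12 ≤ U ^ 14 := by
      calc 2000 * U ^ 12 ≤ U * U ^ 12 := mul_le_mul_of_nonneg_right (by linarith) (by positivity)
        _ = U ^ 13 := by ring
        _ ≤ _ := pow_le_pow_right₀ hU1 (by norm_num)
    calc _ ≤ 1000 * (U ^ 2) ^ 6 * N * (2 * (W.card * N)) := by gcongr
      _ = 2000 * U ^ 12 * ((N : ℝ) ^ 2 * W.card) := by ring
      _ ≤ _ := mul_le_mul_of_nonneg_right h6 (by positivity)
  have hA : Cp * N + D.card * e0 ≤ U * N := by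
    have h1 : (D.card : ℝ) * e0 ≤ N :=
      (mul_le_mul_of_nonneg_right (card_le_of_inR (by linarith) hD) he1).trans he2
    have h2 := mul_le_mul_of_nonneg_right (show Cp + 1 ≤ U by linarith) hN0'.le
    linarith
  have hup := (hCp N M T T0 V e0 b W D hN1 he1 hV0.le h hD happ).trans
    (core_h4 (by linarith) hN0'.le hR0 hA hds hhs)
  have h40 : 1 ≤ U ^ 40 := one_le_pow₀ hU1
  have hY0 : 0 ≤ T0 + (T0 / N) ^ 4 := by positivity
  have a1 : V ^ 2 ≤ U ^ 40 * N * lam := by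
    refine hl1.trans ?_
    have h1 : (8 : ℝ) ≤ U ^ 40 := le_trans (by linarith) (le_self_pow₀ hU1 (by norm_num))
    gcongr
  have a2 : lam ^ 2 ≤ U ^ 40 * T0 := by
    obtain ⟨l, hl⟩ := hDne
    refine ((pow_le_pow_left₀ hl0.le (hl2 l hl) 2).trans (hsup l)).trans ?_
    exact mul_le_mul_of_nonneg_right (pow_le_pow_right₀ hU1 (by norm_num)) (by linarith)
  have a3 : D.card * lam ^ 8 ≤ U ^ 40 * (N : ℝ) ^ 4 * (T0 + (T0 / N) ^ 4) := by
    have h1 : D.card * lam ^ 8 ≤ ∑ t ∈ D, ‖kr w N M t‖ ^ 8 := by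
      rw [← nsmul_eq_mul]
      exact card_nsmul_le_sum _ _ _ fun l hl => pow_le_pow_left₀ hl0.le (hl2 l hl) 8
    refine h1.trans ((hCe N M _ P T0 D hN1 hM1 hP hM5 (by linarith) hD).trans ?_)
    have h2 : (M : ℝ) ^ 4 ≤ 81 * U ^ 4 * (T0 / N) ^ 4 :=
      (pow_le_pow_left₀ hMn hM3 4).trans_eq (by ring)
    have h3 : T0 ≤ 81 * U ^ 4 * T0 :=
      le_mul_of_one_le_left (by linarith) (by nlinarith only [one_le_pow₀ (n := 4) hU1])
    have h4 : T0 + (M : ℝ) ^ 4 ≤ 81 * U ^ 4 * (T0 + (T0 / N) ^ 4) := by linarith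
    calc _ ≤ U * (U ^ 2) ^ 17 * ((N : ℝ) ^ 4 * (81 * U ^ 4 * (T0 + (T0 / N) ^ 4))) := by
          gcongr; linarith
      _ = 81 * (U ^ 39 * (N : ℝ) ^ 4 * (T0 + (T0 / N) ^ 4)) := by ring
      _ ≤ U * (U ^ 39 * (N : ℝ) ^ 4 * (T0 + (T0 / N) ^ 4)) :=
          mul_le_mul_of_nonneg_right (by linarith) (by positivity)
      _ = _ := by ring
  have m1 : 0 ≤ min (N * W.card : ℝ) (√(D.card : ℝ) * (N * √(W.card : ℝ))) :=
    le_min (by positivity) (by positivity)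
  have a4 : V ^ 4 * (W.card : ℝ) ^ 2 ≤ U ^ 40 * (T / T0) * N * lam *
      (N * min (N * W.card : ℝ) (√(D.card : ℝ) * (N * √(W.card : ℝ))) +
        N * √(W.card : ℝ) * √(N * ((D.card : ℝ) ^ 2 + D.card * y))) := by
    have hz : 0 ≤ N * min (N * W.card : ℝ) (√(D.card : ℝ) * (N * √(W.card : ℝ))) +
        N * √(W.card : ℝ) * √(N * ((D.card : ℝ) ^ 2 + D.card * y)) := by positivity
    generalize N * min (N * W.card : ℝ) (√(D.card : ℝ) * (N * √(W.card : ℝ))) +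
        N * √(W.card : ℝ) * √(N * ((D.card : ℝ) ^ 2 + D.card * y)) = Z at hup hz ⊢
    have h1 : Cw * P ≤ U * U ^ 2 := by gcongr; linarith
    have h2 : U ^ 20 ≤ U ^ 40 := pow_le_pow_right₀ hU1 (by norm_num)
    calc V ^ 4 * (W.card : ℝ) ^ 2 = V ^ 2 * (V ^ 2 * (W.card : ℝ) ^ 2) := by ring
      _ ≤ V ^ 2 * (Cw * P * (T / T0) * N * lam * prs W D) :=
          mul_le_mul_of_nonneg_left hl3 (by positivity)
      _ = Cw * P * ((T / T0) * N * lam) * (V ^ 2 * prs W D) := by ring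
      _ ≤ U * U ^ 2 * ((T / T0) * N * lam) * (U ^ 17 * Z) := by gcongr
      _ = U ^ 20 * ((T / T0) * N * lam * Z) := by ring
      _ ≤ U ^ 40 * ((T / T0) * N * lam * Z) := mul_le_mul_of_nonneg_right h2 (by positivity)
      _ = _ := by ring
  have hK' : 512 * (U ^ 40) ^ 27 ≤ (N : ℝ) ^ η := by
    refine le_trans ?_ hfin
    calc 512 * (U ^ 40) ^ 27 ≤ U * (U ^ 40) ^ 27 :=
          mul_le_mul_of_nonneg_right (by linarith) (by positivity)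
      _ = U ^ 1081 := by rw [← pow_mul, ← pow_succ']
      _ ≤ _ := pow_le_pow_right₀ hU1 (by norm_num)
  rcases core_alg h40 hJ0 hN0' hR0 hV0 hl0 hΔ0 hY0 hy0 hy3 a1 a2 a3 a4 with h1 | h1 | h1
  · exact Or.inl (h1.trans (mul_le_mul_of_nonneg_right hK' (by positivity)))
  · exact Or.inr (Or.inl (h1.trans (mul_le_mul_of_nonneg_right hK' (by positivity))))
  · exact Or.inr (Or.inr (h1.trans (mul_le_mul_of_nonneg_right hK' (by positivity))))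

end Pool.Agent.Lib.MP_ecd12e_nt.DH
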