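import Pool.Agent.Lib.MP_ecd12e_nt.Sch.Main
import Pool.Agent.Lib.MP_ecd12e_nt.GM.Vdc

/-!
Definitions for the large value bound of density type.
-/

set_option autoImplicit false

namespace Pool.Agent.Lib.MP_ecd12e_nt.DH

open Finset Real MeasureTheory
open Pool.Agent.Lib.MP_ecd12e_nt.Bar (ei)
open Pool.Agent.Lib.MP_ecd12e_nt.Sch

/-- The Dirichlet polynomial over `I` with coefficients `d`. -/
noncomputable def dp (I : Finset ℕ) (d : ℕ → ℂ) (t : ℝ) : ℂ := ∑ m ∈ I, d m * ei (t * Real.log m)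

/-- The double zeta sum. -/
noncomputable def ds (D : Finset ℤ) (J : Finset ℕ) : ℝ :=
  ∑ n ∈ J, ∑ n' ∈ J, ‖rr D (Real.log n - Real.log n')‖ ^ 2

/-- The number of pairs `(t, l)` in `W × D` with `t + l` in `W`. -/
def prs (W D : Finset ℤ) : ℕ := ((W ×ˢ D).filter (fun p => p.1 + p.2 ∈ W)).card

lemma ds_nonneg (D : Finset ℤ) (J : Finset ℕ) : 0 ≤ ds D J :=
  sum_nonneg fun _ _ => sum_nonneg fun _ _ => by positivity

end Pool.Agent.Lib.MP_ecd12e_nt.DH
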