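import Pool.Agent.Lib.MP_ecd12e_nt.DH.Defs

/-!
The mean value theorem on integer points.
-/

set_option autoImplicit false

namespace Pool.Agent.Lib.MP_ecd12e_nt.DH

open Finset Real MeasureTheory
open Pool.Agent.Lib.MP_ecd12e_nt.Bar (ei)
open Pool.Agent.Lib.MP_ecd12e_nt.Sch

theorem mv {T P L H : ℝ} (h : Loss T P) (hL : 1 ≤ L) (hLT : L ≤ 2 * T ^ 4) {J : Finset ℕ}
    (hJ : InI J L 16) (hH : 0 ≤ H) {K : Finset ℤ} (hK : InR K H) (c : ℕ → ℂ) :
    ∑ k ∈ K, ‖dp J c k‖ ^ 2 ≤ 113 * P * (H + L) * ∑ n ∈ J, ‖c n‖ ^ 2 := by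
  have hP := h.one_le
  have h4 : (1 : ℝ) ≤ T ^ 4 := one_le_pow₀ h.hT
  have hl4 : Real.log 4 ≤ 3 / 2 := by
    rw [show (4 : ℝ) = 2 ^ 2 by norm_num, Real.log_pow]
    push_cast
    linarith [Real.log_two_lt_d9]
  have h0 : ∀ n ∈ J, (0 : ℝ) < n := fun n hn => by linarith [(hJ n hn).1]
  set θ : ℕ → ℝ := fun n => Real.log n - Real.log (4 * L) with hθ
  set v : ℤ → ℂ := fun k => ∑ n ∈ J, c n * ei (k * θ n) with hv
  have e1 : ∀ k : ℤ, ‖dp J c k‖ = ‖v k‖ := fun k => by
    simp only [hv, hθ, mul_sub]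
    exact (gram_shift _ _ _ _).symm
  have key : ∀ i ∈ J, ∀ j ∈ J, j < i → 1 ≤ 16 * L * |θ i - θ j| := fun i hi j hj hij => by
    have := log_gap (H := 16 * L) (by exact_mod_cast h0 j hj) hij (hJ i hi).2
    simp only [hθ, sub_sub_sub_cancel_right]
    exact this.trans (mul_le_mul_of_nonneg_left (le_abs_self _) (by linarith))
  have hs := sieve J θ (D := 16 * L) (H := H) (by linarith) hH (fun n hn => by
      have h1 : Real.log L ≤ Real.log n := Real.log_le_log (by linarith) (hJ n hn).1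
      have h2 : Real.log n ≤ Real.log (4 * (4 * L)) :=
        Real.log_le_log (h0 n hn) (by linarith [(hJ n hn).2])
      rw [Real.log_mul (by norm_num) (by positivity)] at h2
      have h3 : Real.log (4 * L) = Real.log 4 + Real.log L :=
        Real.log_mul (by norm_num) (by positivity)
      simp only [hθ]
      rw [abs_le]
      constructor <;> linarith)
    (fun i hi j hj hij => by
      rcases lt_or_gt_of_ne hij with k | k
      · rw [abs_sub_comm]
        exact key j hj i hi k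
      · exact key i hi j hj k) K hK fun k => (starRingEnd ℂ) (v k)
  have h5 : Real.log (1 + 3 * (16 * L)) ≤ Real.log (100 * T ^ 4) :=
    Real.log_le_log (by positivity) (by linarith)
  have h6 : H + 1 + 7 * (16 * L) * (1 + Real.log (1 + 3 * (16 * L))) ≤ 113 * P * (H + L) := by
    have h7 : 7 * (16 * L) * (1 + Real.log (1 + 3 * (16 * L))) ≤ 7 * (16 * L) * P :=
      mul_le_mul_of_nonneg_left (by linarith [h.lg]) (by positivity)
    nlinarith
  simp only [Complex.norm_conj] at hs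
  simp only [e1]
  set X := ∑ k ∈ K, ‖v k‖ ^ 2 with hX
  have X0 : 0 ≤ X := sum_nonneg fun _ _ => by positivity
  have e2 : (X : ℂ) = ∑ n ∈ J, c n * tp K (fun k => (starRingEnd ℂ) (v k)) (θ n) := by
    simp only [tp, mul_sum]
    rw [sum_comm, hX]
    push_cast
    refine sum_congr rfl fun k _ => ?_
    rw [← Complex.conj_mul']
    conv_lhs => rw [hv]
    simp only [mul_sum]
    exact sum_congr rfl fun n _ => by ring
  have e3 : X ≤ ∑ n ∈ J, ‖c n‖ * ‖tp K (fun k => (starRingEnd ℂ) (v k)) (θ n)‖ := by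
    rw [← abs_of_nonneg X0, ← Real.norm_eq_abs, ← Complex.norm_real, e2]
    exact (norm_sum_le _ _).trans (sum_le_sum fun n _ => (norm_mul _ _).le)
  have e4 := (pow_le_pow_left₀ X0 e3 2).trans ((sum_mul_sq_le_sq_mul_sq _ _ _).trans
    (mul_le_mul_of_nonneg_left (hs.trans (mul_le_mul_of_nonneg_right h6 X0))
      (sum_nonneg fun _ _ => sq_nonneg _)))
  rcases X0.eq_or_lt with k | k
  · rw [← k]
    exact mul_nonneg (by positivity) (sum_nonneg fun _ _ => sq_nonneg _)
  · exact le_of_mul_le_mul_right (by linarith) k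

end Pool.Agent.Lib.MP_ecd12e_nt.DH
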