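import Pool.Agent.Lib.MP_ecd12e_nt.DH.Defs

/-!
The choice of the window length and the exponents.
-/

set_option autoImplicit false

namespace Pool.Agent.Lib.MP_ecd12e_nt.DH

open Finset Real MeasureTheory
open Pool.Agent.Lib.MP_ecd12e_nt.Bar (ei)
open Pool.Agent.Lib.MP_ecd12e_nt.Sch

lemma expo_key {k m : ℕ} (hk : k ≠ 0) (hm : m ≤ 12 * k) {c x a b K κ V R : ℝ} (hc : c ≤ 2 ^ k)
    (hK : 1 ≤ K) (hκ : 1 ≤ κ) (hR : 0 ≤ R) (hN : exp a ≤ κ * V)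
    (h : R ^ k * V ^ m ≤ K * (c * exp x)) (hx : x ≤ k * b + m * a) :
    R ≤ 2 * K * κ ^ 12 * exp b := by
  have h0 : 0 < exp a ^ m := by positivity
  have hK0 : 0 ≤ K := by linarith
  have hκ0 : 0 ≤ κ := by linarith
  refine le_of_pow_le_pow_left₀ hk (by positivity) (le_of_mul_le_mul_right ?_ h0)
  have h1 : exp x ≤ exp b ^ k * exp a ^ m := by
    rw [← exp_nat_mul, ← exp_nat_mul, ← exp_add]
    exact exp_le_exp.2 hx
  calc R ^ k * exp a ^ m ≤ R ^ k * (κ * V) ^ m := by gcongr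
    _ = κ ^ m * (R ^ k * V ^ m) := by ring
    _ ≤ κ ^ m * (K * (c * exp x)) := by gcongr
    _ ≤ κ ^ (12 * k) * (K ^ k * (2 ^ k * (exp b ^ k * exp a ^ m))) := by
      have h2 : K * (c * exp x) ≤ K ^ k * (2 ^ k * (exp b ^ k * exp a ^ m)) :=
        calc K * (c * exp x) ≤ K * (2 ^ k * (exp b ^ k * exp a ^ m)) := by gcongr
          _ ≤ _ := by gcongr; exact le_self_pow₀ hK hk
      calc κ ^ m * (K * (c * exp x)) ≤ κ ^ m * (K ^ k * (2 ^ k * (exp b ^ k * exp a ^ m))) := by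
            gcongr
        _ ≤ _ := by gcongr
    _ = (2 * K * κ ^ 12 * exp b) ^ k * exp a ^ m := by rw [pow_mul]; simp only [mul_pow]; ring

lemma expo_gen {σ n τ t y Y K κ V R : ℝ} (hY0 : 0 ≤ Y) (hY : Y ≤ 2 * exp y)
    (h1 : τ - t + 2 * n ≤ (2 - 2 * σ) * τ + 2 * (σ * n))
    (h2 : 8 * (τ - t) + y + t + 30 * n ≤ 9 * ((2 - 2 * σ) * τ) + 36 * (σ * n))
    (h3 : 2 * (τ - t) + 2 * y + 27 * n ≤ 3 * ((2 - 2 * σ) * τ) + 36 * (σ * n))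
    (h4 : 6 * (τ - t) + 3 * y + 2 * t + 45 * n ≤ 9 * ((2 - 2 * σ) * τ) + 60 * (σ * n))
    (hK : 1 ≤ K) (hκ : 1 ≤ κ) (hR : 0 ≤ R) (hN : exp (σ * n) ≤ κ * V)
    (h : R * V ^ 2 ≤ K * ((exp τ / exp t) * exp n ^ 2) ∨
      R ^ 9 * V ^ 36 ≤ K * ((exp τ / exp t) ^ 8 * Y * exp t * exp n ^ 30) ∨
      R ^ 3 * V ^ 36 ≤ K * ((exp τ / exp t) ^ 2 * Y ^ 2 * exp n ^ 27) ∨
      R ^ 9 * V ^ 60 ≤ K * ((exp τ / exp t) ^ 6 * Y ^ 3 * exp t ^ 2 * exp n ^ 45)) :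
    R ≤ 2 * K * κ ^ 12 * exp ((2 - 2 * σ) * τ) := by
  have hK0 : 0 ≤ K := by linarith
  rw [← exp_sub] at h
  rcases h with h | h | h | h
  · refine expo_key (k := 1) (m := 2) (c := 1) (x := τ - t + 2 * n) one_ne_zero (by norm_num)
      (by norm_num) hK hκ hR hN ?_ (by push_cast; linarith)
    rw [pow_one, one_mul, exp_add, show (2 : ℝ) * n = (2 : ℕ) * n by norm_num, exp_nat_mul]
    exact h
  · refine expo_key (k := 9) (m := 36) (c := 2) (x := (8 : ℕ) * (τ - t) + y + t + (30 : ℕ) * n)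
      (by norm_num) (by norm_num) (by norm_num) hK hκ hR hN (h.trans ?_) (by push_cast; linarith)
    simp only [exp_add, exp_nat_mul]
    calc _ ≤ K * (exp (τ - t) ^ 8 * (2 * exp y) * exp t * exp n ^ 30) := by gcongr
      _ = _ := by ring
  · refine expo_key (k := 3) (m := 36) (c := 4)
      (x := (2 : ℕ) * (τ - t) + (2 : ℕ) * y + (27 : ℕ) * n)
      (by norm_num) (by norm_num) (by norm_num) hK hκ hR hN (h.trans ?_) (by push_cast; linarith)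
    simp only [exp_add, exp_nat_mul]
    calc _ ≤ K * (exp (τ - t) ^ 2 * (2 * exp y) ^ 2 * exp n ^ 27) := by gcongr
      _ = _ := by ring
  · refine expo_key (k := 9) (m := 60) (c := 8)
      (x := (6 : ℕ) * (τ - t) + (3 : ℕ) * y + (2 : ℕ) * t + (45 : ℕ) * n)
      (by norm_num) (by norm_num) (by norm_num) hK hκ hR hN (h.trans ?_) (by push_cast; linarith)
    simp only [exp_add, exp_nat_mul]
    calc _ ≤ K * (exp (τ - t) ^ 6 * (2 * exp y) ^ 3 * exp t ^ 2 * exp n ^ 45) := by gcongr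
      _ = _ := by ring

lemma expo_Y (t n : ℝ) : (exp t / exp n) ^ 4 = exp (4 * (t - n)) := by
  rw [← exp_sub, ← exp_nat_mul]
  norm_num

theorem expo {σ N T : ℝ} (hσ : 7 / 9 ≤ σ) (hσ1 : σ ≤ 1) (hN : 1 ≤ N) (hT : N ≤ T)
    (hT' : T ^ 2 ≤ N ^ 3) :
    ∃ T0 : ℝ, N ≤ T0 ∧ T0 ≤ T ∧ ∀ K κ V R : ℝ, 1 ≤ K → 1 ≤ κ → 0 < V → 0 ≤ R → N ^ σ ≤ κ * V →
      (R * V ^ 2 ≤ K * ((T / T0) * N ^ 2) ∨
        R ^ 9 * V ^ 36 ≤ K * ((T / T0) ^ 8 * (T0 + (T0 / N) ^ 4) * T0 * N ^ 30) ∨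
        R ^ 3 * V ^ 36 ≤ K * ((T / T0) ^ 2 * (T0 + (T0 / N) ^ 4) ^ 2 * N ^ 27) ∨
        R ^ 9 * V ^ 60 ≤ K * ((T / T0) ^ 6 * (T0 + (T0 / N) ^ 4) ^ 3 * T0 ^ 2 * N ^ 45)) →
      R ≤ 2 * K * κ ^ 12 * T ^ (2 - 2 * σ) := by
  obtain ⟨n, rfl⟩ : ∃ n, exp n = N := ⟨log N, exp_log (by linarith)⟩
  obtain ⟨τ, rfl⟩ : ∃ τ, exp τ = T := ⟨log T, exp_log (by linarith)⟩
  rw [← exp_nat_mul, ← exp_nat_mul, exp_le_exp] at hT'
  push_cast at hT'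
  have hn : 0 ≤ n := one_le_exp_iff.1 hN
  have hτ : n ≤ τ := exp_le_exp.1 hT
  have e1 : 0 ≤ (σ - 7 / 9) * n := mul_nonneg (by linarith) hn
  have e2 : 0 ≤ (1 - σ) * (τ - n) := mul_nonneg (by linarith) (by linarith)
  have e3 : 0 ≤ (σ - 7 / 9) * (3 * n - 2 * τ) := mul_nonneg (by linarith) (by linarith)
  simp only [← exp_mul, mul_comm n σ, mul_comm τ (2 - 2 * σ)]
  by_cases hA : 3 * τ ≤ 4 * n
  · refine ⟨exp τ, hT, le_rfl, fun K κ V R hK hκ _ hR hV h =>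
      expo_gen (y := τ) (by positivity) ?_ ?_ ?_ ?_ ?_ hK hκ hR hV h⟩
    · have : exp (4 * (τ - n)) ≤ exp τ := exp_le_exp.2 (by linarith)
      rw [expo_Y]
      linarith
    all_goals nlinarith
  by_cases hB : 5 / 6 ≤ σ
  · have e4 : 0 ≤ (σ - 5 / 6) * n := mul_nonneg (by linarith) hn
    have e5 : 0 ≤ (σ - 5 / 6) * (3 * n - 2 * τ) := mul_nonneg (by linarith) (by linarith)
    refine ⟨exp τ, hT, le_rfl, fun K κ V R hK hκ _ hR hV h =>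
      expo_gen (y := 4 * (τ - n)) (by positivity) ?_ ?_ ?_ ?_ ?_ hK hκ hR hV h⟩
    · have : exp τ ≤ exp (4 * (τ - n)) := exp_le_exp.2 (by linarith)
      rw [expo_Y]
      linarith
    all_goals nlinarith
  · have e4 : 0 ≤ (5 / 6 - σ) * n := mul_nonneg (by linarith) hn
    refine ⟨exp (4 / 3 * n), exp_le_exp.2 (by linarith), exp_le_exp.2 (by linarith),
      fun K κ V R hK hκ _ hR hV h =>
        expo_gen (y := 4 / 3 * n) (by positivity) ?_ ?_ ?_ ?_ ?_ hK hκ hR hV h⟩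
    · rw [expo_Y, show 4 * (4 / 3 * n - n) = 4 / 3 * n by ring]
      linarith
    all_goals nlinarith

end Pool.Agent.Lib.MP_ecd12e_nt.DH
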