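import Pool.Agent.Lib.MP_ecd12e_nt.DH.Big

/-!
The large value bound of density type.
-/

set_option autoImplicit false

namespace Pool.Agent.Lib.MP_ecd12e_nt.DH

open Finset Real
open Pool.Agent.Lib.MP_ecd12e_nt.Bar (ei)
open Pool.Agent.Lib.MP_ecd12e_nt.Sch

theorem weak_all (A : ℝ) {ε : ℝ} (hε : 0 < ε) :
    ∃ (C : ℝ) (a : ℕ), 0 ≤ C ∧ ∀ (σ : ℝ) (N : ℕ) (T κ V : ℝ) (b : ℕ → ℂ) (W : Finset ℤ),
      7 / 9 ≤ σ → σ ≤ 1 → 1 ≤ N →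
      (((N : ℝ) ≤ T ∧ T ^ 2 ≤ (N : ℝ) ^ 3) ∨ ((N : ℝ) ^ 2 ≤ T ∧ T ≤ (N : ℝ) ^ A)) → 1 ≤ κ →
      (N : ℝ) ^ σ ≤ κ * V → LV N T V b W →
      (W.card : ℝ) ≤ C * κ ^ a * T ^ (2 - 2 * σ + ε) := by
  obtain ⟨C1, h1, H1⟩ := weak1 hε
  obtain ⟨C2, a, h2, H2⟩ := weak2 A hε
  refine ⟨C1 + C2, 100 + a, by positivity, ?_⟩
  intro σ N T κ V b W hσ hσ1 hN hT hκ hV hLV
  have hN' : (1 : ℝ) ≤ N := by exact_mod_cast hN
  have hT0 : 0 ≤ T := by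
    rcases hT with h | h
    · linarith [h.1]
    · exact le_trans (by positivity) h.1
  have hp : 0 ≤ T ^ (2 - 2 * σ + ε) := Real.rpow_nonneg hT0 _
  have k1 : κ ^ 100 ≤ κ ^ (100 + a) := pow_le_pow_right₀ hκ (by omega)
  have k2 : κ ^ a ≤ κ ^ (100 + a) := pow_le_pow_right₀ hκ (by omega)
  have k0 : 0 ≤ κ ^ (100 + a) := by positivity
  rcases hT with h | h
  · refine (H1 σ N T κ V b W hσ hσ1 hN h.1 h.2 hκ hV hLV).trans ?_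
    refine mul_le_mul_of_nonneg_right ?_ hp
    nlinarith [mul_le_mul_of_nonneg_left k1 h1, mul_nonneg h2 k0]
  · refine (H2 σ N T κ V b W hσ hσ1 hN h.1 h.2 hκ hV hLV).trans ?_
    refine mul_le_mul_of_nonneg_right ?_ hp
    nlinarith [mul_le_mul_of_nonneg_left k2 h2, mul_nonneg h1 k0]

end Pool.Agent.Lib.MP_ecd12e_nt.DH
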