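import Pool.Agent.Lib.MP_ecd12e_nt.DH.Mom
import Pool.Agent.Lib.MP_ecd12e_nt.DH.Boot

/-!
Three bounds for the dual sum.
-/

set_option autoImplicit false

namespace Pool.Agent.Lib.MP_ecd12e_nt.DH

open Finset Real MeasureTheory
open Pool.Agent.Lib.MP_ecd12e_nt.Bar (ei)
open Pool.Agent.Lib.MP_ecd12e_nt.Sch

/-- The trivial bound for a Dirichlet polynomial. -/
lemma kr_dp_le (I : Finset ℕ) {d : ℕ → ℂ} (hd : ∀ m, ‖d m‖ ≤ 1) (t : ℝ) :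
    ‖dp I d t‖ ≤ I.card := by
  unfold dp
  refine (norm_sum_le _ _).trans ?_
  calc ∑ m ∈ I, ‖d m * ei (t * Real.log m)‖ ≤ ∑ _m ∈ I, (1 : ℝ) :=
        sum_le_sum fun m _ => by rw [norm_mul, Bar.norm_ei, mul_one]; exact hd m
    _ = _ := by simp

theorem kr_sup {w : ℝ → ℝ} (h : Sm w) :
    ∃ C : ℝ, 0 ≤ C ∧ ∀ (N M : ℕ) (T P : ℝ) (t : ℤ), 1 ≤ N → 1 ≤ M → Loss T P → (M : ℝ) ≤ T →
      ‖kr w N M t‖ ^ 2 ≤ C * P ^ 2 * (N * M) := by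
  obtain ⟨C, hC, hm⟩ := kr_mom h
  refine ⟨4 * C ^ 2, by positivity, fun N M T P t hN hM hL hMT => ?_⟩
  have h1 := hm N M 2 T P (4 * M) Unit {()} (fun _ => t) hN hM (by norm_num) hL hMT
    (by positivity) (fun Q I d hQ hQM hI hd => by
      rw [sum_singleton, Real.sq_sqrt (by linarith)]
      have h2 : ‖dp I d t‖ ≤ 2 * Q := (kr_dp_le I hd t).trans (hI.card_le (by linarith) (by norm_num))
      calc ‖dp I d t‖ ^ 2 ≤ (2 * Q) ^ 2 := pow_le_pow_left₀ (norm_nonneg _) h2 2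
        _ = Q * (4 * Q) := by ring
        _ ≤ Q * (4 * M) := by gcongr)
  rw [sum_singleton, mul_pow, mul_pow, Real.sq_sqrt (Nat.cast_nonneg N)] at h1
  calc _ ≤ _ := h1
    _ = _ := by ring

theorem kr_hs {w : ℝ → ℝ} (h : Sm w) :
    ∃ C : ℝ, 0 ≤ C ∧ ∀ (N M : ℕ) (T P H Y : ℝ) (D : Finset ℤ), 1 ≤ N → 1 ≤ M → Loss T P →
      (M : ℝ) ≤ Y → Y ≤ T → 1 ≤ H → H ^ 2 ≤ Y ^ 3 → InR D H →
      ∑ t ∈ D, ∑ s ∈ D, ‖kr w N M (t - s)‖ ^ 2 ≤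
        C * P ^ 8 * (N * ((D.card : ℝ) ^ 2 + D.card * Y)) := by
  obtain ⟨C, hC, hm⟩ := kr_mom h
  refine ⟨1000 * C ^ 2, by positivity, fun N M T P H Y D hN hM hL hMY hYT hH hHY hD => ?_⟩
  have hP := hL.one_le
  have hY : 0 ≤ Y := (Nat.cast_nonneg M).trans hMY
  have h1 := hm N M 2 T P (1000 * P ^ 6 * ((D.card : ℝ) ^ 2 + D.card * Y)) (ℤ × ℤ) (D ×ˢ D)
    (fun p => p.1 - p.2) hN hM (by norm_num) hL (hMY.trans hYT) (by positivity)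
    (fun Q I d hQ hQM hI hd => by
      rw [sum_product, Real.sq_sqrt (by linarith)]
      have h2 := swap_le D I d (D := 1) (fun n _ => hd n)
      have h3 := boot hL hH hHY hY hYT hD (L := Q) (by linarith) (hQM.trans hMY) hI
      unfold ds at h3
      unfold dp
      calc _ ≤ _ := h2
        _ ≤ 1 ^ 2 * (1000 * P ^ 6 * Q * ((D.card : ℝ) ^ 2 + D.card * Y)) := by gcongr
        _ = _ := by ring)
  rw [sum_product, mul_pow, mul_pow, Real.sq_sqrt (Nat.cast_nonneg N)] at h1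
  calc _ ≤ _ := h1
    _ = _ := by ring

theorem kr_four {w : ℝ → ℝ} (h : Sm w) :
    ∃ C : ℝ, 0 ≤ C ∧ ∀ (N M : ℕ) (T P H : ℝ) (D : Finset ℤ), 1 ≤ N → 1 ≤ M → Loss T P →
      (M : ℝ) ≤ T → 0 ≤ H → InR D H →
      ∑ t ∈ D, ‖kr w N M t‖ ^ 4 ≤ C * P ^ 9 * ((N : ℝ) ^ 2 * (H + (M : ℝ) ^ 2)) := by
  obtain ⟨C, hC, hm⟩ := kr_mom h
  refine ⟨500 * C ^ 4, by positivity, fun N M T P H D hN hM hL hMT hH hD => ?_⟩
  have hP := hL.one_le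
  have h1 := hm N M 4 T P (500 * P ^ 5 * (H + (M : ℝ) ^ 2)) ℤ D (fun t => t) hN hM (by norm_num) hL
    hMT (by positivity) (fun Q I d hQ hQM hI hd => by
      refine (m4 hL hQ (hQM.trans hMT) hI hd hH hD).trans ?_
      gcongr)
  have h2 : √(N : ℝ) ^ 4 = (N : ℝ) ^ 2 := by
    rw [show 4 = 2 * 2 from rfl, pow_mul, Real.sq_sqrt (Nat.cast_nonneg N)]
  rw [mul_pow, mul_pow, h2] at h1
  calc _ ≤ _ := h1
    _ = _ := by ring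

theorem kr_eight {w : ℝ → ℝ} (h : Sm w) :
    ∃ C : ℝ, 0 ≤ C ∧ ∀ (N M : ℕ) (T P H : ℝ) (D : Finset ℤ), 1 ≤ N → 1 ≤ M → Loss T P →
      (M : ℝ) ≤ T → 0 ≤ H → InR D H →
      ∑ t ∈ D, ‖kr w N M t‖ ^ 8 ≤ C * P ^ 17 * ((N : ℝ) ^ 4 * (H + (M : ℝ) ^ 4)) := by
  obtain ⟨C, hC, hm⟩ := kr_mom h
  refine ⟨2000 * C ^ 8, by positivity, fun N M T P H D hN hM hL hMT hH hD => ?_⟩
  have hP := hL.one_le
  have h1 := hm N M 8 T P (2000 * P ^ 9 * (H + (M : ℝ) ^ 4)) ℤ D (fun t => t) hN hM (by norm_num) hL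
    hMT (by positivity) (fun Q I d hQ hQM hI hd => by
      refine (m8 hL hQ (hQM.trans hMT) hI hd hH hD).trans ?_
      gcongr)
  have h2 : √(N : ℝ) ^ 8 = (N : ℝ) ^ 4 := by
    rw [show 8 = 2 * 4 from rfl, pow_mul, Real.sq_sqrt (Nat.cast_nonneg N)]
  rw [mul_pow, mul_pow, h2] at h1
  calc _ ≤ _ := h1
    _ = _ := by ring

end Pool.Agent.Lib.MP_ecd12e_nt.DH
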