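import Pool.Agent.Lib.MP_ecd12e_nt.DH.Refl

/-!
Moments of the dual sum.
-/

set_option autoImplicit false

namespace Pool.Agent.Lib.MP_ecd12e_nt.DH

open Finset Real MeasureTheory
open Pool.Agent.Lib.MP_ecd12e_nt.Bar (ei)
open Pool.Agent.Lib.MP_ecd12e_nt.Sch

lemma mom_young {x y : ℝ} (hx : 0 ≤ x) (hy : 0 ≤ y) (j : ℕ) :
    (j + 1) * (x ^ j * y) ≤ j * x ^ (j + 1) + y ^ (j + 1) := by
  induction j with
  | zero => simp
  | succ j ih =>
    have h1 : 0 ≤ (x - y) * (x ^ (j + 1) - y ^ (j + 1)) := by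
      rcases le_total x y with h | h
      · exact mul_nonneg_of_nonpos_of_nonpos (sub_nonpos.2 h)
          (sub_nonpos.2 (pow_le_pow_left₀ hx h _))
      · exact mul_nonneg (sub_nonneg.2 h) (sub_nonneg.2 (pow_le_pow_left₀ hy h _))
    have h2 := mul_le_mul_of_nonneg_left ih hx
    push_cast
    simp only [pow_succ] at h1 h2 ⊢
    linarith

theorem kr_mom {w : ℝ → ℝ} (h : Sm w) :
    ∃ C : ℝ, 0 ≤ C ∧ ∀ (N M k : ℕ) (T P B : ℝ) (ι : Type) (S : Finset ι) (u : ι → ℤ),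
      1 ≤ N → 1 ≤ M → 1 ≤ k → Loss T P → (M : ℝ) ≤ T → 0 ≤ B →
      (∀ (Q : ℝ) (I : Finset ℕ) (d : ℕ → ℂ), 1 ≤ Q → Q ≤ M → InI I Q 2 → (∀ m, ‖d m‖ ≤ 1) →
        ∑ i ∈ S, ‖dp I d (u i)‖ ^ k ≤ √Q ^ k * B) →
      ∑ i ∈ S, ‖kr w N M (u i)‖ ^ k ≤ (C * P * √(N : ℝ)) ^ k * B := by
  obtain ⟨C, hC, hr⟩ := refl h
  refine ⟨2 * (C + 1), by positivity, fun N M k T P B ι S u hN hM hk hP hMT hB H => ?_⟩
  obtain ⟨j, rfl⟩ : ∃ j, k = j + 1 := ⟨k - 1, by omega⟩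
  have hP1 := hP.one_le
  have hN' : 0 < √(N : ℝ) := Real.sqrt_pos.2 (by exact_mod_cast hN)
  set c := 2 * (C + 1) * P * √(N : ℝ) with hc
  set X := ∑ i ∈ S, ‖kr w N M (u i)‖ ^ (j + 1) with hX
  have hX0 : 0 ≤ X := sum_nonneg fun _ _ => by positivity
  have hc0 : 0 < c := by positivity
  set Z := (j * X + c ^ (j + 1) * B) / (j + 1) with hZ
  have hZ0 : 0 ≤ Z := by positivity
  have blkle : ∀ q ∈ ({1, -1} : Finset ℝ) ×ˢ range (Nat.log 2 M + 1),
      ∑ i ∈ S, ‖kr w N M (u i)‖ ^ j * ‖blk w N q.1 (dy M q.2) (u i)‖ ≤ Z / (2 * P) := by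
    rintro ⟨s, e⟩ hq
    obtain ⟨hs, he⟩ := mem_product.1 hq
    have hQ1 : (1 : ℝ) ≤ 2 ^ e := one_le_pow₀ one_le_two
    have hQM : (2 : ℝ) ^ e ≤ M := by
      exact_mod_cast (Nat.pow_le_pow_right two_pos (Nat.lt_succ_iff.1 (mem_range.1 he))).trans
        (Nat.pow_log_le_self 2 (by omega))
    have hI := inI_dy M e
    generalize (2 : ℝ) ^ e = Q at hQ1 hQM hI
    have hQ : 0 < √Q := Real.sqrt_pos.2 (by linarith)
    refine (hr N Q s (Z * √Q / c) (dy M e) ι S u (fun i => ‖kr w N M (u i)‖ ^ j) hN (by linarith) hI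
      (by simpa using hs) (fun _ _ => by positivity) fun d hd => ?_).trans ?_
    · have h1 := H Q (dy M e) d hQ1 hQM hI hd
      have h2 : ∑ i ∈ S, (j + 1 : ℝ) * (‖kr w N M (u i)‖ ^ j * (c / √Q * ‖dp (dy M e) d (u i)‖)) ≤
          j * X + (c / √Q) ^ (j + 1) * ∑ i ∈ S, ‖dp (dy M e) d (u i)‖ ^ (j + 1) := by
        rw [hX, mul_sum, mul_sum, ← sum_add_distrib]
        refine sum_le_sum fun i _ => (mom_young (norm_nonneg _) (by positivity) j).trans ?_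
        rw [mul_pow]
      have h3 : (c / √Q) ^ (j + 1) * ∑ i ∈ S, ‖dp (dy M e) d (u i)‖ ^ (j + 1) ≤ c ^ (j + 1) * B := by
        refine (mul_le_mul_of_nonneg_left h1 (by positivity)).trans (le_of_eq ?_)
        rw [← mul_assoc, ← mul_pow, div_mul_cancel₀ _ hQ.ne']
      have h4 : ∑ i ∈ S, (j + 1 : ℝ) * (‖kr w N M (u i)‖ ^ j * (c / √Q * ‖dp (dy M e) d (u i)‖)) =
          (j + 1) * (c / √Q) * ∑ i ∈ S, ‖kr w N M (u i)‖ ^ j * ‖dp (dy M e) d (u i)‖ := by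
        rw [mul_sum]
        exact sum_congr rfl fun i _ => by ring
      refine le_of_mul_le_mul_left ?_ (show 0 < (j + 1 : ℝ) * (c / √Q) by positivity)
      rw [← h4]
      refine (h2.trans (add_le_add le_rfl h3)).trans (le_of_eq ?_)
      rw [hZ]
      field_simp
    · rw [Real.sqrt_div (Nat.cast_nonneg N)]
      calc C * (√(N : ℝ) / √Q) * (Z * √Q / c) ≤ (C + 1) * (√(N : ℝ) / √Q) * (Z * √Q / c) := by
            gcongr
            linarith
        _ = _ := by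
            rw [hc]
            field_simp
  have h1 : X ≤ ∑ q ∈ ({1, -1} : Finset ℝ) ×ˢ range (Nat.log 2 M + 1),
      ∑ i ∈ S, ‖kr w N M (u i)‖ ^ j * ‖blk w N q.1 (dy M q.2) (u i)‖ := by
    rw [sum_comm]
    refine sum_le_sum fun i _ => ?_
    rw [← mul_sum, pow_succ]
    refine mul_le_mul_of_nonneg_left ?_ (by positivity)
    rw [kr_eq]
    exact norm_sum_le _ _
  have h2 := h1.trans (sum_le_card_nsmul _ _ _ blkle)
  rw [card_product, card_range, card_pair (by norm_num), nsmul_eq_mul] at h2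
  have h3 := cube_log hP hM hMT
  have h4 : X ≤ Z := by
    refine h2.trans ?_
    push_cast
    calc _ ≤ 2 * P * (Z / (2 * P)) := by gcongr
      _ = Z := by field_simp
  rw [hZ, le_div_iff₀ (by positivity)] at h4
  linarith

end Pool.Agent.Lib.MP_ecd12e_nt.DH
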