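import Pool.Agent.Lib.MP_ecd12e_nt.DH.Defs

/-!
The second derivative bound for the oscillatory integral.
-/

set_option autoImplicit false

namespace Pool.Agent.Lib.MP_ecd12e_nt.DH

open Finset Real MeasureTheory
open Pool.Agent.Lib.MP_ecd12e_nt.Bar (ei)
open Pool.Agent.Lib.MP_ecd12e_nt.Sch

theorem osc {a b s : ℝ} (ha : 0 < a) (hab : a ≤ b) (hb : b ≤ 10 * a) (hs : s = 1 ∨ s = -1) (t : ℝ) :
    ‖∫ r in a..b, ei (t * Real.log r - 2 * π * s * r)‖ ≤ 12 * √b := by
  have hb0 : 0 < b := ha.trans_le hab
  have hpi := Real.pi_gt_three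
  have hsq : 0 < √b := Real.sqrt_pos.2 hb0
  have hA : |-(2 * π * s)| = 2 * π := by
    rcases hs with rfl | rfl
    · rw [abs_neg, mul_one, abs_of_pos (by positivity)]
    · rw [mul_neg, neg_neg, mul_one, abs_of_pos (by positivity)]
  have hle : ∀ x ∈ Set.Icc (Real.log a) (Real.log b), |Real.exp x| ≤ b := fun x hx => by
    rw [abs_of_pos (Real.exp_pos x)]
    exact (Real.exp_le_exp.2 hx.2).trans_eq (Real.exp_log hb0)
  have h1 := GM.vdc2 (x0 := Real.log a) (x1 := Real.log b) (A := -(2 * π * s)) (B := t) (η := √b)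
    (β0 := b) (β1 := b) (κ0 := b) (φ := fun x => t * x - 2 * π * s * Real.exp x) (k := fun _ => 1)
    (b := Real.exp) (b' := Real.exp) (Real.log_le_log ha hab) hsq
    (fun h => by rw [h, abs_zero] at hA; linarith)
    (fun x _ => (((hasDerivAt_id x).const_mul t).sub
      ((Real.hasDerivAt_exp x).const_mul (2 * π * s))).congr_deriv (by ring))
    continuousOn_const (fun x _ => Real.hasDerivAt_exp x) Real.continuous_exp.continuousOn hle hle
    fun x hx => by simpa only [mul_one] using hle x hx
  have h2 := intervalIntegral.integral_deriv_smul_comp' (a := Real.log a) (b := Real.log b)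
    (f := Real.exp) (f' := Real.exp) (g := fun r => ei (t * Real.log r - 2 * π * s * r))
    (fun x _ => Real.hasDerivAt_exp x) Real.continuous_exp.continuousOn (by
      refine continuous_ei.comp_continuousOn (ContinuousOn.sub (continuousOn_const.mul
        (Real.continuousOn_log.mono ?_)) (by fun_prop))
      rintro _ ⟨x, -, rfl⟩
      exact (Real.exp_pos x).ne')
  rw [Real.exp_log ha, Real.exp_log hb0] at h2
  rw [← h2]
  simp only [Function.comp_apply, Real.log_exp, Complex.real_smul]
  simp only [mul_one] at h1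
  refine h1.trans ?_
  rw [hA, Real.exp_log ha]
  have h3 : Real.log b - Real.log a ≤ 5 / 2 := by
    rw [← Real.log_div hb0.ne' ha.ne', Real.log_le_iff_le_exp (by positivity)]
    have h4 : b / a ≤ 10 := (div_le_iff₀ ha).2 hb
    have h5 := Real.sum_le_exp_of_nonneg (x := 5 / 2) (by norm_num) 6
    norm_num [Finset.sum_range_succ, Nat.factorial] at h5
    linarith
  have h4 : (6 * b + b * (Real.log b - Real.log a)) / √b ≤ 17 / 2 * √b := by
    rw [div_le_iff₀ hsq, mul_assoc, Real.mul_self_sqrt hb0.le]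
    nlinarith
  have h5 : b * (2 * √b / (2 * π * a)) ≤ 7 / 2 * √b := by
    rw [← mul_div_assoc, div_le_iff₀ (by positivity)]
    have h6 : b * 2 ≤ 7 / 2 * (2 * π * a) := by nlinarith
    nlinarith
  linarith

end Pool.Agent.Lib.MP_ecd12e_nt.DH
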