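import Pool.Agent.Lib.MP_ecd12e_nt.DH.Dual

/-!
Powers of Dirichlet polynomials.
-/

set_option autoImplicit false

namespace Pool.Agent.Lib.MP_ecd12e_nt.DH

open Finset Real MeasureTheory
open Pool.Agent.Lib.MP_ecd12e_nt.Bar (ei)
open Pool.Agent.Lib.MP_ecd12e_nt.Sch

/-- The product of two Dirichlet polynomials. -/
lemma pow_prod {A B a b x y P : ℝ} (hA : 0 < A) (hB : 0 < B) (hx : 0 ≤ x)
    (hy : 0 ≤ y) (hP : 0 ≤ P) {I I' : Finset ℕ} (hI : InI I A a) (hI' : InI I' B b)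
    {d d' : ℕ → ℂ} (hd : ∀ m, ‖d m‖ ≤ x) (hd' : ∀ m, ‖d' m‖ ≤ y)
    (hτ : TauLe (a * b * (A * B)) P) :
    ∃ (J : Finset ℕ) (c : ℕ → ℂ), InI J (A * B) (a * b) ∧ (∀ n, ‖c n‖ ≤ x * y * P) ∧
      ∀ t : ℝ, dp I d t * dp I' d' t = dp J c t := by
  have hpos : ∀ m ∈ I, 0 < m := fun m hm => by exact_mod_cast hA.trans_le (hI m hm).1
  have hpos' : ∀ m ∈ I', 0 < m := fun m hm => by exact_mod_cast hB.trans_le (hI' m hm).1
  have hJ : InI ((I ×ˢ I').image fun p => p.1 * p.2) (A * B) (a * b) := fun n hn => by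
    obtain ⟨p, hp, rfl⟩ := mem_image.1 hn
    obtain ⟨a1, a2⟩ := hI _ (mem_product.1 hp).1
    obtain ⟨b1, b2⟩ := hI' _ (mem_product.1 hp).2
    push_cast
    exact ⟨mul_le_mul a1 b1 hB.le (hA.le.trans a1),
      by linarith [mul_le_mul a2 b2 (hB.le.trans b1) ((hA.le.trans a1).trans a2)]⟩
  refine ⟨(I ×ˢ I').image fun p => p.1 * p.2,
    fun n => ∑ p ∈ (I ×ˢ I').filter fun p => p.1 * p.2 = n, d p.1 * d' p.2, hJ, fun n => ?_,
    fun t => ?_⟩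
  · have h1 : ‖∑ p ∈ (I ×ˢ I').filter fun p => p.1 * p.2 = n, d p.1 * d' p.2‖ ≤
        (((I ×ˢ I').filter fun p => p.1 * p.2 = n).card : ℝ) * (x * y) := by
      refine (norm_sum_le _ _).trans ?_
      rw [← nsmul_eq_mul]
      refine sum_le_card_nsmul _ _ _ fun p _ => ?_
      rw [norm_mul]
      exact mul_le_mul (hd _) (hd' _) (norm_nonneg _) hx
    refine h1.trans ?_
    rw [mul_comm]
    refine mul_le_mul_of_nonneg_left ?_ (mul_nonneg hx hy)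
    by_cases hn : n ∈ (I ×ˢ I').image fun p => p.1 * p.2
    · have h2 := hJ n hn
      have h3 : n ≠ 0 := by exact_mod_cast ((mul_pos hA hB).trans_le h2.1).ne'
      refine le_trans ?_ (hτ n h3 h2.2)
      refine Nat.cast_le.2 (card_le_card_of_injOn (fun p => p.1) (fun p hp => ?_)
        fun p hp q hq e => ?_)
      · exact mem_coe.2 (Nat.mem_divisors.2 ⟨Dvd.intro _ (mem_filter.1 hp).2, h3⟩)
      · refine Prod.ext e (Nat.eq_of_mul_eq_mul_left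
          (hpos _ (mem_product.1 (mem_filter.1 hp).1).1) ?_)
        rw [(mem_filter.1 hp).2, show p.1 = q.1 from e, (mem_filter.1 hq).2]
    · rw [filter_eq_empty_iff.2 fun p hp e => hn (mem_image.2 ⟨p, hp, e⟩)]
      simpa using hP
  · unfold dp
    rw [sum_mul_sum, ← sum_product',
      ← sum_fiberwise_of_maps_to (s := I ×ˢ I') (t := (I ×ˢ I').image fun p => p.1 * p.2)
        (g := fun p => p.1 * p.2) fun p hp => mem_image_of_mem _ hp]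
    refine sum_congr rfl fun n _ => ?_
    rw [sum_mul]
    refine sum_congr rfl fun p hp => ?_
    obtain ⟨h1, h2⟩ := mem_filter.1 hp
    rw [← h2, Nat.cast_mul, Real.log_mul (Nat.cast_ne_zero.2 (hpos _ (mem_product.1 h1).1).ne')
      (Nat.cast_ne_zero.2 (hpos' _ (mem_product.1 h1).2).ne'), mul_add, Bar.ei_add]
    ring

theorem dp_pow {Q P : ℝ} (hQ : 0 < Q) (hP : 1 ≤ P) {I : Finset ℕ} (hI : InI I Q 2) {d : ℕ → ℂ}
    (hd : ∀ m, ‖d m‖ ≤ 1) {k : ℕ} (hk : 1 ≤ k) (hτ : TauLe ((2 * Q) ^ k) P) :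
    ∃ (J : Finset ℕ) (c : ℕ → ℂ), InI J (Q ^ k) (2 ^ k) ∧ (∀ n, ‖c n‖ ≤ P ^ k) ∧
      ∀ t : ℝ, dp I d t ^ k = dp J c t := by
  have hP0 : 0 ≤ P := by linarith
  rcases lt_or_ge (2 * Q) 1 with hlt | hge
  · have hI0 : I = ∅ := by
      refine eq_empty_of_forall_notMem fun m hm => ?_
      obtain ⟨a1, a2⟩ := hI m hm
      have h1 : 0 < m := by exact_mod_cast hQ.trans_le a1
      have h2 : (1 : ℝ) ≤ m := by exact_mod_cast h1
      linarith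
    refine ⟨∅, fun _ => 0, fun n hn => absurd hn (notMem_empty n), fun _ => by
      simpa using pow_nonneg hP0 k, fun t => ?_⟩
    simp [hI0, dp, show k ≠ 0 by omega]
  · induction k, hk using Nat.le_induction with
    | base =>
      exact ⟨I, d, by simpa using hI, fun n => by simpa using (hd n).trans hP, fun t => by simp⟩
    | succ k hk ih =>
      obtain ⟨J, c, h1, h2, h3⟩ := ih (hτ.mono (pow_le_pow_right₀ hge (by omega)))
      obtain ⟨J', c', g1, g2, g3⟩ := pow_prod (pow_pos hQ k) hQ (pow_nonneg hP0 k) zero_le_one hP0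
        h1 hI h2 hd (hτ.mono (le_of_eq (by rw [mul_pow]; ring)))
      refine ⟨J', c', by simpa [pow_succ] using g1, fun n => by simpa [pow_succ] using g2 n,
        fun t => ?_⟩
      rw [pow_succ, h3, g3]

/-- The `2 k`-th moment for `k ≤ 4`. -/
lemma pow_mom {T P Q H : ℝ} (h : Loss T P) (hQ : 1 ≤ Q) (hQT : Q ≤ T) {I : Finset ℕ}
    (hI : InI I Q 2) {d : ℕ → ℂ} (hd : ∀ m, ‖d m‖ ≤ 1) (hH : 0 ≤ H) {K : Finset ℤ} (hK : InR K H)
    {j : ℕ} (h1 : 1 ≤ j) (h4 : j ≤ 4) :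
    ∑ k ∈ K, ‖dp I d k‖ ^ (j * 2) ≤ 113 * P * (H + Q ^ j) * (2 ^ j * Q ^ j * (P ^ j) ^ 2) := by
  have hP := h.one_le
  have hT := h.hT
  have hQ0 : 0 < Q := by linarith
  have e1 : Q ^ j ≤ T ^ 4 :=
    (pow_le_pow_left₀ hQ0.le hQT j).trans (pow_le_pow_right₀ hT h4)
  have e2 : (2 : ℝ) ^ j ≤ 16 := (pow_le_pow_right₀ one_le_two h4).trans (by norm_num)
  have e3 : 0 < Q ^ j := pow_pos hQ0 j
  obtain ⟨J, c, g1, g2, g3⟩ := dp_pow hQ0 hP hI hd h1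
    (h.tau.mono (by rw [mul_pow]; exact mul_le_mul e2 e1 e3.le (by norm_num)))
  have e4 := mv h (one_le_pow₀ hQ (n := j)) (by nlinarith [pow_pos (show 0 < T by linarith) 4])
    (g1.mono e3.le e2) hH hK c
  simp only [← g3, norm_pow, ← pow_mul] at e4
  refine e4.trans (mul_le_mul_of_nonneg_left ?_ (by positivity))
  have e5 : ∑ n ∈ J, ‖c n‖ ^ 2 ≤ J.card * (P ^ j) ^ 2 := by
    rw [← nsmul_eq_mul]
    exact sum_le_card_nsmul _ _ _ fun n _ => pow_le_pow_left₀ (norm_nonneg _) (g2 n) 2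
  exact e5.trans (mul_le_mul_of_nonneg_right (g1.card_le e3 (by positivity)) (sq_nonneg _))

theorem m4 {T P Q H : ℝ} (h : Loss T P) (hQ : 1 ≤ Q) (hQT : Q ≤ T) {I : Finset ℕ} (hI : InI I Q 2)
    {d : ℕ → ℂ} (hd : ∀ m, ‖d m‖ ≤ 1) (hH : 0 ≤ H) {K : Finset ℤ} (hK : InR K H) :
    ∑ k ∈ K, ‖dp I d k‖ ^ 4 ≤ √Q ^ 4 * (500 * P ^ 5 * (H + Q ^ 2)) := by
  have hP := h.one_le
  refine (pow_mom h hQ hQT hI hd hH hK (j := 2) (by norm_num) (by norm_num)).trans ?_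
  have e : √Q ^ 4 = Q ^ 2 := by
    rw [show 4 = 2 * 2 from rfl, pow_mul, Real.sq_sqrt (by linarith)]
  have p : 0 ≤ Q ^ 2 * (P ^ 5 * (H + Q ^ 2)) := by positivity
  rw [e]
  nlinarith

theorem m8 {T P Q H : ℝ} (h : Loss T P) (hQ : 1 ≤ Q) (hQT : Q ≤ T) {I : Finset ℕ} (hI : InI I Q 2)
    {d : ℕ → ℂ} (hd : ∀ m, ‖d m‖ ≤ 1) (hH : 0 ≤ H) {K : Finset ℤ} (hK : InR K H) :
    ∑ k ∈ K, ‖dp I d k‖ ^ 8 ≤ √Q ^ 8 * (2000 * P ^ 9 * (H + Q ^ 4)) := by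
  have hP := h.one_le
  refine (pow_mom h hQ hQT hI hd hH hK (j := 4) (by norm_num) (by norm_num)).trans ?_
  have e : √Q ^ 8 = Q ^ 4 := by
    rw [show 8 = 2 * 4 from rfl, pow_mul, Real.sq_sqrt (by linarith)]
  have p : 0 ≤ Q ^ 4 * (P ^ 9 * (H + Q ^ 4)) := by positivity
  rw [e]
  nlinarith

end Pool.Agent.Lib.MP_ecd12e_nt.DH
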