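import Pool.Agent.Lib.MP_ecd12e_nt.DH.Defs

/-!
The trace inequality.
-/

set_option autoImplicit false

namespace Pool.Agent.Lib.MP_ecd12e_nt.DH

open Finset Real MeasureTheory
open Pool.Agent.Lib.MP_ecd12e_nt.Bar (ei)
open Pool.Agent.Lib.MP_ecd12e_nt.Sch
open scoped ComplexConjugate

theorem proj_bessel {ι n : Type} [Fintype n] [DecidableEq ι] (s : Finset ι) (e : ι → n → ℂ)
    (he : ∀ i ∈ s, ∀ j ∈ s, ∑ k, conj (e i k) * e j k = if i = j then 1 else 0) (x : n → ℂ) :
    ∑ i ∈ s, ‖∑ k, x k * e i k‖ ^ 2 ≤ ∑ k, ‖x k‖ ^ 2 := by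
  have ho : Orthonormal ℂ fun i : s => (WithLp.toLp 2 (e i) : EuclideanSpace ℂ n) := by
    rw [orthonormal_iff_ite]
    intro i j
    rw [PiLp.inner_apply]
    have := he i i.2 j j.2
    simp only [RCLike.inner_apply, Subtype.ext_iff]
    rw [← this]
    exact sum_congr rfl fun k _ => mul_comm _ _
  have h := ho.sum_inner_products_le (s := univ)
    (WithLp.toLp 2 (fun k => conj (x k)) : EuclideanSpace ℂ n)
  rw [EuclideanSpace.norm_sq_eq] at h
  simp only [PiLp.inner_apply, RCLike.inner_apply, Complex.norm_conj] at h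
  rw [← sum_coe_sort s]
  refine le_trans (le_of_eq (sum_congr rfl fun i _ => ?_)) h
  rw [← Complex.norm_conj, map_sum]
  simp only [map_mul]

theorem proj_hs {ι n : Type} [Fintype n] [DecidableEq ι] (s : Finset ι) (e : ι → n → ℂ)
    (he : ∀ i ∈ s, ∀ j ∈ s, ∑ k, conj (e i k) * e j k = if i = j then 1 else 0)
    (X : n → n → ℂ) :
    ∑ i ∈ s, ‖∑ j, ∑ k, conj (e i j) * X j k * e i k‖ ^ 2 ≤ ∑ j, ∑ k, ‖X j k‖ ^ 2 := by
  have h := proj_bessel s (fun i (p : n × n) => conj (e i p.1) * e i p.2) ?_ fun p => X p.1 p.2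
  · simp only [Fintype.sum_prod_type] at h
    refine le_trans (le_of_eq (sum_congr rfl fun i _ => ?_)) h
    congr 2
    exact sum_congr rfl fun j _ => sum_congr rfl fun k _ => by ring
  · intro i hi j hj
    have e1 : ∑ p : n × n, conj (conj (e i p.1) * e i p.2) * (conj (e j p.1) * e j p.2) =
        (∑ k, conj (e j k) * e i k) * ∑ k, conj (e i k) * e j k := by
      rw [Fintype.sum_prod_type, sum_mul_sum]
      refine sum_congr rfl fun a _ => sum_congr rfl fun b _ => ?_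
      simp only [map_mul, Complex.conj_conj]
      ring
    rw [e1, he i hi j hj, he j hj i hi]
    by_cases hij : i = j <;> simp [hij]

theorem proj_sq {T n : Type} [Fintype n] (S : Finset T) (x : T → n → ℂ) (e : n → ℂ) :
    ∑ t ∈ S, ‖∑ k, x t k * e k‖ ^ 2 =
      ‖∑ j, ∑ k, conj (e j) * (∑ t ∈ S, conj (x t j) * x t k) * e k‖ := by
  have e1 : ∑ j, ∑ k, conj (e j) * (∑ t ∈ S, conj (x t j) * x t k) * e k =
      ((∑ t ∈ S, ‖∑ k, x t k * e k‖ ^ 2 : ℝ) : ℂ) := by
    push_cast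
    simp only [← Complex.conj_mul', map_sum, map_mul, mul_sum, sum_mul]
    conv_rhs => rw [sum_comm]
    rw [sum_comm]
    refine sum_congr rfl fun k _ => ?_
    rw [sum_comm]
    refine sum_congr rfl fun t _ => sum_congr rfl fun j _ => by ring
  rw [e1, Complex.norm_real, Real.norm_of_nonneg (by positivity)]

/-- An orthonormal basis `U` in which the vectors `∑ l, v l * U l a` are orthogonal. -/
theorem proj_eig {L n : Type} [Fintype L] [DecidableEq L] [Fintype n] (v : L → n → ℂ) :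
    ∃ (U : L → L → ℂ) (lam : L → ℝ),
      (∀ a b, ∑ l, conj (U l a) * U l b = if a = b then 1 else 0) ∧
      (∀ y : L → ℂ, ∑ l, ‖y l‖ ^ 2 = ∑ a, ‖∑ l, y l * U l a‖ ^ 2) ∧
      ∀ a b, ∑ l, ∑ l', conj (U l a) * (∑ i, conj (v l i) * v l' i) * U l' b =
        if a = b then (lam a : ℂ) else 0 := by
  set A : Matrix L L ℂ := Matrix.of fun l l' => ∑ i, conj (v l i) * v l' i with hAd
  have hA : A.IsHermitian := by
    ext l l'
    simp only [hAd, Matrix.conjTranspose_apply, Matrix.of_apply, RCLike.star_def, map_sum,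
      map_mul, Complex.conj_conj]
    exact sum_congr rfl fun i _ => mul_comm _ _
  obtain ⟨U, l, h1, h2, hU⟩ : ∃ (U : Matrix L L ℂ) (l : L → ℝ), star U * U = 1 ∧ U * star U = 1 ∧
      A = U * Matrix.diagonal (fun i => (l i : ℂ)) * star U := by
    refine ⟨hA.eigenvectorUnitary, hA.eigenvalues, Unitary.coe_star_mul_self _,
      Unitary.coe_mul_star_self _, ?_⟩
    conv_lhs => rw [hA.spectral_theorem, Unitary.conjStarAlgAut_apply]
    rfl
  refine ⟨U, l, fun a b => ?_, fun y => ?_, fun a b => ?_⟩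
  · have := congrFun (congrFun h1 a) b
    simpa only [Matrix.mul_apply, Matrix.star_apply, RCLike.star_def, Matrix.one_apply] using this
  · have hrow : ∀ p q, ∑ a, U p a * conj (U q a) = if p = q then 1 else 0 := fun p q => by
      have := congrFun (congrFun h2 p) q
      simpa only [Matrix.mul_apply, Matrix.star_apply, RCLike.star_def, Matrix.one_apply] using this
    have e1 : ((∑ a, ‖∑ l, y l * U l a‖ ^ 2 : ℝ) : ℂ) =
        ∑ p, ∑ q, y p * conj (y q) * ∑ a, U p a * conj (U q a) := by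
      push_cast
      simp only [← Complex.mul_conj', map_sum, map_mul, mul_sum, sum_mul]
      rw [sum_comm]
      conv_rhs => rw [sum_comm]
      refine sum_congr rfl fun q _ => ?_
      rw [sum_comm]
      exact sum_congr rfl fun p _ => sum_congr rfl fun a _ => by ring
    simp only [hrow, mul_ite, mul_one, mul_zero, sum_ite_eq, mem_univ, if_true,
      Complex.mul_conj'] at e1
    exact_mod_cast e1.symm
  · have e1 : star U * A * U = Matrix.diagonal fun i => (l i : ℂ) := by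
      rw [hU]
      simp only [Matrix.mul_assoc]
      rw [h1, Matrix.mul_one, ← Matrix.mul_assoc, h1, Matrix.one_mul]
    have := congrFun (congrFun e1 a) b
    simp only [Matrix.mul_apply, Matrix.star_apply, RCLike.star_def, Matrix.diagonal_apply, hAd,
      Matrix.of_apply, sum_mul] at this
    rw [← this, sum_comm]

/-- The trace inequality: `E` is any matrix such that the Gram matrix minus `E` is at most `c`. -/
theorem proj_form {T L n : Type} [Fintype L] [DecidableEq L] [Fintype n] (S : Finset T)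
    (x : T → n → ℂ) (v : L → n → ℂ) (E : L → L → ℂ) {c : ℝ} (hc : 0 ≤ c)
    (hE : ∀ y : L → ℂ, (∑ l, ∑ l', conj (y l) * ((∑ i, conj (v l i) * v l' i) - E l l') * y l').re
      ≤ c * ∑ l, ‖y l‖ ^ 2) :
    ∑ t ∈ S, ∑ l, ‖∑ i, x t i * v l i‖ ^ 2 ≤ c * min (∑ t ∈ S, ∑ i, ‖x t i‖ ^ 2)
      (√(Fintype.card L : ℝ) * √(∑ j, ∑ k, ‖∑ t ∈ S, conj (x t j) * x t k‖ ^ 2)) +
      √(∑ j, ∑ k, ‖∑ t ∈ S, conj (x t j) * x t k‖ ^ 2) * √(∑ l, ∑ l', ‖E l l'‖ ^ 2) := by
  obtain ⟨U, lam, h1, h2, h3⟩ := proj_eig v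
  set z : L → n → ℂ := fun a i => ∑ l, v l i * U l a with hz
  have hzz : ∀ a b, ∑ i, conj (z a i) * z b i = if a = b then (lam a : ℂ) else 0 := fun a b => by
    rw [← h3 a b]
    simp only [hz, map_sum, map_mul, mul_sum, sum_mul]
    rw [sum_comm]
    conv_rhs => rw [sum_comm]
    refine sum_congr rfl fun q _ => ?_
    rw [sum_comm]
    exact sum_congr rfl fun p _ => sum_congr rfl fun a _ => by ring
  have hl : ∀ a, ∑ i, ‖z a i‖ ^ 2 = lam a := fun a => by
    have := hzz a a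
    simp only [Complex.conj_mul', if_true] at this
    exact_mod_cast this
  set s : Finset L := univ.filter fun a => 0 < lam a with hs
  set e : L → n → ℂ := fun a i => z a i / (√(lam a) : ℝ) with he
  have hee : ∀ a ∈ s, ∀ b ∈ s, ∑ k, conj (e a k) * e b k = if a = b then 1 else 0 := by
    intro a ha b _
    have e1 : ∑ k, conj (e a k) * e b k =
        (∑ i, conj (z a i) * z b i) / ((√(lam a) * √(lam b) : ℝ) : ℂ) := by
      rw [sum_div]
      refine sum_congr rfl fun i _ => ?_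
      simp only [he, map_div₀, Complex.conj_ofReal]
      push_cast
      ring
    rw [e1, hzz]
    split_ifs with hab
    · have h0 := (mem_filter.1 ha).2
      rw [← hab, Real.mul_self_sqrt h0.le]
      exact div_self (by exact_mod_cast h0.ne')
    · simp
  set b : L → ℝ := fun a => ∑ t ∈ S, ‖∑ i, x t i * e a i‖ ^ 2 with hb
  set ε : L → ℝ := fun a => ‖∑ l, ∑ l', conj (U l a) * E l l' * U l' a‖ with hε
  have hS : ∑ t ∈ S, ∑ l, ‖∑ i, x t i * v l i‖ ^ 2 = ∑ a ∈ s, lam a * b a := by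
    have e1 : ∀ t, ∑ l, ‖∑ i, x t i * v l i‖ ^ 2 = ∑ a, ‖∑ i, x t i * z a i‖ ^ 2 := fun t => by
      rw [h2]
      refine sum_congr rfl fun a _ => ?_
      congr 2
      simp only [hz, mul_sum, sum_mul]
      rw [sum_comm]
      exact sum_congr rfl fun p _ => sum_congr rfl fun a _ => by ring
    simp only [e1]
    rw [sum_comm, hs, sum_filter]
    refine sum_congr rfl fun a _ => ?_
    split_ifs with ha
    · rw [hb, mul_sum]
      refine sum_congr rfl fun t _ => ?_
      have e2 : ∑ i, x t i * e a i = (∑ i, x t i * z a i) / (√(lam a) : ℝ) := by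
        rw [sum_div]
        exact sum_congr rfl fun i _ => by simp only [he]; ring
      rw [e2, norm_div, div_pow, Complex.norm_real, Real.norm_of_nonneg (Real.sqrt_nonneg _),
        Real.sq_sqrt ha.le]
      field_simp
    · have h0 : ∑ i, ‖z a i‖ ^ 2 = 0 :=
        le_antisymm (by rw [hl]; exact not_lt.1 ha) (by positivity)
      have h4 : ∀ i, z a i = 0 := fun i => by
        have := (sum_eq_zero_iff_of_nonneg fun i _ => sq_nonneg ‖z a i‖).1 h0 i (mem_univ i)
        simpa using this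
      simp [h4]
  have hlam : ∀ a, lam a ≤ c + ε a := fun a => by
    have h4 := hE fun l => U l a
    have h5 : ∑ l, ‖U l a‖ ^ 2 = 1 := by
      have := h1 a a
      simp only [Complex.conj_mul', if_true] at this
      exact_mod_cast this
    have h6 := h3 a a
    simp only [mul_sub, sub_mul, sum_sub_distrib] at h4
    rw [h6, h5, if_pos rfl, Complex.sub_re, Complex.ofReal_re] at h4
    have h7 := Complex.re_le_norm (∑ l, ∑ l', conj (U l a) * E l l' * U l' a)
    simp only [hε]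
    linarith
  have hb0 : ∀ a, 0 ≤ b a := fun a => by positivity
  have hb1 : ∑ a ∈ s, b a ≤ ∑ t ∈ S, ∑ i, ‖x t i‖ ^ 2 := by
    rw [hb, sum_comm]
    exact sum_le_sum fun t _ => proj_bessel s e hee (x t)
  have hb2 : ∑ a ∈ s, b a ^ 2 ≤ ∑ j, ∑ k, ‖∑ t ∈ S, conj (x t j) * x t k‖ ^ 2 := by
    simp only [hb, proj_sq]
    exact proj_hs s e hee _
  have hb3 : ∑ a ∈ s, b a ≤ √(Fintype.card L : ℝ) *
      √(∑ j, ∑ k, ‖∑ t ∈ S, conj (x t j) * x t k‖ ^ 2) := by
    have h4 := Real.sum_mul_le_sqrt_mul_sqrt s (fun _ => (1 : ℝ)) b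
    simp only [one_mul, one_pow, sum_const, nsmul_eq_mul, mul_one] at h4
    refine h4.trans ?_
    have h5 : (s.card : ℝ) ≤ Fintype.card L := by exact_mod_cast card_le_univ s
    gcongr
  have hε2 : ∑ a ∈ s, ε a ^ 2 ≤ ∑ l, ∑ l', ‖E l l'‖ ^ 2 :=
    proj_hs s (fun a l => U l a) (fun a _ b _ => h1 a b) E
  have hcs : ∑ a ∈ s, b a * ε a ≤ √(∑ a ∈ s, b a ^ 2) * √(∑ a ∈ s, ε a ^ 2) :=
    Real.sum_mul_le_sqrt_mul_sqrt s b ε
  calc _ = ∑ a ∈ s, lam a * b a := hS
    _ ≤ ∑ a ∈ s, (c * b a + b a * ε a) := sum_le_sum fun a _ => by nlinarith [hlam a, hb0 a]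
    _ = c * ∑ a ∈ s, b a + ∑ a ∈ s, b a * ε a := by rw [sum_add_distrib, mul_sum]
    _ ≤ _ := by
      refine add_le_add (mul_le_mul_of_nonneg_left (le_min hb1 hb3) hc) (hcs.trans ?_)
      gcongr

theorem proj {α β γ : Type} (D : Finset α) (J : Finset β) (W : Finset γ) (e : α → β → ℂ)
    (x : γ → β → ℂ) (E : α → α → ℂ) {A0 : ℝ} (hA : 0 ≤ A0)
    (h : ∀ y : α → ℂ, ∑ n ∈ J, ‖∑ l ∈ D, y l * (starRingEnd ℂ) (e l n)‖ ^ 2 ≤
      (∑ l ∈ D, ∑ l' ∈ D, (starRingEnd ℂ) (y l) * E l l' * y l').re + A0 * ∑ l ∈ D, ‖y l‖ ^ 2) :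
    ∑ t ∈ W, ∑ l ∈ D, ‖∑ n ∈ J, e l n * x t n‖ ^ 2 ≤
      A0 * min (∑ t ∈ W, ∑ n ∈ J, ‖x t n‖ ^ 2)
        (√(D.card : ℝ) * √(∑ n ∈ J, ∑ n' ∈ J, ‖∑ t ∈ W, x t n * (starRingEnd ℂ) (x t n')‖ ^ 2)) +
      √(∑ n ∈ J, ∑ n' ∈ J, ‖∑ t ∈ W, x t n * (starRingEnd ℂ) (x t n')‖ ^ 2) *
        √(∑ l ∈ D, ∑ l' ∈ D, ‖E l l'‖ ^ 2) := by
  classical
  have h1 := proj_form (L := D) (n := J) W (fun t i => x t i) (fun l i => e l i)
    (fun l l' => conj (E l l')) hA fun y => ?_
  · have e1 : ∀ n n', ‖∑ t ∈ W, x t n * conj (x t n')‖ = ‖∑ t ∈ W, conj (x t n) * x t n'‖ :=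
      fun n n' => by
        rw [← Complex.norm_conj, map_sum]
        simp only [map_mul, Complex.conj_conj]
    simp only [Complex.norm_conj, Fintype.card_coe] at h1
    simp only [e1, mul_comm (e _ _), ← sum_coe_sort D, ← sum_coe_sort J]
    exact h1
  · have h2 := h fun l => if h : l ∈ D then conj (y ⟨l, h⟩) else 0
    simp only [← sum_coe_sort D, ← sum_coe_sort J, coe_mem, dite_true, Subtype.coe_eta,
      Complex.norm_conj, Complex.conj_conj] at h2
    have e1 : ∑ l : D, ∑ l' : D, conj (y l) * (∑ i : J, conj (e l i) * e l' i) * y l' =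
        ((∑ i : J, ‖∑ l : D, conj (y l) * conj (e l i)‖ ^ 2 : ℝ) : ℂ) := by
      push_cast
      simp only [← Complex.mul_conj', map_sum, map_mul, Complex.conj_conj, mul_sum, sum_mul]
      conv_rhs => rw [sum_comm]
      rw [sum_comm]
      refine sum_congr rfl fun l' _ => ?_
      rw [sum_comm]
      exact sum_congr rfl fun i _ => sum_congr rfl fun l _ => by ring
    have e2 : ∑ l : D, ∑ l' : D, conj (y l) * conj (E l l') * y l' =
        conj (∑ l : D, ∑ l' : D, y l * E l l' * conj (y l')) := by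
      simp only [map_sum, map_mul, Complex.conj_conj]
    simp only [mul_sub, sub_mul, sum_sub_distrib]
    rw [Complex.sub_re, e1, e2, Complex.ofReal_re, Complex.conj_re]
    linarith

end Pool.Agent.Lib.MP_ecd12e_nt.DH
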