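import Pool.Agent.Lib.MP_ecd12e_nt.DH.Fin

/-!
The bound for well spaced real points.
-/

set_option autoImplicit false

namespace Pool.Agent.Lib.MP_ecd12e_nt.DH

open Finset Real
open Pool.Agent.Lib.MP_ecd12e_nt.Bar
open Pool.Agent.Lib.MP_ecd12e_nt.GM (DD)
open Pool.Agent.Lib.MP_ecd12e_nt.Sch (LV)

/-- the coefficients of the `j`-th derivative -/
noncomputable def rl_b (N : ℕ) (b : ℕ → ℂ) (j n : ℕ) : ℂ :=
  if n ∈ Icc N (2 * N) then b n * ((log ((n : ℝ) / N) : ℝ) * Complex.I) ^ j else 0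

lemma rl_log {N n : ℕ} (hN : 1 ≤ N) (hn : n ∈ Icc N (2 * N)) : |log ((n : ℝ) / N)| ≤ 1 := by
  have h := mem_Icc.1 hn
  have hN' : (0 : ℝ) < N := by exact_mod_cast hN
  have h1 : (1 : ℝ) ≤ n / N := by
    rw [le_div_iff₀ hN', one_mul]
    exact_mod_cast h.1
  have h2 : (n : ℝ) / N ≤ 2 := by
    rw [div_le_iff₀ hN']
    exact_mod_cast h.2
  rw [abs_of_nonneg (log_nonneg h1)]
  linarith [log_le_sub_one_of_pos (x := (n : ℝ) / N) (by linarith)]

lemma rl_b_le {N : ℕ} (hN : 1 ≤ N) {b : ℕ → ℂ} (hb : ∀ n, ‖b n‖ ≤ 1) (j n : ℕ) :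
    ‖rl_b N b j n‖ ≤ 1 := by
  unfold rl_b
  split_ifs with h
  · rw [norm_mul, norm_pow, norm_mul, Complex.norm_I, mul_one, Complex.norm_real, Real.norm_eq_abs]
    exact mul_le_one₀ (hb n) (by positivity) (pow_le_one₀ (abs_nonneg _) (rl_log hN h))
  · simp

lemma rl_hasSum (N : ℕ) (b : ℕ → ℂ) (k : ℤ) (s : ℝ) :
    HasSum (fun j : ℕ => ((s ^ j / j.factorial : ℝ) : ℂ) * DD N (rl_b N b j) k)
      (∑ n ∈ Icc N (2 * N), b n * ei ((k + s) * log ((n : ℝ) / N))) := by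
  have h : ∀ n ∈ Icc N (2 * N), HasSum
      (fun j : ℕ => ((s ^ j / j.factorial : ℝ) : ℂ) *
        (rl_b N b j n * ei (k * log ((n : ℝ) / N))))
      (b n * ei ((k + s) * log ((n : ℝ) / N))) := by
    intro n hn
    have h1 := NormedSpace.expSeries_div_hasSum_exp
      ((s : ℂ) * ((log ((n : ℝ) / N) : ℝ) * Complex.I))
    rw [← Complex.exp_eq_exp_ℂ] at h1
    have h2 := h1.mul_left (b n * ei (k * log ((n : ℝ) / N)))
    have e1 : (fun j : ℕ => ((s ^ j / j.factorial : ℝ) : ℂ) *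
        (rl_b N b j n * ei (k * log ((n : ℝ) / N)))) = fun j : ℕ =>
        b n * ei (k * log ((n : ℝ) / N)) *
          (((s : ℂ) * ((log ((n : ℝ) / N) : ℝ) * Complex.I)) ^ j / j.factorial) := by
      funext j
      rw [rl_b, if_pos hn, mul_pow (s : ℂ)]
      push_cast
      ring
    have e2 : b n * ei ((k + s) * log ((n : ℝ) / N)) = b n * ei (k * log ((n : ℝ) / N)) *
        Complex.exp ((s : ℂ) * ((log ((n : ℝ) / N) : ℝ) * Complex.I)) := by
      rw [add_mul, ei_add, mul_assoc]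
      congr 2
      unfold ei
      congr 1
      push_cast
      ring
    rw [e1, e2]
    exact h2
  have h3 := hasSum_sum h
  have e : (fun j : ℕ => ((s ^ j / j.factorial : ℝ) : ℂ) * DD N (rl_b N b j) k) = fun j : ℕ =>
      ∑ n ∈ Icc N (2 * N), ((s ^ j / j.factorial : ℝ) : ℂ) *
        (rl_b N b j n * ei (k * log ((n : ℝ) / N))) := by
    funext j
    rw [DD, mul_sum]
  rw [e]
  exact h3

lemma rl_norm {N : ℕ} (hN : 1 ≤ N) (b : ℕ → ℂ) (t : ℝ) :
    ‖∑ n ∈ Icc N (2 * N), b n * ei (t * log ((n : ℝ) / N))‖ =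
    ‖∑ n ∈ Icc N (2 * N), b n * Complex.exp (((t * log (n : ℝ) : ℝ) : ℂ) * Complex.I)‖ := by
  have hN' : (0 : ℝ) < N := by exact_mod_cast hN
  have h : ∑ n ∈ Icc N (2 * N), b n * Complex.exp (((t * log (n : ℝ) : ℝ) : ℂ) * Complex.I)
      = ei (t * log N) * ∑ n ∈ Icc N (2 * N), b n * ei (t * log ((n : ℝ) / N)) := by
    rw [mul_sum]
    refine sum_congr rfl fun n hn => ?_
    have h1 : (0 : ℝ) < n := hN'.trans_le (by exact_mod_cast (mem_Icc.1 hn).1)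
    rw [log_div h1.ne' hN'.ne', mul_left_comm, ← ei_add]
    congr 1
    show ei _ = _
    congr 1
    ring
  rw [h, norm_mul, norm_ei, one_mul]

/-- some derivative is large at the integer part -/
lemma rl_exists {N : ℕ} (b : ℕ → ℂ) {t V : ℝ} (hV : 0 < V)
    (h : V ≤ ‖∑ n ∈ Icc N (2 * N), b n * ei (t * log ((n : ℝ) / N))‖) :
    ∃ j : ℕ, V / (4 * (2 ^ j / j.factorial)) < ‖DD N (rl_b N b j) ⌊t⌋‖ := by
  by_contra hc
  push Not at hc
  have h1 := rl_hasSum N b ⌊t⌋ (Int.fract t)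
  rw [Int.floor_add_fract] at h1
  have h2 : HasSum (fun j : ℕ => V / 4 * (1 / 2) ^ j) (V / 4 * 2) :=
    hasSum_geometric_two.mul_left _
  have h3 := h1.norm_le_of_bounded h2 fun j => by
    have hf : (0 : ℝ) < j.factorial := by exact_mod_cast j.factorial_pos
    have h4 : Int.fract t ^ j ≤ 1 := pow_le_one₀ (Int.fract_nonneg t) (Int.fract_lt_one t).le
    have h5 : 0 ≤ Int.fract t ^ j := pow_nonneg (Int.fract_nonneg t) j
    rw [norm_mul, Complex.norm_real, Real.norm_eq_abs, abs_of_nonneg (by positivity)]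
    calc _ ≤ 1 / (j.factorial : ℝ) * (V / (4 * (2 ^ j / j.factorial))) := by
          gcongr
          exact hc j
      _ = _ := by
          rw [one_div_pow]
          field_simp
  linarith

lemma rl_DD {N : ℕ} (hN : 1 ≤ N) {b : ℕ → ℂ} (hb : ∀ n, ‖b n‖ ≤ 1) (t : ℤ) :
    ‖DD N b t‖ ≤ 2 * N := by
  refine (_root_.norm_sum_le _ _).trans ?_
  refine (sum_le_card_nsmul _ _ 1 fun n _ => ?_).trans ?_
  · rw [norm_mul, norm_ei, mul_one]
    exact hb n
  · rw [nsmul_eq_mul, mul_one, Nat.card_Icc]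
    have h : 2 * N + 1 - N ≤ 2 * N := by omega
    exact_mod_cast h

lemma rl_q (j : ℕ) : (4 : ℝ) * (2 ^ j / j.factorial) ≤ 4 * exp 4 / 2 ^ j := by
  have hf : (0 : ℝ) < j.factorial := by exact_mod_cast j.factorial_pos
  have h1 : (4 : ℝ) ^ j / j.factorial ≤ exp 4 := Real.pow_div_factorial_le_exp 4 (by norm_num) j
  rw [le_div_iff₀ (by positivity)]
  have h2 : (4 : ℝ) ^ j = 2 ^ j * 2 ^ j := by rw [← mul_pow]; norm_num
  calc 4 * ((2 : ℝ) ^ j / j.factorial) * 2 ^ j = 4 * ((4 : ℝ) ^ j / j.factorial) := by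
        rw [h2]; ring
    _ ≤ _ := by linarith

lemma rl_count {ε : ℝ} (hε : 0 < ε) : ∃ C : ℝ, 0 ≤ C ∧ ∀ (N : ℝ) (S : Finset ℕ), 1 ≤ N →
    (∀ j ∈ S, (2 : ℝ) ^ j ≤ 8 * exp 4 * N) → (S.card : ℝ) ≤ C * N ^ ε := by
  have he : 1 ≤ 8 * exp 4 := by linarith [one_le_exp (x := 4) (by norm_num)]
  have hl := Real.log_nonneg he
  refine ⟨1 + 2 * log (8 * exp 4) + 2 / ε, by positivity, fun N S hN h => ?_⟩
  have hp : 1 ≤ N ^ ε := Real.one_le_rpow hN hε.le
  have h0 : 0 ≤ 2 * log (8 * exp 4 * N) :=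
    mul_nonneg (by norm_num) (Real.log_nonneg (one_le_mul_of_one_le_of_one_le he hN))
  have h1 : S ⊆ range (⌊2 * log (8 * exp 4 * N)⌋₊ + 1) := fun j hj => by
    refine mem_range.2 (Nat.lt_succ_of_le (Nat.le_floor ?_))
    have h2 := Real.log_le_log (by positivity) (h j hj)
    rw [Real.log_pow] at h2
    have h3 := Real.log_two_gt_d9
    have h4 : (0 : ℝ) ≤ j := Nat.cast_nonneg j
    nlinarith
  have h2 : (S.card : ℝ) ≤ ⌊2 * log (8 * exp 4 * N)⌋₊ + 1 := by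
    have := card_le_card h1
    rw [card_range] at this
    exact_mod_cast this
  have h3 := Nat.floor_le h0
  rw [Real.log_mul (by positivity) (by positivity)] at h2 h3
  have h4 := Real.log_le_rpow_div (x := N) (by linarith) hε
  have h5 : (1 + 2 * log (8 * exp 4) + 2 / ε) * N ^ ε =
      N ^ ε + 2 * (log (8 * exp 4) * N ^ ε) + 2 * (N ^ ε / ε) := by ring
  have h6 : log (8 * exp 4) ≤ log (8 * exp 4) * N ^ ε := le_mul_of_one_le_right hl hp
  rw [h5]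
  linarith

theorem weak_real (A : ℝ) {ε : ℝ} (hε : 0 < ε) :
    ∃ C : ℝ, ∀ σ : ℝ, 7 / 9 ≤ σ → σ ≤ 1 → ∀ N : ℕ, 1 ≤ N → ∀ T : ℝ,
      (((N : ℝ) ≤ T ∧ T ^ 2 ≤ (N : ℝ) ^ 3) ∨ ((N : ℝ) ^ 2 ≤ T ∧ T ≤ (N : ℝ) ^ A)) →
      ∀ b : ℕ → ℂ, (∀ n, ‖b n‖ ≤ 1) →
      ∀ W : Finset ℝ, (∀ t ∈ W, ∀ t' ∈ W, t ≠ t' → 1 ≤ |t - t'|) →
        (∀ t ∈ W, 0 ≤ t ∧ t ≤ T ∧ (N : ℝ) ^ σ ≤ ‖∑ n ∈ Icc N (2 * N),
          b n * Complex.exp (((t * log (n : ℝ) : ℝ) : ℂ) * Complex.I)‖) →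
        (W.card : ℝ) ≤ C * T ^ (2 - 2 * σ + ε) := by
  obtain ⟨C, a, hC0, hC⟩ := weak_all A (half_pos hε)
  obtain ⟨C', hC0', hC'⟩ := rl_count (half_pos hε)
  refine ⟨C' * (C * (4 * exp 4) ^ a), fun σ hσ hσ1 N hN T hT b hb W hsep hW => ?_⟩
  have hN1 : (1 : ℝ) ≤ N := by exact_mod_cast hN
  have hN' : (0 : ℝ) < N := by linarith
  have hNT : (N : ℝ) ≤ T := by
    rcases hT with h | h
    · exact h.1
    · exact (le_self_pow₀ hN1 (by norm_num)).trans h.1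
  have hT0 : 0 < T := by linarith
  have hV1 : 1 ≤ (N : ℝ) ^ σ := Real.one_le_rpow hN1 (by linarith)
  have hV : 0 < (N : ℝ) ^ σ := by linarith
  set q : ℕ → ℝ := fun j => 4 * (2 ^ j / j.factorial) with hq
  have hq0 : ∀ j, 0 < q j := fun j => by
    have hf : (0 : ℝ) < j.factorial := by exact_mod_cast j.factorial_pos
    simp only [hq]
    positivity
  have hq1 : ∀ j, q j ≤ 4 * exp 4 := fun j =>
    (rl_q j).trans (div_le_self (by positivity) (one_le_pow₀ (by norm_num)))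
  have hQ : (1 : ℝ) ≤ 4 * exp 4 := by linarith [one_le_exp (x := 4) (by norm_num)]
  have hex : ∀ t : ℝ, ∃ j : ℕ, t ∈ W → (N : ℝ) ^ σ / q j < ‖DD N (rl_b N b j) ⌊t⌋‖ := fun t => by
    by_cases ht : t ∈ W
    · obtain ⟨j, hj⟩ := rl_exists b hV ((hW t ht).2.2.trans (rl_norm hN b t).ge)
      exact ⟨j, fun _ => hj⟩
    · exact ⟨0, fun h => absurd h ht⟩
  choose J hJ using hex
  have hfib : ∀ j : ℕ, ((W.filter fun t => J t = j).card : ℝ)
      ≤ C * (4 * exp 4) ^ a * T ^ (2 - 2 * σ + ε / 2) := fun j => by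
    have h1 : ((W.filter fun t => J t = j).image fun t => ⌊t⌋).card
        = (W.filter fun t => J t = j).card := card_image_of_injOn fun t ht t' ht' h => by
      by_contra hne
      have h2 := hsep t (mem_filter.1 ht).1 t' (mem_filter.1 ht').1 hne
      linarith [Int.abs_sub_lt_one_of_floor_eq_floor h]
    have h3 : (N : ℝ) ^ σ ≤ 4 * exp 4 * ((N : ℝ) ^ σ / q j) := by
      rw [← mul_div_assoc, le_div_iff₀ (hq0 j), mul_comm]
      exact mul_le_mul_of_nonneg_right (hq1 j) hV.le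
    have h2 := hC σ N T _ ((N : ℝ) ^ σ / q j) (rl_b N b j)
      ((W.filter fun t => J t = j).image fun t => ⌊t⌋) hσ hσ1 hN hT hQ h3
      ⟨rl_b_le hN hb j, fun k hk => by
        obtain ⟨t, ht, rfl⟩ := mem_image.1 hk
        obtain ⟨ht1, -⟩ := mem_filter.1 ht
        exact ⟨Int.floor_nonneg.2 (hW t ht1).1, (Int.floor_le t).trans (hW t ht1).2.1⟩,
      fun k hk => by
        obtain ⟨t, ht, rfl⟩ := mem_image.1 hk
        obtain ⟨ht1, ht2⟩ := mem_filter.1 ht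
        rw [← ht2]
        exact (hJ t ht1).le.trans_eq (rl_norm hN _ _)⟩
    rwa [h1] at h2
  have hcl := hC' N (W.image J) hN1 fun j hj => by
    obtain ⟨t, ht, rfl⟩ := mem_image.1 hj
    have h1 := (hJ t ht).le.trans (rl_DD hN (rl_b_le hN hb _) _)
    rw [div_le_iff₀ (hq0 _)] at h1
    have h2 := (hV1.trans h1).trans (mul_le_mul_of_nonneg_left (rl_q (J t)) (by positivity))
    rw [← mul_div_assoc, le_div_iff₀ (by positivity), one_mul] at h2
    linarith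
  have hp : (N : ℝ) ^ (ε / 2) ≤ T ^ (ε / 2) := Real.rpow_le_rpow hN'.le hNT (by positivity)
  have e : T ^ (2 - 2 * σ + ε) = T ^ (ε / 2) * T ^ (2 - 2 * σ + ε / 2) := by
    rw [← Real.rpow_add hT0]
    congr 1
    ring
  rw [card_eq_sum_card_image J W]
  push_cast
  calc _ ≤ (W.image J).card • (C * (4 * exp 4) ^ a * T ^ (2 - 2 * σ + ε / 2)) :=
        sum_le_card_nsmul _ _ _ fun j _ => hfib j
    _ ≤ C' * T ^ (ε / 2) * (C * (4 * exp 4) ^ a * T ^ (2 - 2 * σ + ε / 2)) := by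
        rw [nsmul_eq_mul]
        refine mul_le_mul_of_nonneg_right (hcl.trans ?_) (by positivity)
        exact mul_le_mul_of_nonneg_left hp hC0'
    _ = _ := by rw [e]; ring

end Pool.Agent.Lib.MP_ecd12e_nt.DH
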