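import Pool.Agent.Lib.MP_ecd12e_nt.DH.Osc

/-!
The reflection principle for one block of the dual sum.
-/

set_option autoImplicit false

namespace Pool.Agent.Lib.MP_ecd12e_nt.DH

open Finset Real MeasureTheory
open Pool.Agent.Lib.MP_ecd12e_nt.Bar (ei)
open Pool.Agent.Lib.MP_ecd12e_nt.Sch

lemma refl_contAt (t s : ℝ) {r : ℝ} (hr : 0 < r) :
    ContinuousAt (fun r : ℝ => ei (t * Real.log r - 2 * π * s * r)) r :=
  continuous_ei.continuousAt.comp ((continuousAt_const.mul (Real.continuousAt_log hr.ne')).sub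
    (continuousAt_const.mul continuousAt_id))

lemma refl_ii (t s : ℝ) {a r : ℝ} (ha : 0 < a) (hr : 0 < r) :
    IntervalIntegrable (fun r : ℝ => ei (t * Real.log r - 2 * π * s * r)) volume a r :=
  ContinuousOn.intervalIntegrable fun _ hx =>
    (refl_contAt t s ((lt_min ha hr).trans_le hx.1)).continuousWithinAt

lemma refl_der (t s : ℝ) {a r : ℝ} (ha : 0 < a) (hr : 0 < r) :
    HasDerivAt (fun r : ℝ => ∫ x in a..r, ei (t * Real.log x - 2 * π * s * x))
      (ei (t * Real.log r - 2 * π * s * r)) r := by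
  refine intervalIntegral.integral_hasDerivAt_right (refl_ii t s ha hr) ?_ (refl_contAt t s hr)
  refine (Measurable.stronglyMeasurable ?_).stronglyMeasurableAtFilter
  exact continuous_ei.measurable.comp
    ((measurable_const.mul Real.measurable_log).sub (measurable_const.mul measurable_id))

lemma refl_cont {w : ℝ → ℝ} (h : Sm w) (x : ℝ) : Continuous fun r : ℝ => w (r / x) :=
  (decay_cont h).comp (continuous_id.div_const x)

/-- One term, after integration by parts. -/
lemma refl_one {w : ℝ → ℝ} (h : Sm w) (t s : ℝ) {x a b : ℝ} (ha : 0 < a) (hax : 2 * a ≤ x)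
    (hxb : 5 * x ≤ 2 * b) :
    (x : ℂ) * ff w t (s * x) = -ei (-(t * Real.log x)) *
      ∫ r in a..b, ((deriv w (r / x) / x : ℝ) : ℂ) *
        ∫ y in a..r, ei (t * Real.log y - 2 * π * s * y) := by
  have hx : 0 < x := by linarith
  have hab : a ≤ b := by linarith
  have hlo : ∀ r, r ≤ a → w (r / x) = 0 := fun r hr =>
    h.supp _ (Or.inl (by rw [div_lt_iff₀ hx]; linarith))
  have hhi : ∀ r, b ≤ r → w (r / x) = 0 := fun r hr =>
    h.supp _ (Or.inr (by rw [lt_div_iff₀ hx]; linarith))
  have hpos : ∀ r ∈ Set.uIcc a b, 0 < r := fun r hr => by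
    rw [Set.uIcc_of_le hab] at hr
    exact ha.trans_le hr.1
  have h1 := intervalIntegral.integral_mul_deriv_eq_deriv_mul (a := a) (b := b)
    (u := fun r : ℝ => (w (r / x) : ℂ)) (u' := fun r : ℝ => ((deriv w (r / x) / x : ℝ) : ℂ))
    (v := fun r : ℝ => ∫ y in a..r, ei (t * Real.log y - 2 * π * s * y))
    (v' := fun r : ℝ => ei (t * Real.log r - 2 * π * s * r))
    (fun r _ => by
      have h2 := (decay_der h (r / x)).comp r ((hasDerivAt_id r).div_const x)
      rw [mul_one_div] at h2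
      exact h2.ofReal_comp)
    (fun r hr => refl_der t s ha (hpos r hr))
    ((Complex.continuous_ofReal.comp ((refl_cont h.deriv x).div_const x)).intervalIntegrable _ _)
    (refl_ii t s ha (ha.trans_le hab))
  rw [hlo a le_rfl, hhi b le_rfl, Complex.ofReal_zero, zero_mul, zero_mul, sub_zero,
    zero_sub] at h1
  rw [ff_lin w t s hx, neg_mul, ← mul_neg, ← h1, ← intervalIntegral.integral_const_mul,
    ← intervalIntegral.integral_eq_integral_of_support_subset (a := a) (b := b)]
  · refine intervalIntegral.integral_congr fun r hr => ?_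
    have h2 : t * Real.log (r / x) - 2 * π * s * r =
        -(t * Real.log x) + (t * Real.log r - 2 * π * s * r) := by
      rw [Real.log_div (hpos r hr).ne' hx.ne']
      ring
    simp only [h2, Bar.ei_add]
    ring
  · intro r hr
    by_contra hc
    rw [Set.mem_Ioc, not_and_or, not_lt, not_le] at hc
    refine hr ?_
    rcases hc with hc | hc
    · simp only [hlo r hc, Complex.ofReal_zero, zero_mul]
    · simp only [hhi r hc.le, Complex.ofReal_zero, zero_mul]

lemma refl_conj (I : Finset ℕ) (c : ℕ → ℝ) (t : ℝ) :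
    ‖∑ m ∈ I, (c m : ℂ) * ei (-(t * Real.log m))‖ = ‖dp I (fun m => (c m : ℂ)) t‖ := by
  rw [← Complex.norm_conj, map_sum, dp]
  simp only [map_mul, Complex.conj_ofReal, Bar.conj_ei, neg_neg]

/-- The coefficients of the reflected polynomial. -/
noncomputable def reflc (w : ℝ → ℝ) (N : ℕ) (Q C r : ℝ) (m : ℕ) : ℝ :=
  min 1 ((Q / m) ^ 2) * (deriv w (r / (m * N)) / C)

lemma refl_c_le {w : ℝ → ℝ} {C : ℝ} (hC : 0 < C) (hw : ∀ u, |deriv w u| ≤ C) (N : ℕ) (Q r : ℝ)
    (m : ℕ) : ‖(reflc w N Q C r m : ℂ)‖ ≤ 1 := by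
  rw [Complex.norm_real, Real.norm_eq_abs, reflc, abs_mul, abs_div, abs_of_pos hC,
    abs_of_nonneg (le_min zero_le_one (sq_nonneg _))]
  exact mul_le_one₀ (min_le_left _ _) (by positivity) ((div_le_one hC).2 (hw _))

lemma refl_c_cont {w : ℝ → ℝ} (h : Sm w) (N : ℕ) (Q C t : ℝ) (I : Finset ℕ) :
    Continuous fun r : ℝ => ‖dp I (fun m => (reflc w N Q C r m : ℂ)) t‖ := by
  refine Continuous.norm (continuous_finsetSum _ fun m _ => Continuous.mul ?_ continuous_const)
  exact Complex.continuous_ofReal.comp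
    (continuous_const.mul ((refl_cont h.deriv _).div_const C))

/-- The pointwise bound for a block. -/
lemma refl_blk {w : ℝ → ℝ} (h : Sm w) {C Q s : ℝ} (hC : 0 < C) {N : ℕ} (hN : 1 ≤ N) (hQ : 0 < Q)
    {I : Finset ℕ} (hI : InI I Q 2) (hs : s = 1 ∨ s = -1) (t : ℤ) :
    ‖blk w N s I t‖ ≤ 12 * √(5 * Q * N) * (C / (Q ^ 2 * N)) *
      ∫ r in (Q * N / 2)..(5 * Q * N), ‖dp I (fun m => (reflc w N Q C r m : ℂ)) t‖ := by
  have hN' : (0 : ℝ) < N := by exact_mod_cast hN
  have hQN : 0 < Q * N := by positivity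
  have ha : 0 < Q * N / 2 := by positivity
  have hab : Q * N / 2 ≤ 5 * Q * N := by linarith
  have hG : ContinuousOn (fun r : ℝ => ∫ y in (Q * N / 2)..r, ei (t * Real.log y - 2 * π * s * y))
      (Set.uIcc (Q * N / 2) (5 * Q * N)) := fun r hr => by
    rw [Set.uIcc_of_le hab] at hr
    exact (refl_der t s ha (ha.trans_le hr.1)).continuousAt.continuousWithinAt
  have h1 : blk w N s I t = -ei (-(t * Real.log N)) * ((C / (Q ^ 2 * N) : ℝ) : ℂ) *
      ∫ r in (Q * N / 2)..(5 * Q * N),
        (∑ m ∈ I, (reflc w N Q C r m : ℂ) * ei (-(t * Real.log m))) *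
          ∫ y in (Q * N / 2)..r, ei (t * Real.log y - 2 * π * s * y) := by
    simp only [sum_mul]
    rw [intervalIntegral.integral_finsetSum fun m _ => ?_, mul_sum]
    · refine sum_congr rfl fun m hm => ?_
      have hm1 := hI m hm
      have hm0 : (0 : ℝ) < m := hQ.trans_le hm1.1
      have hm' : 1 ≤ m := by exact_mod_cast hm0
      rw [repb_scale hm', refl_one h t s (x := m * N) ha (b := 5 * Q * N) (by nlinarith)
        (by nlinarith), ← mul_assoc, ← intervalIntegral.integral_const_mul,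
        ← intervalIntegral.integral_const_mul]
      refine intervalIntegral.integral_congr fun r _ => ?_
      have h2 : min 1 ((Q / m) ^ 2) = (Q / m) ^ 2 :=
        min_eq_right (pow_le_one₀ (by positivity) ((div_le_one hm0).2 hm1.1))
      have h3 : -((t : ℝ) * Real.log (m * N)) = -(t * Real.log N) + -(t * Real.log m) := by
        rw [Real.log_mul hm0.ne' hN'.ne']
        ring
      have h4 : C / (Q ^ 2 * N) * reflc w N Q C r m =
          (m : ℝ)⁻¹ * (deriv w (r / (m * N)) / (m * N)) := by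
        rw [reflc, h2]
        field_simp
      have h5 := congrArg (fun z : ℝ => (z : ℂ)) h4
      simp only [Complex.ofReal_mul, Complex.ofReal_inv, Complex.ofReal_natCast] at h5
      simp only [h3, Bar.ei_add]
      linear_combination (ei (-(t * Real.log N)) * ei (-(t * Real.log m)) *
        ∫ y in (Q * N / 2)..r, ei (t * Real.log y - 2 * π * s * y)) * h5
    · refine ContinuousOn.intervalIntegrable (ContinuousOn.mul (Continuous.continuousOn ?_) hG)
      exact (Complex.continuous_ofReal.comp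
        (continuous_const.mul ((refl_cont h.deriv _).div_const C))).mul continuous_const
  have hK : 0 ≤ C / (Q ^ 2 * N) := by positivity
  rw [h1, norm_mul, norm_mul, norm_neg, Bar.norm_ei, one_mul, Complex.norm_real,
    Real.norm_of_nonneg hK, mul_comm (12 * √(5 * Q * N)), mul_assoc (C / (Q ^ 2 * N)),
    ← intervalIntegral.integral_const_mul]
  refine mul_le_mul_of_nonneg_left ?_ hK
  refine intervalIntegral.norm_integral_le_of_norm_le hab
    (Filter.Eventually.of_forall fun r hr => ?_)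
    ((continuous_const.mul (refl_c_cont h N Q C t I)).intervalIntegrable _ _)
  rw [norm_mul, refl_conj, mul_comm]
  refine mul_le_mul_of_nonneg_right ?_ (norm_nonneg _)
  refine (osc ha hr.1.le (by linarith [hr.2]) hs t).trans ?_
  exact mul_le_mul_of_nonneg_left (Real.sqrt_le_sqrt hr.2) (by norm_num)

theorem refl {w : ℝ → ℝ} (h : Sm w) :
    ∃ C : ℝ, 0 ≤ C ∧ ∀ (N : ℕ) (Q s B : ℝ) (I : Finset ℕ) (ι : Type) (S : Finset ι) (u : ι → ℤ)
      (a : ι → ℝ), 1 ≤ N → 0 < Q → InI I Q 2 → (s = 1 ∨ s = -1) → (∀ i ∈ S, 0 ≤ a i) →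
      (∀ d : ℕ → ℂ, (∀ m, ‖d m‖ ≤ 1) → ∑ i ∈ S, a i * ‖dp I d (u i)‖ ≤ B) →
      ∑ i ∈ S, a i * ‖blk w N s I (u i)‖ ≤ C * √(N / Q) * B := by
  obtain ⟨C0, hC0, hw⟩ := h.deriv.bdd
  have hC : 0 < C0 + 1 := by linarith
  have hw' : ∀ u, |deriv w u| ≤ C0 + 1 := fun u => by linarith [hw u]
  generalize C0 + 1 = C at hC hw'
  refine ⟨180 * C, by positivity, fun N Q s B I ι S u a hN hQ hI hs ha hB => ?_⟩
  have hN' : (0 : ℝ) < N := by exact_mod_cast hN
  have hQN : 0 < Q * N := by positivity
  have hab : Q * N / 2 ≤ 5 * Q * N := by linarith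
  have hB0 : 0 ≤ B := le_trans (sum_nonneg fun i hi => mul_nonneg (ha i hi) (norm_nonneg _))
    (hB (fun _ => 0) fun _ => by simp)
  have hc : ∀ i, Continuous fun r : ℝ =>
      a i * ‖dp I (fun m => (reflc w N Q C r m : ℂ)) (u i)‖ := fun i =>
    continuous_const.mul (refl_c_cont h N Q C _ I)
  have h1 : ∑ i ∈ S, a i * ∫ r in (Q * N / 2)..(5 * Q * N),
      ‖dp I (fun m => (reflc w N Q C r m : ℂ)) (u i)‖ ≤ 5 * Q * N * B := by
    simp only [← intervalIntegral.integral_const_mul]
    rw [← intervalIntegral.integral_finsetSum fun i _ => (hc i).intervalIntegrable _ _]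
    refine (intervalIntegral.integral_mono_on hab
      ((continuous_finsetSum _ fun i _ => hc i).intervalIntegrable _ _)
      intervalIntegrable_const
      fun r _ => hB _ (refl_c_le hC hw' N Q r)).trans ?_
    rw [intervalIntegral.integral_const, smul_eq_mul]
    exact mul_le_mul_of_nonneg_right (by linarith) hB0
  have h2 : √(5 * Q * N) ≤ 3 * Q * √(N / Q) := by
    refine Real.sqrt_le_iff.2 ⟨by positivity, ?_⟩
    rw [mul_pow, Real.sq_sqrt (by positivity)]
    have : (3 * Q) ^ 2 * (N / Q) = 9 * (Q * N) := by field_simp; norm_num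
    linarith
  calc ∑ i ∈ S, a i * ‖blk w N s I (u i)‖
      ≤ ∑ i ∈ S, 12 * √(5 * Q * N) * (C / (Q ^ 2 * N)) * (a i * ∫ r in (Q * N / 2)..(5 * Q * N),
          ‖dp I (fun m => (reflc w N Q C r m : ℂ)) (u i)‖) := sum_le_sum fun i hi => by
        rw [mul_left_comm]
        exact mul_le_mul_of_nonneg_left (refl_blk h hC hN hQ hI hs (u i)) (ha i hi)
    _ ≤ 12 * (3 * Q * √(N / Q)) * (C / (Q ^ 2 * N)) * (5 * Q * N * B) := by
        rw [← mul_sum]
        refine mul_le_mul (by gcongr) h1 (sum_nonneg fun i hi => mul_nonneg (ha i hi) ?_)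
          (by positivity)
        exact intervalIntegral.integral_nonneg hab fun _ _ => norm_nonneg _
    _ = 180 * C * √(N / Q) * B := by field_simp; ring

end Pool.Agent.Lib.MP_ecd12e_nt.DH
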