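import Pool.Agent.Lib.MP_ecd12e_nt.DH.Core
import Pool.Agent.Lib.MP_ecd12e_nt.DH.Expo

/-!
The bound in the range up to three halves.
-/

set_option autoImplicit false

namespace Pool.Agent.Lib.MP_ecd12e_nt.DH

open Finset Real MeasureTheory
open Pool.Agent.Lib.MP_ecd12e_nt.Bar (ei)
open Pool.Agent.Lib.MP_ecd12e_nt.Sch

lemma weak_small {N T s η κ : ℝ} (hN : 1 ≤ N) (hT : N ≤ T) (hT' : T ^ 2 ≤ N ^ 3) (hs : s ≤ 4 / 9)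
    (hη : η ≤ 1 / 100) (hκ : 1 ≤ κ) (h : N ≤ 2 * N ^ η * κ ^ 12 * T ^ s) : N ≤ 16 * κ ^ 48 := by
  have hN0 : 0 < N := by linarith
  have hT1 : 1 ≤ T := hN.trans hT
  have hT0 : 0 ≤ T := by linarith
  have a1 : T ^ s ≤ N ^ (2 / 3 : ℝ) := by
    calc T ^ s ≤ T ^ (4 / 9 : ℝ) := Real.rpow_le_rpow_of_exponent_le hT1 hs
      _ = (T ^ 2) ^ (2 / 9 : ℝ) := by
          rw [← Real.rpow_natCast, ← Real.rpow_mul hT0]; norm_num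
      _ ≤ (N ^ 3) ^ (2 / 9 : ℝ) := Real.rpow_le_rpow (by positivity) hT' (by norm_num)
      _ = N ^ (2 / 3 : ℝ) := by
          rw [← Real.rpow_natCast, ← Real.rpow_mul hN0.le]; norm_num
  have a2 : N ^ η ≤ N ^ (1 / 12 : ℝ) := Real.rpow_le_rpow_of_exponent_le hN (by linarith)
  obtain ⟨x, hx⟩ : ∃ x : ℝ, x = N ^ (1 / 4 : ℝ) := ⟨_, rfl⟩
  have hx0 : 0 < x := by rw [hx]; positivity
  have a3 : N ^ (1 / 12 : ℝ) * N ^ (2 / 3 : ℝ) = x ^ 3 := by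
    rw [hx, ← Real.rpow_add hN0, ← Real.rpow_natCast, ← Real.rpow_mul hN0.le]; norm_num
  have a4 : N = x ^ 4 := by
    rw [hx, ← Real.rpow_natCast, ← Real.rpow_mul hN0.le]; norm_num
  have a5 : N ^ η * T ^ s ≤ x ^ 3 := by
    rw [← a3]
    exact mul_le_mul a2 a1 (Real.rpow_nonneg hT0 _) (Real.rpow_nonneg hN0.le _)
  have k0 : 0 ≤ 2 * κ ^ 12 := by positivity
  have a6 : x * x ^ 3 ≤ 2 * κ ^ 12 * x ^ 3 := by
    calc x * x ^ 3 = N := by rw [a4]; ring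
      _ ≤ 2 * κ ^ 12 * (N ^ η * T ^ s) := by linarith
      _ ≤ 2 * κ ^ 12 * x ^ 3 := mul_le_mul_of_nonneg_left a5 k0
  have a7 : x ≤ 2 * κ ^ 12 := le_of_mul_le_mul_right a6 (by positivity)
  calc N = x ^ 4 := a4
    _ ≤ (2 * κ ^ 12) ^ 4 := pow_le_pow_left₀ hx0.le a7 4
    _ = 16 * κ ^ 48 := by ring

theorem weak1 {ε : ℝ} (hε : 0 < ε) :
    ∃ C : ℝ, 0 ≤ C ∧ ∀ (σ : ℝ) (N : ℕ) (T κ V : ℝ) (b : ℕ → ℂ) (W : Finset ℤ), 7 / 9 ≤ σ → σ ≤ 1 →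
      1 ≤ N → (N : ℝ) ≤ T → T ^ 2 ≤ (N : ℝ) ^ 3 → 1 ≤ κ → (N : ℝ) ^ σ ≤ κ * V → LV N T V b W →
      (W.card : ℝ) ≤ C * κ ^ 100 * T ^ (2 - 2 * σ + ε) := by
  have hη : 0 < min ε (1 / 100) := lt_min hε (by norm_num)
  obtain ⟨N0, H⟩ := core hη
  refine ⟨(N0 : ℝ) ^ 2 + 257, by positivity, ?_⟩
  intro σ N T κ V b W hσ hσ1 hN hT hT' hκ hV hLV
  have hN1 : (1 : ℝ) ≤ N := by exact_mod_cast hN
  have hN0 : (0 : ℝ) < N := by linarith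
  have hT1 : 1 ≤ T := hN1.trans hT
  have hT0 : 0 < T := by linarith
  have hκ0 : 0 < κ := by linarith
  have hR : (W.card : ℝ) ≤ T + 1 := card_le_of_inR hT0.le hLV.inr
  have hTN : T ≤ (N : ℝ) ^ 2 := by
    have h3 : (N : ℝ) ^ 3 ≤ (N : ℝ) ^ 4 := pow_le_pow_right₀ hN1 (by norm_num)
    refine (pow_le_pow_iff_left₀ (n := 2) hT0.le (by positivity) (by norm_num)).1 ?_
    calc T ^ 2 ≤ (N : ℝ) ^ 4 := hT'.trans h3
      _ = ((N : ℝ) ^ 2) ^ 2 := by ring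
  have hp : 1 ≤ T ^ (2 - 2 * σ + ε) := Real.one_le_rpow hT1 (by linarith)
  have k1 : 1 ≤ κ ^ 100 := one_le_pow₀ hκ
  have hsq : (0 : ℝ) ≤ (N0 : ℝ) ^ 2 := by positivity
  have fin : (W.card : ℝ) ≤ ((N0 : ℝ) ^ 2 + 257) * κ ^ 100 →
      (W.card : ℝ) ≤ ((N0 : ℝ) ^ 2 + 257) * κ ^ 100 * T ^ (2 - 2 * σ + ε) := fun h =>
    h.trans (le_mul_of_one_le_right (by positivity) hp)
  have fin2 : (N : ℝ) ≤ 16 * κ ^ 48 →
      (W.card : ℝ) ≤ ((N0 : ℝ) ^ 2 + 257) * κ ^ 100 * T ^ (2 - 2 * σ + ε) := fun h => by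
    refine fin ?_
    have e1 : (N : ℝ) ^ 2 ≤ (16 * κ ^ 48) ^ 2 := pow_le_pow_left₀ hN0.le h 2
    have e2 : (16 * κ ^ 48) ^ 2 = 256 * κ ^ 96 := by ring
    have e3 : κ ^ 96 ≤ κ ^ 100 := pow_le_pow_right₀ hκ (by norm_num)
    have e4 : 0 ≤ (N0 : ℝ) ^ 2 * κ ^ 100 := by positivity
    calc (W.card : ℝ) ≤ 257 * κ ^ 100 := by linarith
      _ ≤ ((N0 : ℝ) ^ 2 + 257) * κ ^ 100 := by linarith
  rcases lt_or_ge N N0 with hlt | hge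
  · refine fin ?_
    have e0 : (N : ℝ) ≤ N0 := by exact_mod_cast hlt.le
    have e1 : (N : ℝ) ^ 2 ≤ (N0 : ℝ) ^ 2 := pow_le_pow_left₀ hN0.le e0 2
    calc (W.card : ℝ) ≤ (N0 : ℝ) ^ 2 + 257 := by linarith
      _ ≤ ((N0 : ℝ) ^ 2 + 257) * κ ^ 100 := le_mul_of_one_le_right (by positivity) k1
  rcases lt_or_ge V 1 with hV1 | hV1
  · refine fin2 ?_
    have e1 : (N : ℝ) ^ (1 / 2 : ℝ) ≤ (N : ℝ) ^ σ :=
      Real.rpow_le_rpow_of_exponent_le hN1 (by linarith)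
    have e2 : κ * V ≤ κ := mul_le_of_le_one_right hκ0.le hV1.le
    have e3 : (N : ℝ) = ((N : ℝ) ^ (1 / 2 : ℝ)) ^ 2 := by
      rw [← Real.rpow_natCast, ← Real.rpow_mul hN0.le]; norm_num
    have e4 : ((N : ℝ) ^ (1 / 2 : ℝ)) ^ 2 ≤ κ ^ 2 :=
      pow_le_pow_left₀ (Real.rpow_nonneg hN0.le _) (by linarith) 2
    have e5 : κ ^ 2 ≤ κ ^ 48 := pow_le_pow_right₀ hκ (by norm_num)
    have e6 : 0 ≤ κ ^ 48 := by positivity
    linarith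
  obtain ⟨T0, h1, h2, E⟩ := expo hσ hσ1 hN1 hT hT'
  have hK : 1 ≤ (N : ℝ) ^ min ε (1 / 100) := Real.one_le_rpow hN1 hη.le
  have key : ∀ U : Finset ℤ, U ⊆ W → U.card ≤ N →
      (U.card : ℝ) ≤ 2 * (N : ℝ) ^ min ε (1 / 100) * κ ^ 12 * T ^ (2 - 2 * σ) := fun U hU hc =>
    E _ κ V _ hK hκ (by linarith) (Nat.cast_nonneg _) hV
      (H N T T0 V b U hge h1 h2 hT' hV1
        ⟨hLV.hb, fun t ht => hLV.inr t (hU ht), fun t ht => hLV.big t (hU ht)⟩ hc)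
  rcases le_or_gt W.card N with hc | hc
  · refine (key W (Subset.refl _) hc).trans ?_
    have e1 : (N : ℝ) ^ min ε (1 / 100) ≤ T ^ ε :=
      (Real.rpow_le_rpow hN0.le hT hη.le).trans
        (Real.rpow_le_rpow_of_exponent_le hT1 (min_le_left _ _))
    have e2 : κ ^ 12 ≤ κ ^ 100 := pow_le_pow_right₀ hκ (by norm_num)
    have e3 : 0 ≤ T ^ (2 - 2 * σ) := Real.rpow_nonneg hT0.le _
    have e4 : 0 ≤ T ^ ε := Real.rpow_nonneg hT0.le _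
    rw [Real.rpow_add hT0]
    calc 2 * (N : ℝ) ^ min ε (1 / 100) * κ ^ 12 * T ^ (2 - 2 * σ)
        ≤ 2 * T ^ ε * κ ^ 100 * T ^ (2 - 2 * σ) := by gcongr
      _ = 2 * (κ ^ 100 * (T ^ (2 - 2 * σ) * T ^ ε)) := by ring
      _ ≤ ((N0 : ℝ) ^ 2 + 257) * (κ ^ 100 * (T ^ (2 - 2 * σ) * T ^ ε)) :=
          mul_le_mul_of_nonneg_right (by linarith) (by positivity)
      _ = _ := by ring
  · obtain ⟨U, hU, hUc⟩ := exists_subset_card_eq hc.le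
    have e1 := key U hU hUc.le
    rw [hUc] at e1
    exact fin2 (weak_small hN1 hT hT' (by linarith) (min_le_right _ _) hκ e1)

end Pool.Agent.Lib.MP_ecd12e_nt.DH
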